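import Pool.Agent.Lib_MP_33fb9b_ks.Basic

set_option autoImplicit false

/-!
# S3: the crossing inequality (A.1)
-/

namespace Pool.Agent.Thin.RP

open Finset

variable {n : ℕ} (X : RP n)

/-- pointwise form of the crossing inequality -/
theorem cross_pt (ω : X.Om) {b t : ℕ} (hbt : b < t) (ht : t < n) :
    (t : ℝ) - b - ((X.h ω t : ℝ) - X.h ω b) ≤
      (((Ioo b t).filter (fun k => X.h ω k < X.h ω b)).card : ℝ)
      + (((Ioo b t).filter (fun k => X.h ω t < X.h ω k)).card : ℝ)
      + ind (X.h ω t < X.h ω b) + max ((X.h ω b : ℝ) - X.h ω t) 0 := by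
  have hb : b < n := hbt.trans ht
  set A := (Ioo b t).filter (fun k => X.h ω k < X.h ω b) with hA
  set B := (Ioo b t).filter (fun k => X.h ω t < X.h ω k) with hB
  have hcard : (Ioo b t).card = t - b - 1 := Nat.card_Ioo b t
  rcases lt_trichotomy (X.h ω b) (X.h ω t) with h | h | h
  · -- not inverted
    rw [ind_false (not_lt.mpr h.le), max_eq_right (by
      have : (X.h ω b : ℝ) ≤ X.h ω t := by exact_mod_cast h.le
      linarith)]
    set D := (Ioo b t).filter (fun k => X.h ω b < X.h ω k ∧ X.h ω k < X.h ω t) with hD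
    have h1 : Ioo b t ⊆ A ∪ B ∪ D := by
      intro k hk
      have hk' := mem_Ioo.mp hk
      have hkn : k < n := hk'.2.trans ht
      have n1 := X.h_ne (ω := ω) hkn hb (by omega)
      have n2 := X.h_ne (ω := ω) hkn ht (by omega)
      rw [mem_union, mem_union, hA, hB, hD, mem_filter, mem_filter, mem_filter]
      by_cases c1 : X.h ω k < X.h ω b
      · exact Or.inl (Or.inl ⟨hk, c1⟩)
      · by_cases c2 : X.h ω t < X.h ω k
        · exact Or.inl (Or.inr ⟨hk, c2⟩)
        · exact Or.inr ⟨hk, by omega, by omega⟩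
    have h2 : D.card ≤ X.h ω t - X.h ω b - 1 := by
      have h3 : D.card = (D.image (X.h ω)).card := by
        rw [card_image_of_injOn]
        intro x hx y hy hxy
        have hx' := mem_Ioo.mp (mem_filter.mp (mem_coe.mp hx)).1
        have hy' := mem_Ioo.mp (mem_filter.mp (mem_coe.mp hy)).1
        exact X.hinj ω x y (hx'.2.trans ht) (hy'.2.trans ht) hxy
      rw [h3, ← Nat.card_Ioo]
      apply card_le_card
      intro y hy
      obtain ⟨x, hx, rfl⟩ := mem_image.mp hy
      exact mem_Ioo.mpr (mem_filter.mp hx).2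
    have h4 : t - b - 1 ≤ A.card + B.card + D.card := by
      rw [← hcard]
      refine (card_le_card h1).trans ?_
      refine (card_union_le _ _).trans ?_
      have := card_union_le A B
      omega
    have h5 : t + X.h ω b ≤ A.card + B.card + X.h ω t + b := by omega
    have h6 : (t : ℝ) + X.h ω b ≤ A.card + B.card + X.h ω t + b := by exact_mod_cast h5
    linarith
  · exact absurd h (X.h_ne hb ht hbt.ne)
  · rw [ind_true h]
    have h1 : Ioo b t ⊆ A ∪ B := by
      intro k hk
      have hk' := mem_Ioo.mp hk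
      have hkn : k < n := hk'.2.trans ht
      have n1 := X.h_ne (ω := ω) hkn hb (by omega)
      rw [mem_union, hA, hB, mem_filter, mem_filter]
      by_cases c1 : X.h ω k < X.h ω b
      · exact Or.inl ⟨hk, c1⟩
      · exact Or.inr ⟨hk, by omega⟩
    have h4 : t - b - 1 ≤ A.card + B.card := by
      rw [← hcard]
      exact (card_le_card h1).trans (card_union_le _ _)
    have h5 : t ≤ A.card + B.card + 1 + b := by omega
    have h6 : (t : ℝ) ≤ A.card + B.card + 1 + b := by exact_mod_cast h5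
    have h7 := le_max_left ((X.h ω b : ℝ) - X.h ω t) 0
    linarith

/-- (A.1) -/
theorem cross {b t : ℕ} (hbt : b < t) (ht : t < n) :
    (t : ℝ) - b - (X.m t - X.m b) ≤
      ∑ k ∈ Ioo b t, (X.p b k + X.p k t) + X.p b t + X.neg b t := by
  have h1 : X.E (fun ω => (t : ℝ) - b - ((X.h ω t : ℝ) - X.h ω b))
      = (t : ℝ) - b - (X.m t - X.m b) := by
    rw [X.E_sub (fun _ => (t : ℝ) - b) (fun ω => (X.h ω t : ℝ) - X.h ω b), X.E_const,
      X.E_sub (fun ω => (X.h ω t : ℝ)) (fun ω => (X.h ω b : ℝ))]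
    rfl
  have h2 : X.E (fun ω => (((Ioo b t).filter (fun k => X.h ω k < X.h ω b)).card : ℝ)
      + (((Ioo b t).filter (fun k => X.h ω t < X.h ω k)).card : ℝ)
      + ind (X.h ω t < X.h ω b) + max ((X.h ω b : ℝ) - X.h ω t) 0)
      = ∑ k ∈ Ioo b t, (X.p b k + X.p k t) + X.p b t + X.neg b t := by
    rw [X.E_add (fun ω => (((Ioo b t).filter (fun k => X.h ω k < X.h ω b)).card : ℝ)
      + (((Ioo b t).filter (fun k => X.h ω t < X.h ω k)).card : ℝ)
      + ind (X.h ω t < X.h ω b)) (fun ω => max ((X.h ω b : ℝ) - X.h ω t) 0),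
      X.E_add (fun ω => (((Ioo b t).filter (fun k => X.h ω k < X.h ω b)).card : ℝ)
      + (((Ioo b t).filter (fun k => X.h ω t < X.h ω k)).card : ℝ))
      (fun ω => ind (X.h ω t < X.h ω b)),
      X.E_add (fun ω => (((Ioo b t).filter (fun k => X.h ω k < X.h ω b)).card : ℝ))
      (fun ω => (((Ioo b t).filter (fun k => X.h ω t < X.h ω k)).card : ℝ)),
      X.E_card (Ioo b t) (fun ω k => X.h ω k < X.h ω b),
      X.E_card (Ioo b t) (fun ω k => X.h ω t < X.h ω k), ← Finset.sum_add_distrib]
    rfl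
  rw [← h1, ← h2]
  exact X.E_mono fun ω => X.cross_pt ω hbt ht

end Pool.Agent.Thin.RP
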