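import Pool.Agent.Lib_MP_33fb9b_ks.Basic

set_option autoImplicit false

/-!
# S2: the dual random permutation (`i ↦ n-1-i`, `h ↦ n-1-h`)
-/

namespace Pool.Agent.Thin.RP

open Finset

variable {n : ℕ} (X : RP n)

/-- the dual random permutation -/
def dual : RP n where
  Om := X.Om
  fin := X.fin
  ne := X.ne
  h := fun ω i => n - 1 - X.h ω (n - 1 - i)
  hlt := fun ω i hi => by omega
  hinj := fun ω i j hi hj h => by
    have h1 := X.hlt ω (n - 1 - i) (by omega)
    have h2 := X.hlt ω (n - 1 - j) (by omega)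
    have h3 := X.hinj ω (n - 1 - i) (n - 1 - j) (by omega) (by omega) (by omega)
    omega

theorem dual_E (f : X.Om → ℝ) : X.dual.E f = X.E f := rfl

theorem dual_p {i j : ℕ} (hi : i < n) (hj : j < n) :
    X.dual.p i j = X.p (n - 1 - j) (n - 1 - i) := by
  have : X.p (n - 1 - j) (n - 1 - i) = X.dual.Pr (fun ω => X.h ω (n - 1 - i) < X.h ω (n - 1 - j)) :=
    rfl
  rw [this]
  unfold p
  apply X.dual.Pr_congr
  intro ω
  have h1 := X.hlt ω (n - 1 - i) (by omega)
  have h2 := X.hlt ω (n - 1 - j) (by omega)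
  change n - 1 - X.h ω (n - 1 - j) < n - 1 - X.h ω (n - 1 - i) ↔ _
  omega

theorem dual_m {i : ℕ} (hi : i < n) : X.dual.m i = ((n - 1 : ℕ) : ℝ) - X.m (n - 1 - i) := by
  unfold m
  have h0 : X.dual.E (fun ω => ((X.dual.h ω i : ℕ) : ℝ)) =
      X.E (fun ω => ((n - 1 : ℕ) : ℝ) - (X.h ω (n - 1 - i) : ℝ)) := by
    apply X.E_congr
    intro ω
    have h1 := X.hlt ω (n - 1 - i) (by omega)
    change ((n - 1 - X.h ω (n - 1 - i) : ℕ) : ℝ) = _
    rw [Nat.cast_sub (by omega)]
  rw [h0, X.E_sub, X.E_const]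

theorem dual_u {i : ℕ} (hi : i < n) : X.dual.u i = - X.u (n - 1 - i) := by
  unfold u
  rw [X.dual_m hi]
  have h1 : ((n - 1 - i : ℕ) : ℝ) = ((n - 1 : ℕ) : ℝ) - i := by
    rw [Nat.cast_sub (by omega)]
  rw [h1]
  ring

theorem dual_qp {i : ℕ} (hi : i < n) : X.dual.qp i = X.qm (n - 1 - i) := by
  unfold qp qm
  apply Finset.sum_bij' (fun j _ => n - 1 - j) (fun j _ => n - 1 - j)
  · intro j hj
    rw [Finset.mem_Ico] at hj
    rw [Finset.mem_range]
    omega
  · intro j hj
    rw [Finset.mem_range] at hj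
    rw [Finset.mem_Ico]
    omega
  · intro j hj
    rw [Finset.mem_Ico] at hj
    omega
  · intro j hj
    rw [Finset.mem_range] at hj
    omega
  · intro j hj
    rw [Finset.mem_Ico] at hj
    exact X.dual_p hi (by omega)

theorem dual_qm {i : ℕ} (hi : i < n) : X.dual.qm i = X.qp (n - 1 - i) := by
  unfold qp qm
  apply Finset.sum_bij' (fun j _ => n - 1 - j) (fun j _ => n - 1 - j)
  · intro j hj
    rw [Finset.mem_range] at hj
    rw [Finset.mem_Ico]
    omega
  · intro j hj
    rw [Finset.mem_Ico] at hj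
    rw [Finset.mem_range]
    omega
  · intro j hj
    rw [Finset.mem_range] at hj
    omega
  · intro j hj
    rw [Finset.mem_Ico] at hj
    omega
  · intro j hj
    rw [Finset.mem_range] at hj
    exact X.dual_p (by omega) hi

theorem dual_q {i : ℕ} (hi : i < n) : X.dual.q i = X.q (n - 1 - i) := by
  unfold q
  rw [X.dual_qp hi, X.dual_qm hi, add_comm]

theorem dual_neg {i j : ℕ} (hi : i < n) (hj : j < n) :
    X.dual.neg i j = X.neg (n - 1 - j) (n - 1 - i) := by
  unfold neg
  have h0 : X.dual.E (fun ω => max (((X.dual.h ω i : ℕ) : ℝ) - (X.dual.h ω j : ℕ)) 0) =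
      X.E (fun ω => max ((X.h ω (n - 1 - j) : ℝ) - (X.h ω (n - 1 - i) : ℝ)) 0) := by
    apply X.E_congr
    intro ω
    have h1 := X.hlt ω (n - 1 - i) (by omega)
    have h2 := X.hlt ω (n - 1 - j) (by omega)
    change max (((n - 1 - X.h ω (n - 1 - i) : ℕ) : ℝ) -
      ((n - 1 - X.h ω (n - 1 - j) : ℕ) : ℝ)) 0 = _
    rw [Nat.cast_sub (show X.h ω (n - 1 - i) ≤ n - 1 by omega),
      Nat.cast_sub (show X.h ω (n - 1 - j) ≤ n - 1 by omega)]
    congr 1
    ring
  exact h0

theorem dual_abs {i : ℕ} (hi : i < n) : X.dual.E (fun ω => |(X.dual.h ω i : ℝ) - i|) =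
    X.E (fun ω => |(X.h ω (n - 1 - i) : ℝ) - ((n - 1 - i : ℕ) : ℝ)|) := by
  apply X.E_congr
  intro ω
  have h1 := X.hlt ω (n - 1 - i) (by omega)
  change |((n - 1 - X.h ω (n - 1 - i) : ℕ) : ℝ) - i| = _
  rw [Nat.cast_sub (show X.h ω (n - 1 - i) ≤ n - 1 by omega),
    Nat.cast_sub (show i ≤ n - 1 by omega), ← abs_neg]
  congr 1
  ring

theorem dual_e {i j : ℕ} (hi : i < n) (hj : j < n) :
    X.dual.e i j = X.e (n - 1 - i) (n - 1 - j) := by
  unfold e
  rw [X.dual_p (by omega) (by omega), X.dual_m hi, X.dual_m hj]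
  rw [show n - 1 - max i j = min (n - 1 - i) (n - 1 - j) by omega,
    show n - 1 - min i j = max (n - 1 - i) (n - 1 - j) by omega]
  congr 1
  rw [← abs_neg]
  congr 1
  ring

/-- the hypotheses are self-dual -/
theorem Good.dual {X : RP n} {c C : ℝ} (hX : X.Good c C) : X.dual.Good c C := by
  refine ⟨?_, ?_, ?_, ?_⟩
  · intro i j hij hj
    rw [X.dual_m (show i < n by omega), X.dual_m hj]
    have := hX.mono (n - 1 - j) (n - 1 - i) (by omega) (by omega)
    linarith
  · intro i j hij hj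
    rw [X.dual_m (show i < n by omega), X.dual_m hj, X.dual_neg (by omega) hj,
      X.dual_p (by omega) hj]
    have := hX.a3 (n - 1 - j) (n - 1 - i) (by omega) (by omega)
    convert this using 2
    ring
  · intro i hi
    have h1 : ∑ j ∈ range n, X.dual.e i j = ∑ j ∈ range n, X.e (n - 1 - i) j := by
      apply Finset.sum_bij' (fun j _ => n - 1 - j) (fun j _ => n - 1 - j)
      · intro j hj
        rw [Finset.mem_range] at hj ⊢
        omega
      · intro j hj
        rw [Finset.mem_range] at hj ⊢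
        omega
      · intro j hj
        rw [Finset.mem_range] at hj
        omega
      · intro j hj
        rw [Finset.mem_range] at hj
        omega
      · intro j hj
        rw [Finset.mem_range] at hj
        exact X.dual_e hi hj
    rw [h1]
    exact hX.a4 _ (by omega)
  · intro Q i j hQ hij hj h1 h2
    rw [X.dual_abs (by omega)] at h1
    rw [X.dual_abs hj] at h2
    have h3 := hX.a5 Q (n - 1 - j) (n - 1 - i) hQ (by omega) (by omega) h2 h1
    rw [X.dual_p (by omega) hj]
    have h4 : (((n - 1 - i : ℕ) : ℝ) - ((n - 1 - j : ℕ) : ℝ)) = (j : ℝ) - i := by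
      rw [Nat.cast_sub (show i ≤ n - 1 by omega), Nat.cast_sub (show j ≤ n - 1 by omega)]
      ring
    rw [h4] at h3
    exact h3

end Pool.Agent.Thin.RP
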