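import Pool.Agent.Lib_MP_33fb9b_ks.Basic

set_option autoImplicit false

/-!
# S6: persistence of inversions at scale `Q` (A.4)
-/

namespace Pool.Agent.Thin.RP

open Finset

variable {n : ℕ} (X : RP n)

/-- distinct positive integers: their sum is at least `k (k + 1) / 2` -/
theorem sum_distinct (k : ℕ) : ∀ T : Finset ℕ, T.card = k → (∀ t ∈ T, 1 ≤ t) →
    k * (k + 1) ≤ 2 * ∑ t ∈ T, t := by
  induction k with
  | zero => intro T _ _; simp
  | succ k ih =>
    intro T hT hpos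
    have hne : T.Nonempty := by
      rw [← Finset.card_pos, hT]; exact Nat.succ_pos k
    have hmax := T.max'_mem hne
    have h1 : T ⊆ Icc 1 (T.max' hne) := by
      intro t ht
      rw [mem_Icc]
      exact ⟨hpos t ht, T.le_max' t ht⟩
    have h2 : k + 1 ≤ T.max' hne := by
      have := card_le_card h1
      rw [hT, Nat.card_Icc] at this
      omega
    have h3 := ih (T.erase (T.max' hne)) (by rw [card_erase_of_mem hmax, hT]; rfl)
      (fun t ht => hpos t (mem_of_mem_erase ht))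
    have h4 := Finset.add_sum_erase T (fun t => t) hmax

    rw [← h4]
    nlinarith [h3, h2]

/-- one telescoping step for the tail of `∑ R⁻⁴` -/
theorem tail_step (R : ℝ) (hR : 1 ≤ R) : 1 / R ^ 4 ≤ 2 / R ^ 3 - 2 / (R + 1) ^ 3 := by
  have h0 : 0 < R := by linarith
  have h1 : 0 < R ^ 3 := by positivity
  have h2 : 0 < (R + 1) ^ 3 := by positivity
  rw [div_sub_div _ _ h1.ne' h2.ne', div_le_div_iff₀ (by positivity) (by positivity)]
  have h3 : (0 : ℝ) ≤ 5 * R ^ 3 + 3 * R ^ 2 - R - 1 := by nlinarith [sq_nonneg R, sq_nonneg (R - 1)]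
  have h4 : (2 * (R + 1) ^ 3 - R ^ 3 * 2) * R ^ 4 - 1 * (R ^ 3 * (R + 1) ^ 3)
      = R ^ 3 * (5 * R ^ 3 + 3 * R ^ 2 - R - 1) := by ring
  nlinarith [mul_nonneg h1.le h3]

/-- the tail of `∑ R⁻⁴` over a finite interval of integers -/
theorem tail_sum (a : ℕ) (ha : 1 ≤ a) (b : ℕ) (hab : a ≤ b) :
    ∑ R ∈ Ico a b, 1 / (R : ℝ) ^ 4 ≤ 2 / (a : ℝ) ^ 3 - 2 / (b : ℝ) ^ 3 := by
  induction b, hab using Nat.le_induction with
  | base => simp
  | succ b hb ih =>
    rw [sum_Ico_succ_top hb]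
    have h1 := tail_step (b : ℝ) (by exact_mod_cast ha.trans hb)
    push_cast
    linarith

/-- the number of inversions of `i` with a set of later items controls the negative parts -/
theorem card_sq_le (ω : X.Om) {i : ℕ} (S : Finset ℕ) (hS : ∀ j ∈ S, i < j ∧ j < n) :
    ((S.filter (fun j => X.h ω j < X.h ω i)).card : ℝ) ^ 2 / 2
      ≤ ∑ j ∈ S, max ((X.h ω i : ℝ) - X.h ω j) 0 := by
  set T := S.filter (fun j => X.h ω j < X.h ω i) with hT
  have hinj : Set.InjOn (fun j => X.h ω i - X.h ω j) (T : Set ℕ) := by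
    intro a ha b hb hab
    have ha' := mem_filter.mp (mem_coe.mp ha)
    have hb' := mem_filter.mp (mem_coe.mp hb)
    simp only at hab
    have h1 : X.h ω a = X.h ω b := by omega
    exact X.hinj ω a b (hS a ha'.1).2 (hS b hb'.1).2 h1
  have h1 := sum_distinct T.card (T.image (fun j => X.h ω i - X.h ω j))
    (card_image_of_injOn hinj) (by
      intro t ht
      rw [mem_image] at ht
      obtain ⟨j, hj, rfl⟩ := ht
      have := (mem_filter.mp hj).2
      omega)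
  rw [sum_image hinj] at h1
  have h2 : ((T.card : ℝ)) * ((T.card : ℝ) + 1)
      ≤ 2 * ∑ j ∈ T, ((X.h ω i - X.h ω j : ℕ) : ℝ) := by exact_mod_cast h1
  have h3 : ∑ j ∈ T, ((X.h ω i - X.h ω j : ℕ) : ℝ)
      ≤ ∑ j ∈ S, max ((X.h ω i : ℝ) - X.h ω j) 0 := by
    calc ∑ j ∈ T, ((X.h ω i - X.h ω j : ℕ) : ℝ)
        = ∑ j ∈ T, max ((X.h ω i : ℝ) - X.h ω j) 0 := by
          apply sum_congr rfl
          intro j hj
          have hlt := (mem_filter.mp hj).2
          rw [Nat.cast_sub hlt.le, max_eq_left]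
          have : (X.h ω j : ℝ) ≤ X.h ω i := by exact_mod_cast hlt.le
          linarith
      _ ≤ ∑ j ∈ S, max ((X.h ω i : ℝ) - X.h ω j) 0 :=
          sum_le_sum_of_subset_of_nonneg (filter_subset _ _) fun j _ _ => le_max_right _ _
  nlinarith [Nat.cast_nonneg (α := ℝ) T.card]

/-- (A.4) -/
theorem persist {c C : ℝ} (hX : X.Good c C) {Q τ A : ℝ} (hQ : 1 ≤ Q) (hτ : 0 < τ) (hA : 1 ≤ A)
    (hAC : 4 * C ≤ τ * A ^ 3) (hC : 0 ≤ C) (hq : ∀ k, k < n → X.q k ≤ Q) {i : ℕ} (hi : i < n)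
    (hqi : τ * Q ≤ X.qp i) :
    ∃ j, i < j ∧ j < n ∧ (j : ℝ) - i ≤ A * Q ∧ τ ^ 2 / (8 * A) * Q ≤ X.neg i j := by
  classical
  have hQ0 : 0 < Q := by linarith
  have hA0 : 0 < A := by linarith
  have hAQ1 : 1 ≤ A * Q := by nlinarith
  have hAQ : 0 < A * Q := by linarith
  set S := (Ico (i + 1) n).filter (fun j : ℕ => (j : ℝ) - i ≤ A * Q) with hSdef
  have hSm : ∀ j ∈ S, i < j ∧ j < n := by
    intro j hj
    have := mem_Ico.mp (mem_filter.mp hj).1
    omega
  -- the far part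
  set F := (Ico (i + 1) n).filter (fun j : ℕ => ¬ ((j : ℝ) - i ≤ A * Q)) with hFdef
  have hsplit : X.qp i = ∑ j ∈ S, X.p i j + ∑ j ∈ F, X.p i j := by
    unfold qp
    rw [hSdef, hFdef, sum_filter_add_sum_filter_not]
  have hfar : ∑ j ∈ F, X.p i j ≤ τ * Q / 2 := by
    set a := ⌊A * Q⌋₊ + 1 with ha
    have ha1 : A * Q < a := by
      rw [ha]; push_cast; exact Nat.lt_floor_add_one _
    have h1 : ∀ j ∈ F, X.p i j ≤ C * Q ^ 4 * (1 / (((j - i : ℕ) : ℝ)) ^ 4) := by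
      intro j hj
      have hj1 := mem_Ico.mp (mem_filter.mp hj).1
      have hij : i < j := by omega
      have h5 := hX.a5 Q i j hQ hij hj1.2 ((X.E_abs_le hi).trans (hq i hi))
        ((X.E_abs_le hj1.2).trans (hq j hj1.2))
      have h6 : (0 : ℝ) < (j : ℝ) - i := by
        have : (i : ℝ) < j := by exact_mod_cast hij
        linarith
      rw [Nat.cast_sub hij.le, mul_one_div, le_div_iff₀ (by positivity)]
      exact h5
    have h2 : ∑ j ∈ F, X.p i j ≤ ∑ j ∈ F, C * Q ^ 4 * (1 / (((j - i : ℕ) : ℝ)) ^ 4) :=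
      sum_le_sum h1
    have h3 : ∑ j ∈ F, (1 / (((j - i : ℕ) : ℝ)) ^ 4) ≤ ∑ R ∈ Ico a (max a n), 1 / (R : ℝ) ^ 4 := by
      have hinj : Set.InjOn (fun j : ℕ => j - i) (F : Set ℕ) := by
        intro x hx y hy hxy
        have hx' := mem_Ico.mp (mem_filter.mp (mem_coe.mp hx)).1
        have hy' := mem_Ico.mp (mem_filter.mp (mem_coe.mp hy)).1
        simp only at hxy
        omega
      have : ∑ j ∈ F, (1 / (((j - i : ℕ) : ℝ)) ^ 4)
          = ∑ R ∈ F.image (fun j : ℕ => j - i), 1 / (R : ℝ) ^ 4 := by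
        rw [sum_image hinj]
      rw [this]
      apply sum_le_sum_of_subset_of_nonneg
      · intro R hR
        rw [mem_image] at hR
        obtain ⟨j, hj, rfl⟩ := hR
        have hj1 := mem_filter.mp hj
        have hj2 := mem_Ico.mp hj1.1
        have hij : i < j := by omega
        have h7 : A * Q < ((j - i : ℕ) : ℝ) := by
          rw [Nat.cast_sub hij.le]
          exact not_le.mp hj1.2
        have h8 : ⌊A * Q⌋₊ < j - i := (Nat.floor_lt hAQ.le).mpr h7
        rw [mem_Ico, lt_max_iff]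
        constructor
        · omega
        · right; omega
      · intro R _ _
        positivity
    have h4 := tail_sum a (by omega) (max a n) (le_max_left _ _)
    have h5 : 2 / (a : ℝ) ^ 3 ≤ 2 / (A * Q) ^ 3 := by
      apply div_le_div_of_nonneg_left (by norm_num) (by positivity)
      exact pow_le_pow_left₀ hAQ.le ha1.le 3
    have h6 : (0 : ℝ) ≤ 2 / ((max a n : ℕ) : ℝ) ^ 3 := by positivity
    have h7 : ∑ j ∈ F, (1 / (((j - i : ℕ) : ℝ)) ^ 4) ≤ 2 / (A * Q) ^ 3 := by linarith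
    have h8 : C * Q ^ 4 * (2 / (A * Q) ^ 3) ≤ τ * Q / 2 := by
      have h9 : C * Q ^ 4 * (2 / (A * Q) ^ 3) = (2 * C * Q) / A ^ 3 := by
        field_simp
      rw [h9, div_le_iff₀ (by positivity)]
      nlinarith
    calc ∑ j ∈ F, X.p i j ≤ ∑ j ∈ F, C * Q ^ 4 * (1 / (((j - i : ℕ) : ℝ)) ^ 4) := h2
      _ = C * Q ^ 4 * ∑ j ∈ F, (1 / (((j - i : ℕ) : ℝ)) ^ 4) := by rw [mul_sum]
      _ ≤ C * Q ^ 4 * (2 / (A * Q) ^ 3) := mul_le_mul_of_nonneg_left h7 (by positivity)
      _ ≤ τ * Q / 2 := h8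
  have hnear : τ * Q / 2 ≤ ∑ j ∈ S, X.p i j := by linarith
  -- the expectation of the square
  have h1 : X.E (fun ω => ((S.filter (fun j => X.h ω j < X.h ω i)).card : ℝ))
      = ∑ j ∈ S, X.p i j := by
    rw [X.E_card S (fun ω j => X.h ω j < X.h ω i)]
    rfl
  have h2 := X.E_sq (fun ω => ((S.filter (fun j => X.h ω j < X.h ω i)).card : ℝ))
  have h3 : X.E (fun ω => ((S.filter (fun j => X.h ω j < X.h ω i)).card : ℝ) ^ 2)
      ≤ 2 * ∑ j ∈ S, X.neg i j := by
    unfold neg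
    rw [← X.E_sum, ← X.E_mul]
    apply X.E_mono
    intro ω
    have := X.card_sq_le ω S hSm
    linarith
  have h4 : (τ * Q / 2) ^ 2 ≤ 2 * ∑ j ∈ S, X.neg i j := by
    have h5 : (τ * Q / 2) ^ 2 ≤ (∑ j ∈ S, X.p i j) ^ 2 :=
      pow_le_pow_left₀ (by positivity) hnear 2
    rw [h1] at h2
    linarith
  -- the number of near items
  have h5 : (S.card : ℝ) ≤ A * Q := by
    have h6 : S ⊆ Ioc i (i + ⌊A * Q⌋₊) := by
      intro j hj
      have hj1 := hSm j hj
      have hj2 := (mem_filter.mp hj).2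
      have h7 : j - i ≤ ⌊A * Q⌋₊ := by
        apply Nat.le_floor
        rw [Nat.cast_sub hj1.1.le]
        exact hj2
      rw [mem_Ioc]
      omega
    have h7 := card_le_card h6
    rw [Nat.card_Ioc, Nat.add_sub_cancel_left] at h7
    exact (by exact_mod_cast h7 : (S.card : ℝ) ≤ (⌊A * Q⌋₊ : ℝ)).trans (Nat.floor_le hAQ.le)
  by_contra hcon
  push Not at hcon
  have h6 : ∀ j ∈ S, X.neg i j < τ ^ 2 / (8 * A) * Q := by
    intro j hj
    exact hcon j (hSm j hj).1 (hSm j hj).2 (mem_filter.mp hj).2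
  have hne : S.Nonempty := by
    by_contra hne
    rw [not_nonempty_iff_eq_empty] at hne
    rw [hne, sum_empty] at h4
    have : 0 < (τ * Q / 2) ^ 2 := by positivity
    linarith
  have h7 : ∑ j ∈ S, X.neg i j < ∑ _j ∈ S, τ ^ 2 / (8 * A) * Q := sum_lt_sum_of_nonempty hne h6
  rw [sum_const, nsmul_eq_mul] at h7
  have h8 : (S.card : ℝ) * (τ ^ 2 / (8 * A) * Q) ≤ (A * Q) * (τ ^ 2 / (8 * A) * Q) :=
    mul_le_mul_of_nonneg_right h5 (by positivity)
  have h9 : (A * Q) * (τ ^ 2 / (8 * A) * Q) = τ ^ 2 * Q ^ 2 / 8 := by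
    field_simp
  have h10 : (τ * Q / 2) ^ 2 = τ ^ 2 * Q ^ 2 / 4 := by ring
  linarith

end Pool.Agent.Thin.RP
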