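import Mathlib
import Pool.Agent.Lib_MP_33fb9b_bft.Cont
import Pool.Agent.Lib_MP_33fb9b_bft.SpaceC

set_option autoImplicit false

/-!
# S11a: Chebyshev's inequality for sums of independent exponential variables
-/

namespace Pool.Agent.Thin

open Pool.Agent.BFT MeasureTheory ProbabilityTheory

private theorem GamVar_dens (x : ℝ) :
    (ENNReal.ofReal (if 0 < x then Real.exp (-x) else 0)).toReal * x ^ 2 =
      (Set.Ioi (0:ℝ)).indicator (fun x => Real.exp (-x) * x ^ ((3:ℝ) - 1)) x := by
  by_cases h : 0 < x
  · rw [if_pos h, ENNReal.toReal_ofReal (Real.exp_pos _).le, Set.indicator_of_mem (Set.mem_Ioi.mpr h)]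
    norm_num
  · rw [if_neg h, Set.indicator_of_notMem (by simpa using h)]
    simp

theorem expo_sq : Integrable (fun x : ℝ => x ^ 2) expo ∧ ∫ x, x ^ 2 ∂expo = 2 := by
  have hlt : ∀ᵐ x ∂(volume : Measure ℝ),
      ENNReal.ofReal (if 0 < x then Real.exp (-x) else 0) < ⊤ :=
    Filter.Eventually.of_forall fun x => ENNReal.ofReal_lt_top
  constructor
  · unfold expo
    rw [integrable_withDensity_iff expo_meas hlt]
    have h1 : (fun x : ℝ => x ^ 2 * (ENNReal.ofReal (if 0 < x then Real.exp (-x) else 0)).toReal) =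
        (Set.Ioi (0:ℝ)).indicator (fun x => Real.exp (-x) * x ^ ((3:ℝ) - 1)) := by
      funext x
      rw [mul_comm]
      exact GamVar_dens x
    rw [h1, integrable_indicator_iff measurableSet_Ioi]
    exact Real.GammaIntegral_convergent (by norm_num)
  · unfold expo
    rw [integral_withDensity_eq_integral_toReal_smul expo_meas hlt]
    simp_rw [smul_eq_mul, GamVar_dens]
    rw [integral_indicator measurableSet_Ioi, ← Real.Gamma_eq_integral (by norm_num)]
    have h := Real.Gamma_nat_eq_factorial 2
    have h3 : ((2 : ℕ) : ℝ) + 1 = 3 := by norm_num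
    rw [h3] at h
    rw [h]
    norm_num [Nat.factorial]

theorem expo_memLp : MemLp (fun x : ℝ => x) 2 expo :=
  (memLp_two_iff_integrable_sq measurable_id.aestronglyMeasurable).mpr expo_sq.1

theorem expo_var : Var[fun x : ℝ => x; expo] = 1 := by
  rw [variance_eq_sub expo_memLp]
  have h1 : ∫ x, ((fun x : ℝ => x) ^ 2) x ∂expo = 2 := expo_sq.2
  rw [h1, expo_mean.2]
  norm_num

/-- Chebyshev -/
theorem gam_cheb (n : ℕ) (J : Finset (Fin n)) (x : ℝ) (hx : 0 < x) :
    (gam n).real {y | x ≤ |∑ j ∈ J, y j - (J.card : ℝ)|} ≤ (J.card : ℝ) / x ^ 2 := by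
  classical
  let X : (i : Fin n) → ℝ → ℝ := fun i => if i ∈ J then (fun x => x) else (fun _ => 0)
  have hX : ∀ i, MemLp (X i) 2 expo := by
    intro i
    by_cases hi : i ∈ J
    · simp only [X, if_pos hi]; exact expo_memLp
    · simp only [X, if_neg hi]; exact memLp_const 0
  have hV : ∀ i, Var[X i; expo] = if i ∈ J then 1 else 0 := by
    intro i
    by_cases hi : i ∈ J
    · simp only [X, if_pos hi]; exact expo_var
    · simp only [X, if_neg hi]
      exact variance_zero (μ := expo)
  have hS : (∑ i, fun ω : Fin n → ℝ => X i (ω i)) = fun y => ∑ j ∈ J, y j := by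
    funext y
    rw [Finset.sum_apply, ← Finset.sum_filter_add_sum_filter_not Finset.univ (fun i => i ∈ J)]
    have h1 : ∑ i ∈ Finset.univ.filter (fun i => ¬ i ∈ J), X i (y i) = 0 := by
      apply Finset.sum_eq_zero
      intro i hi
      have : i ∉ J := by simpa using hi
      simp only [X, if_neg this]
    rw [h1, add_zero]
    have h2 : Finset.univ.filter (fun i => i ∈ J) = J := by ext; simp
    rw [h2]
    apply Finset.sum_congr rfl
    intro i hi
    simp only [X, if_pos hi]
  have hvar : Var[fun y : Fin n → ℝ => ∑ j ∈ J, y j; gam n] = (J.card : ℝ) := by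
    have h := variance_sum_pi (μ := fun _ : Fin n => expo) hX
    rw [hS] at h
    unfold gam
    rw [h]
    simp_rw [hV]
    simp
  have hmem : MemLp (fun y : Fin n → ℝ => ∑ j ∈ J, y j) 2 (gam n) := by
    apply memLp_finsetSum
    intro j _
    exact expo_memLp.comp_measurePreserving (measurePreserving_eval (fun _ : Fin n => expo) j)
  have h := meas_ge_le_variance_div_sq hmem hx
  rw [(gam_mean n J).2, hvar] at h
  have h0 : 0 ≤ (J.card : ℝ) / x ^ 2 := by positivity
  unfold Measure.real
  exact ENNReal.toReal_le_of_le_ofReal h0 h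

end Pool.Agent.Thin
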