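import Pool.Agent.Lib_MP_33fb9b_bft.MCons
import Pool.Agent.Lib_MP_33fb9b_bft.IneqI
import Pool.Agent.Lib_MP_33fb9b_bft.IneqII
import Pool.Agent.Lib_MP_33fb9b_ks.GamVar

set_option autoImplicit false

/-!
# S11: the tail of the probability of an inversion
-/

namespace Pool.Agent.Thin

open Pool.Agent.BFT MeasureTheory

section

variable {P : Type} [Fintype P] [PartialOrder P]

theorem tail_low_pt (σ : BFT.LE P) (u v : P) (r : ℝ) (hr : 1 ≤ r) :
    (gam (Fintype.card P)).real {y | Xv σ y v - Xv σ y u < 9 / 10 * r} ≤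
      |(pos σ v : ℝ) - pos σ u - r| * (20 / r) + |(pos σ v : ℝ) - pos σ u| * (400 / r ^ 2) := by
  have hr0 : 0 < r := by linarith
  have h2 : 0 ≤ |(pos σ v : ℝ) - pos σ u| * (400 / r ^ 2) := by positivity
  have h1 : 0 ≤ |(pos σ v : ℝ) - pos σ u - r| * (20 / r) := by positivity
  by_cases hD : (pos σ v : ℝ) - pos σ u ≤ 19 / 20 * r
  · have h3 : r / 20 ≤ |(pos σ v : ℝ) - pos σ u - r| := by
      rw [abs_of_nonpos (by linarith)]; linarith
    have h4 : r / 20 * (20 / r) ≤ |(pos σ v : ℝ) - pos σ u - r| * (20 / r) :=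
      mul_le_mul_of_nonneg_right h3 (by positivity)
    have h5 : r / 20 * (20 / r) = 1 := by field_simp
    have h6 : (gam (Fintype.card P)).real {y | Xv σ y v - Xv σ y u < 9 / 10 * r} ≤ 1 :=
      measureReal_le_one
    linarith
  · rw [not_le] at hD
    have hpos : pos σ u ≤ pos σ v := by
      have : (pos σ u : ℝ) ≤ pos σ v := by linarith
      exact_mod_cast this
    have hc := Xv_card σ u v
    have hcr : ((Finset.Ioc (σ.1 u) (σ.1 v)).card : ℝ) = (pos σ v : ℝ) - pos σ u := by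
      rw [hc, Nat.cast_sub hpos]
    have hsub : {y | Xv σ y v - Xv σ y u < 9 / 10 * r} ⊆
        {y : Fin (Fintype.card P) → ℝ | r / 20 ≤ |∑ j ∈ Finset.Ioc (σ.1 u) (σ.1 v), y j -
          ((Finset.Ioc (σ.1 u) (σ.1 v)).card : ℝ)|} := by
      intro y hy
      have hy' : Xv σ y v - Xv σ y u < 9 / 10 * r := hy
      rw [Xv_diff σ y u v hpos] at hy'
      show r / 20 ≤ _
      rw [hcr, abs_of_nonpos (by linarith)]
      linarith
    have h3 := measureReal_mono (μ := gam (Fintype.card P)) hsub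
    have h4 := gam_cheb (Fintype.card P) (Finset.Ioc (σ.1 u) (σ.1 v)) (r / 20) (by positivity)
    rw [hcr] at h4
    rw [hcr] at h3
    have h5 : ((pos σ v : ℝ) - pos σ u) / (r / 20) ^ 2 =
        |(pos σ v : ℝ) - pos σ u| * (400 / r ^ 2) := by
      rw [abs_of_nonneg (by linarith)]
      field_simp
      norm_num
    rw [h5] at h4
    linarith

theorem tail_high_pt (σ : BFT.LE P) (u v : P) (r : ℝ) (hr : 1 ≤ r) :
    (gam (Fintype.card P)).real {y | ¬ (Xv σ y v - Xv σ y u < 6 / 5 * r)} ≤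
      |(pos σ v : ℝ) - pos σ u - r| * (10 / r) + |(pos σ v : ℝ) - pos σ u| * (100 / r ^ 2) := by
  have hr0 : 0 < r := by linarith
  have h2 : 0 ≤ |(pos σ v : ℝ) - pos σ u| * (100 / r ^ 2) := by positivity
  have h1 : 0 ≤ |(pos σ v : ℝ) - pos σ u - r| * (10 / r) := by positivity
  by_cases hD : 11 / 10 * r ≤ (pos σ v : ℝ) - pos σ u
  · have h3 : r / 10 ≤ |(pos σ v : ℝ) - pos σ u - r| := by
      rw [abs_of_nonneg (by linarith)]; linarith
    have h4 : r / 10 * (10 / r) ≤ |(pos σ v : ℝ) - pos σ u - r| * (10 / r) :=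
      mul_le_mul_of_nonneg_right h3 (by positivity)
    have h5 : r / 10 * (10 / r) = 1 := by field_simp
    have h6 : (gam (Fintype.card P)).real {y | ¬ (Xv σ y v - Xv σ y u < 6 / 5 * r)} ≤ 1 :=
      measureReal_le_one
    linarith
  · rw [not_le] at hD
    by_cases hpos : pos σ u < pos σ v
    · have hc := Xv_card σ u v
      have hcr : ((Finset.Ioc (σ.1 u) (σ.1 v)).card : ℝ) = (pos σ v : ℝ) - pos σ u := by
        rw [hc, Nat.cast_sub hpos.le]
      have hposr : (pos σ u : ℝ) < pos σ v := by exact_mod_cast hpos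
      have hsub : {y | ¬ (Xv σ y v - Xv σ y u < 6 / 5 * r)} ⊆
          {y : Fin (Fintype.card P) → ℝ | r / 10 ≤ |∑ j ∈ Finset.Ioc (σ.1 u) (σ.1 v), y j -
            ((Finset.Ioc (σ.1 u) (σ.1 v)).card : ℝ)|} := by
        intro y hy
        have hy' : ¬ (Xv σ y v - Xv σ y u < 6 / 5 * r) := hy
        rw [Xv_diff σ y u v hpos.le] at hy'
        rw [not_lt] at hy'
        show r / 10 ≤ _
        rw [hcr, abs_of_nonneg (by linarith)]
        linarith
      have h3 := measureReal_mono (μ := gam (Fintype.card P)) hsub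
      have h4 := gam_cheb (Fintype.card P) (Finset.Ioc (σ.1 u) (σ.1 v)) (r / 10) (by positivity)
      rw [hcr] at h4
      rw [hcr] at h3
      have h5 : ((pos σ v : ℝ) - pos σ u) / (r / 10) ^ 2 =
          |(pos σ v : ℝ) - pos σ u| * (100 / r ^ 2) := by
        rw [abs_of_nonneg (by linarith)]
        field_simp
        norm_num
      rw [h5] at h4
      linarith
    · have h3 : (gam (Fintype.card P)).real {y | ¬ (Xv σ y v - Xv σ y u < 6 / 5 * r)} =
          (gam (Fintype.card P)).real ∅ := by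
        apply measureReal_congr
        filter_upwards [Xv_ae σ] with y hy
        apply propext
        constructor
        · intro h4
          have h4' : ¬ (Xv σ y v - Xv σ y u < 6 / 5 * r) := h4
          have h5 : ¬ Xv σ y u < Xv σ y v := fun h => hpos ((hy u v).mp h)
          exact absurd (by linarith : Xv σ y v - Xv σ y u < 6 / 5 * r) h4'
        · intro h4
          exact absurd h4 (Set.notMem_empty y)
      rw [h3, measureReal_empty]
      linarith

theorem tail_abs (u v : P) (r Q : ℝ) (hr : 1 ≤ r) (hQ : 1 ≤ Q)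
    (h : Ex (fun σ : BFT.LE P => |(pos σ v : ℝ) - pos σ u - r|) ≤ 2 * Q) :
    Ex (fun σ : BFT.LE P => |(pos σ v : ℝ) - pos σ u|) ≤ 3 * (Q * r) := by
  have h1 : Ex (fun σ : BFT.LE P => |(pos σ v : ℝ) - pos σ u|) ≤
      Ex (fun σ : BFT.LE P => |(pos σ v : ℝ) - pos σ u - r| + r) := by
    apply Ex_mono
    intro σ
    have := abs_add_le ((pos σ v : ℝ) - pos σ u - r) r
    have h2 : (pos σ v : ℝ) - pos σ u - r + r = (pos σ v : ℝ) - pos σ u := by ring
    rw [h2, abs_of_nonneg (by linarith : (0:ℝ) ≤ r)] at this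
    exact this
  have h2 := Ex_add (P := P) (fun σ => |(pos σ v : ℝ) - pos σ u - r|) (fun _ => r)
  rw [h2, Ex_const] at h1
  nlinarith [mul_nonneg (by linarith : (0:ℝ) ≤ Q - 1) (by linarith : (0:ℝ) ≤ r - 1)]

theorem tail_low (u v : P) (r Q : ℝ) (hr : 1 ≤ r) (hQ : 1 ≤ Q)
    (h : Ex (fun σ : BFT.LE P => |(pos σ v : ℝ) - pos σ u - r|) ≤ 2 * Q) :
    (XL P).real {x | x v - x u < 9 / 10 * r} ≤ 1240 * (Q / r) := by
  have hr0 : 0 < r := by linarith
  have hA : MeasurableSet {x : P → ℝ | x v - x u < 9 / 10 * r} :=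
    measurableSet_lt ((measurable_pi_apply v).sub (measurable_pi_apply u)) measurable_const
  rw [XL_real _ hA]
  have h1 : Ex (fun σ : BFT.LE P => (gam (Fintype.card P)).real
      {y | Xv σ y ∈ {x : P → ℝ | x v - x u < 9 / 10 * r}}) ≤
      Ex (fun σ : BFT.LE P => (20 / r) * |(pos σ v : ℝ) - pos σ u - r| +
        (400 / r ^ 2) * |(pos σ v : ℝ) - pos σ u|) := by
    apply Ex_mono
    intro σ
    have := tail_low_pt σ u v r hr
    rw [mul_comm (20 / r), mul_comm (400 / r ^ 2)]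
    exact this
  have h2 := Ex_add (P := P) (fun σ => (20 / r) * |(pos σ v : ℝ) - pos σ u - r|)
    (fun σ => (400 / r ^ 2) * |(pos σ v : ℝ) - pos σ u|)
  rw [h2, Ex_mul, Ex_mul] at h1
  have h3 := tail_abs u v r Q hr hQ h
  have h4 : (20 / r) * Ex (fun σ : BFT.LE P => |(pos σ v : ℝ) - pos σ u - r|) ≤
      (20 / r) * (2 * Q) := mul_le_mul_of_nonneg_left h (by positivity)
  have h5 : (400 / r ^ 2) * Ex (fun σ : BFT.LE P => |(pos σ v : ℝ) - pos σ u|) ≤
      (400 / r ^ 2) * (3 * (Q * r)) := mul_le_mul_of_nonneg_left h3 (by positivity)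
  have h6 : (20 / r) * (2 * Q) + (400 / r ^ 2) * (3 * (Q * r)) = 1240 * (Q / r) := by
    field_simp
    ring
  linarith

theorem tail_high (u v : P) (r Q : ℝ) (hr : 1 ≤ r) (hQ : 1 ≤ Q)
    (h : Ex (fun σ : BFT.LE P => |(pos σ v : ℝ) - pos σ u - r|) ≤ 2 * Q) :
    1 - 320 * (Q / r) ≤ (XL P).real {x | x v - x u < 6 / 5 * r} := by
  have hr0 : 0 < r := by linarith
  have hA : MeasurableSet {x : P → ℝ | x v - x u < 6 / 5 * r} :=
    measurableSet_lt ((measurable_pi_apply v).sub (measurable_pi_apply u)) measurable_const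
  have hcompl : (XL P).real {x | x v - x u < 6 / 5 * r}ᶜ =
      1 - (XL P).real {x | x v - x u < 6 / 5 * r} := by
    rw [measureReal_compl hA, probReal_univ]
  have hA' := hA.compl
  rw [XL_real _ hA'] at hcompl
  have h1 : Ex (fun σ : BFT.LE P => (gam (Fintype.card P)).real
      {y | Xv σ y ∈ {x : P → ℝ | x v - x u < 6 / 5 * r}ᶜ}) ≤
      Ex (fun σ : BFT.LE P => (10 / r) * |(pos σ v : ℝ) - pos σ u - r| +
        (100 / r ^ 2) * |(pos σ v : ℝ) - pos σ u|) := by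
    apply Ex_mono
    intro σ
    have := tail_high_pt σ u v r hr
    rw [mul_comm (10 / r), mul_comm (100 / r ^ 2)]
    exact this
  have h2 := Ex_add (P := P) (fun σ => (10 / r) * |(pos σ v : ℝ) - pos σ u - r|)
    (fun σ => (100 / r ^ 2) * |(pos σ v : ℝ) - pos σ u|)
  rw [h2, Ex_mul, Ex_mul] at h1
  have h3 := tail_abs u v r Q hr hQ h
  have h4 : (10 / r) * Ex (fun σ : BFT.LE P => |(pos σ v : ℝ) - pos σ u - r|) ≤
      (10 / r) * (2 * Q) := mul_le_mul_of_nonneg_left h (by positivity)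
  have h5 : (100 / r ^ 2) * Ex (fun σ : BFT.LE P => |(pos σ v : ℝ) - pos σ u|) ≤
      (100 / r ^ 2) * (3 * (Q * r)) := mul_le_mul_of_nonneg_left h3 (by positivity)
  have h6 : (10 / r) * (2 * Q) + (100 / r ^ 2) * (3 * (Q * r)) = 320 * (Q / r) := by
    field_simp
    ring
  linarith

/-- log-concave sequences: `F₀ F₄³ ≤ F₃⁴` -/
theorem lc_four (F0 F1 F2 F3 F4 : ℝ) (a0 : 0 < F0) (a1 : 0 < F1) (a2 : 0 < F2) (a3 : 0 < F3)
    (a4 : 0 < F4) (l0 : F0 * F2 ≤ F1 ^ 2) (l1 : F1 * F3 ≤ F2 ^ 2) (l2 : F2 * F4 ≤ F3 ^ 2) :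
    F0 * F4 ^ 3 ≤ F3 ^ 4 := by
  have h1 : F2 / F1 ≤ F1 / F0 := by rw [div_le_div_iff₀ a1 a0]; nlinarith
  have h2 : F3 / F2 ≤ F2 / F1 := by rw [div_le_div_iff₀ a2 a1]; nlinarith
  have h3 : F4 / F3 ≤ F3 / F2 := by rw [div_le_div_iff₀ a3 a2]; nlinarith
  have p3 : 0 < F4 / F3 := by positivity
  have h4 : F4 / F3 ≤ F2 / F1 := h3.trans h2
  have h5 : F4 / F3 ≤ F1 / F0 := h4.trans h1
  have h6 : (F4 / F3) * (F4 / F3) ≤ (F3 / F2) * (F2 / F1) :=
    mul_le_mul h3 h4 p3.le (by positivity)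
  have h7 : (F4 / F3) * (F4 / F3) * (F4 / F3) ≤ (F3 / F2) * (F2 / F1) * (F1 / F0) :=
    mul_le_mul h6 h5 p3.le (by positivity)
  have h8 : (F3 / F2) * (F2 / F1) * (F1 / F0) = F3 / F0 := by field_simp
  have h9 : (F4 / F3) * (F4 / F3) * (F4 / F3) = F4 ^ 3 / F3 ^ 3 := by field_simp
  rw [h8, h9, div_le_div_iff₀ (by positivity) a0] at h7
  nlinarith

theorem tail_pt (u v : P) (r Q : ℝ) (hr : 1 ≤ r) (hQ : 1 ≤ Q)
    (h : Ex (fun σ : BFT.LE P => |(pos σ v : ℝ) - pos σ u - r|) ≤ 2 * Q) :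
    BFT.lt v u * r ^ 4 ≤ 10 ^ 14 * Q ^ 4 := by
  have hr0 : 0 < r := by linarith
  have hQ0 : 0 < Q := by linarith
  rcases lt_or_ge r (640 * Q) with hs | hs
  · have h1 : BFT.lt v u ≤ 1 := lt_le_one v u
    have h2 : r ^ 4 ≤ (640 * Q) ^ 4 := pow_le_pow_left₀ hr0.le hs.le 4
    have h3 : BFT.lt v u * r ^ 4 ≤ 1 * (640 * Q) ^ 4 :=
      mul_le_mul h1 h2 (by positivity) (by norm_num)
    have h4 : (0:ℝ) ≤ Q ^ 4 := by positivity
    nlinarith
  · set F : ℝ → ℝ := fun s => (XL P).real {x | x v - x u < s} with hF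
    have hmono : ∀ s t : ℝ, s ≤ t → F s ≤ F t := by
      intro s t hst
      have hsub : {x : P → ℝ | x v - x u < s} ⊆ {x : P → ℝ | x v - x u < t} := by
        intro x hx
        have hx' : x v - x u < s := hx
        show x v - x u < t
        linarith
      exact measureReal_mono hsub
    have hF0 : F 0 = BFT.lt v u := by
      rw [← XL_lt]
      simp only [hF]
      congr 1
      ext x
      simp
    rcases (lt_nonneg v u).eq_or_lt with hz | hz
    · rw [← hz]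
      have : (0:ℝ) ≤ Q ^ 4 := by positivity
      nlinarith
    · have hlc : ∀ s t : ℝ, 0 ≤ t → F (s - t) * F (s + t) ≤ F s ^ 2 := by
        intro s t ht
        exact F_lc u v s t ht
      have l0 := hlc (3 / 10 * r) (3 / 10 * r) (by positivity)
      have l1 := hlc (6 / 10 * r) (3 / 10 * r) (by positivity)
      have l2 := hlc (9 / 10 * r) (3 / 10 * r) (by positivity)
      have e0 : 3 / 10 * r - 3 / 10 * r = 0 := by ring
      have e1 : 3 / 10 * r + 3 / 10 * r = 6 / 10 * r := by ring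
      have e2 : 6 / 10 * r - 3 / 10 * r = 3 / 10 * r := by ring
      have e3 : 6 / 10 * r + 3 / 10 * r = 9 / 10 * r := by ring
      have e4 : 9 / 10 * r - 3 / 10 * r = 6 / 10 * r := by ring
      have e5 : 9 / 10 * r + 3 / 10 * r = 6 / 5 * r := by ring
      rw [e0, e1] at l0
      rw [e2, e3] at l1
      rw [e4, e5] at l2
      have p0 : 0 < F 0 := by rw [hF0]; exact hz
      have p1 : 0 < F (3 / 10 * r) := lt_of_lt_of_le p0 (hmono _ _ (by positivity))
      have p2 : 0 < F (6 / 10 * r) := lt_of_lt_of_le p0 (hmono _ _ (by positivity))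
      have p3 : 0 < F (9 / 10 * r) := lt_of_lt_of_le p0 (hmono _ _ (by positivity))
      have p4 : 0 < F (6 / 5 * r) := lt_of_lt_of_le p0 (hmono _ _ (by positivity))
      have key := lc_four _ _ _ _ _ p0 p1 p2 p3 p4 l0 l1 l2
      have hlow : F (9 / 10 * r) ≤ 1240 * (Q / r) := tail_low u v r Q hr hQ h
      have hhigh : 1 - 320 * (Q / r) ≤ F (6 / 5 * r) := tail_high u v r Q hr hQ h
      have hQr : Q / r ≤ 1 / 640 := by
        rw [div_le_div_iff₀ hr0 (by norm_num)]; linarith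
      have h4 : 1 / 2 ≤ F (6 / 5 * r) := by linarith
      have h5 : (1 / 2 : ℝ) ^ 3 ≤ F (6 / 5 * r) ^ 3 := pow_le_pow_left₀ (by norm_num) h4 3
      have h6 : F (9 / 10 * r) ^ 4 ≤ (1240 * (Q / r)) ^ 4 := pow_le_pow_left₀ p3.le hlow 4
      have h7 : F 0 * (1 / 8) ≤ (1240 * (Q / r)) ^ 4 := by
        have : F 0 * (1 / 2 : ℝ) ^ 3 ≤ F 0 * F (6 / 5 * r) ^ 3 :=
          mul_le_mul_of_nonneg_left h5 p0.le
        norm_num at this
        linarith
      rw [hF0] at h7
      have h8 : (1240 * (Q / r)) ^ 4 * r ^ 4 = 1240 ^ 4 * Q ^ 4 := by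
        field_simp
      have h9 : BFT.lt v u * (1 / 8) * r ^ 4 ≤ 1240 ^ 4 * Q ^ 4 := by
        rw [← h8]
        exact mul_le_mul_of_nonneg_right h7 (by positivity)
      have h10 : (0:ℝ) ≤ Q ^ 4 := by positivity
      nlinarith

end

/-- (A5) -/
theorem tail_poset : ∃ C1 : ℝ, 0 < C1 ∧ ∀ (P : Type) [Fintype P] [PartialOrder P] (u v : P)
    (i j : ℕ) (Q : ℝ), 1 ≤ Q → i < j →
    Ex (fun σ : BFT.LE P => |(pos σ u : ℝ) - i|) ≤ Q → Ex (fun σ : BFT.LE P => |(pos σ v : ℝ) - j|) ≤ Q →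
    BFT.lt v u * ((j : ℝ) - i) ^ 4 ≤ C1 * Q ^ 4 := by
  refine ⟨10 ^ 14, by norm_num, ?_⟩
  intro P _ _ u v i j Q hQ hij hu hv
  have hr : (1 : ℝ) ≤ (j : ℝ) - i := by
    have : (i : ℝ) + 1 ≤ j := by exact_mod_cast hij
    linarith
  apply tail_pt u v _ Q hr hQ
  have h1 : Ex (fun σ : BFT.LE P => |(pos σ v : ℝ) - pos σ u - ((j : ℝ) - i)|) ≤
      Ex (fun σ : BFT.LE P => |(pos σ v : ℝ) - j| + |(pos σ u : ℝ) - i|) := by
    apply Ex_mono
    intro σ
    have e : (pos σ v : ℝ) - pos σ u - ((j : ℝ) - i) =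
        ((pos σ v : ℝ) - j) - ((pos σ u : ℝ) - i) := by ring
    rw [e]
    exact abs_sub _ _
  rw [Ex_add] at h1
  linarith

end Pool.Agent.Thin
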