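import Pool.Agent.Lib_MP_33fb9b_ks.InstDef
import Pool.Agent.Lib_MP_33fb9b_ks.TailP
import Pool.Agent.Lib_MP_33fb9b_bft.SwA

set_option autoImplicit false

/-!
# S10: a poset with balance constant `≤ d < 1/e` gives a good random permutation
-/

namespace Pool.Agent.Thin

open Pool.Agent.BFT Pool.Agent.Gap

section

variable {P : Type} [Fintype P] [PartialOrder P]

/-- the balance constant bounds the smaller probability of every pair -/
theorem inst_min_le (u v : P) : min (BFT.lt u v) (BFT.lt v u) ≤ balance P := by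
  rw [← prob_eq_lt, ← prob_eq_lt]
  unfold balance
  exact le_ciSup (f := fun q : P × P => min (prob P q.1 q.2) (prob P q.2 q.1))
    (Set.finite_range _).bddAbove (u, v)

/-- the basic inequality for an incomparable pair in majority order -/
theorem inst_core {c al0 : ℝ} (hal0 : 0 < al0) (hc : c ≤ Real.log (1 / al0) - 1) (u v : P)
    (h1 : ¬ u ≤ v) (h2 : ¬ v ≤ u) (hal : BFT.lt v u ≤ al0) :
    c * BFT.lt v u ≤ nxt v u 1 * (ht v - ht u) ∧ 0 < nxt v u 1 ∧ 0 < BFT.lt v u ∧
      nxt v u 1 * dd u v ≤ (BFT.lt v u) ^ 2 := by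
  have huv : u ≠ v := fun h => h1 h.le
  have hsw : nxt u v 1 = nxt v u 1 := adj_swap u v h1 h2
  have ht : 0 < nxt v u 1 := adj_pos v u h2 h1
  have hlt : 0 < BFT.lt v u := by
    refine lt_of_lt_of_le ht (Pr_mono fun σ hσ => by omega)
  have hi := ineq_i u v huv
  have hii := ineq_ii u v huv hlt
  rw [hsw] at hii
  refine ⟨?_, ht, hlt, hi⟩
  have hd := dd_sub u v
  have hlog : Real.log (1 / al0) ≤ Real.log (1 / BFT.lt v u) := by
    apply Real.log_le_log (by positivity)
    exact one_div_le_one_div_of_le hlt hal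
  have h3 : c * BFT.lt v u ≤ BFT.lt v u * (Real.log (1 / BFT.lt v u) - 1) := by
    rw [mul_comm]
    exact mul_le_mul_of_nonneg_left (by linarith) hlt.le
  rw [← hd]
  nlinarith [h3, hi, hii]

theorem inst_ht_lt {u v : P} (h : u < v) : ht u < ht v := by
  have h1 : ht v - ht u = Ex (fun σ : BFT.LE P => (pos σ v : ℝ) - pos σ u) := by
    unfold ht
    rw [← Ex_sub]
  have h2 : (1 : ℝ) ≤ Ex (fun σ : BFT.LE P => (pos σ v : ℝ) - pos σ u) := by
    rw [← Ex_const (P := P) 1]
    apply Ex_mono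
    intro σ
    have := pos_lt_of_lt σ h
    have h3 : (pos σ u : ℝ) + 1 ≤ pos σ v := by exact_mod_cast this
    linarith
  linarith

theorem inst_dd_zero {u v : P} (h : u < v) : dd u v = 0 := by
  unfold dd
  rw [Ex_congr (g := fun _ => 0), Ex_const]
  intro σ
  have := pos_lt_of_lt σ h
  apply max_eq_right
  have h3 : (pos σ u : ℝ) ≤ pos σ v := by exact_mod_cast this.le
  linarith

/-- at most one element is immediately before `u` -/
theorem inst_pred_sum {ι : Type} (s : Finset ι) (f : ι → P) (hf : ∀ i ∈ s, ∀ j ∈ s, f i = f j → i = j)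
    (u : P) : ∑ i ∈ s, nxt (f i) u 1 ≤ 1 := by
  classical
  unfold nxt BFT.Pr
  rw [← Ex_sum]
  rw [← Ex_const (P := P) 1]
  apply Ex_mono
  intro σ
  by_cases h : ∃ i ∈ s, pos σ u = pos σ (f i) + 1
  · obtain ⟨i, hi, hiu⟩ := h
    rw [Finset.sum_eq_single_of_mem i hi]
    · exact BFT.ind_le_one _
    · intro j hj hji
      apply BFT.ind_false
      intro hc
      apply hji
      apply hf j hj i hi
      apply pos_inj (σ := σ)
      omega
  · rw [Finset.sum_eq_zero]
    · norm_num
    · intro j hj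
      apply BFT.ind_false
      intro hc
      exact h ⟨j, hj, hc⟩

/-- the facts about a pair in the order of the mean positions -/
theorem inst_pair {c d' : ℝ} (hd' : 0 < d') (hc0 : 0 < c) (hc : c ≤ Real.log (1 / d') - 1)
    (hb : balance P ≤ d') (u v : P) (huv : u ≠ v) :
    (ht u < ht v → c * dd u v ≤ BFT.lt v u * (ht v - ht u) ∧
      c * BFT.lt v u ≤ nxt v u 1 * (ht v - ht u) ∧
      c * BFT.lt v u ≤ nxt u v 1 * (ht v - ht u)) ∧ ht u ≠ ht v := by
  by_cases h1 : u ≤ v
  · have h : u < v := lt_of_le_of_ne h1 huv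
    have h2 := inst_ht_lt h
    refine ⟨fun _ => ?_, h2.ne⟩
    rw [inst_dd_zero h, lt_of_gt h]
    have h3 : (0 : ℝ) ≤ nxt v u 1 := Pr_nonneg _
    have h4 : (0 : ℝ) ≤ nxt u v 1 := Pr_nonneg _
    have h5 : 0 ≤ ht v - ht u := by linarith
    refine ⟨by simp, by simpa using mul_nonneg h3 h5, by simpa using mul_nonneg h4 h5⟩
  by_cases h2 : v ≤ u
  · have h : v < u := lt_of_le_of_ne h2 (Ne.symm huv)
    have h3 := inst_ht_lt h
    exact ⟨fun h4 => absurd h4 (not_lt.mpr h3.le), h3.ne'⟩
  have hmin := (inst_min_le u v).trans hb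
  have key : ∀ a b : P, ¬ a ≤ b → ¬ b ≤ a → BFT.lt b a ≤ d' → ht a < ht b ∧
      c * dd a b ≤ BFT.lt b a * (ht b - ht a) ∧
      c * BFT.lt b a ≤ nxt b a 1 * (ht b - ht a) ∧
      c * BFT.lt b a ≤ nxt a b 1 * (ht b - ht a) := by
    intro a b hab hba hlt
    obtain ⟨g1, g2, g3, g4⟩ := inst_core hd' hc a b hab hba hlt
    have g5 : 0 < nxt b a 1 * (ht b - ht a) := lt_of_lt_of_le (mul_pos hc0 g3) g1
    have g6 : 0 < ht b - ht a := by
      by_contra hcon
      push Not at hcon
      nlinarith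
    refine ⟨by linarith, ?_, g1, ?_⟩
    · have g7 : nxt b a 1 * (c * dd a b) ≤ nxt b a 1 * (BFT.lt b a * (ht b - ht a)) := by
        nlinarith [mul_le_mul_of_nonneg_left g4 hc0.le, mul_le_mul_of_nonneg_left g1 g3.le]
      exact le_of_mul_le_mul_left g7 g2
    · rw [adj_swap a b hab hba]
      exact g1
  rcases min_le_iff.mp hmin with h | h
  · have := key v u h2 h1 h
    exact ⟨fun h4 => absurd h4 (not_lt.mpr this.1.le), this.1.ne'⟩
  · have := key u v h1 h2 h
    exact ⟨fun _ => this.2, this.1.ne⟩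

/-- sorting by the mean position -/
theorem inst_sort (f : P → ℝ) (hf : Function.Injective f) :
    ∃ w : Fin (Fintype.card P) ≃ P, StrictMono (fun i => f (w i)) := by
  classical
  let s : Finset ℝ := Finset.univ.image f
  have hs : s.card = Fintype.card P := by
    rw [Finset.card_image_of_injective _ hf, Finset.card_univ]
  let E' : P ≃ s := Equiv.ofBijective (fun x => ⟨f x, Finset.mem_image_of_mem f (Finset.mem_univ x)⟩)
    ⟨fun x y h => hf (by simpa using h), fun y => by
      obtain ⟨x, _, hx⟩ := Finset.mem_image.mp y.2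
      exact ⟨x, Subtype.ext hx⟩⟩
  refine ⟨(s.orderIsoOfFin hs).toEquiv.trans E'.symm, ?_⟩
  intro i j hij
  have h1 : ∀ k, f (E'.symm (s.orderIsoOfFin hs k)) = (s.orderIsoOfFin hs k : ℝ) := by
    intro k
    have := E'.apply_symm_apply (s.orderIsoOfFin hs k)
    exact congrArg Subtype.val this
  show f (E'.symm (s.orderIsoOfFin hs i)) < f (E'.symm (s.orderIsoOfFin hs j))
  rw [h1, h1]
  exact (s.orderIsoOfFin hs).strictMono hij

variable (w : Fin (Fintype.card P) ≃ P)

theorem inst_h (σ : BFT.LE P) {i : ℕ} (hi : i < Fintype.card P) :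
    (rpOf P w).h σ i = pos σ (w ⟨i, hi⟩) := dif_pos hi

theorem inst_E (f : BFT.LE P → ℝ) : (rpOf P w).E f = Ex f := rfl

theorem inst_m {i : ℕ} (hi : i < Fintype.card P) : (rpOf P w).m i = ht (w ⟨i, hi⟩) := by
  show Ex _ = Ex _
  apply Ex_congr
  intro σ
  rw [inst_h w σ hi]

theorem inst_p {i j : ℕ} (hi : i < Fintype.card P) (hj : j < Fintype.card P) :
    (rpOf P w).p i j = BFT.lt (w ⟨j, hj⟩) (w ⟨i, hi⟩) := by
  have h : (rpOf P w).p i j = BFT.Pr (fun σ : BFT.LE P => (rpOf P w).h σ j < (rpOf P w).h σ i) := rfl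
  rw [h]
  apply Pr_congr
  intro σ
  rw [inst_h w σ hi, inst_h w σ hj]

theorem inst_neg {i j : ℕ} (hi : i < Fintype.card P) (hj : j < Fintype.card P) :
    (rpOf P w).neg i j = dd (w ⟨i, hi⟩) (w ⟨j, hj⟩) := by
  show Ex _ = Ex _
  apply Ex_congr
  intro σ
  rw [inst_h w σ hi, inst_h w σ hj]

end

/-- S10 -/
theorem exists_good (d : ℝ) (hd : d < Real.exp (-1)) : ∃ c C : ℝ, 0 < c ∧ c ≤ 1 ∧ 0 ≤ C ∧
    ∀ (P : Type) [Fintype P] [PartialOrder P], balance P ≤ d →
      ∃ w : Fin (Fintype.card P) ≃ P, StrictMono (fun i => ht (w i)) ∧ (rpOf P w).Good c C := by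
  obtain ⟨C1, hC1, htail⟩ := tail_poset
  have h4 : (1 / 4 : ℝ) < Real.exp (-1) := by
    rw [Real.exp_neg, ← one_div]
    have := Real.exp_one_lt_d9
    apply one_div_lt_one_div_of_lt (Real.exp_pos 1)
    linarith
  set d' : ℝ := max d (1 / 4) with hd'
  have hd'1 : d' < Real.exp (-1) := max_lt hd h4
  have hd'0 : 0 < d' := lt_of_lt_of_le (by norm_num) (le_max_right d (1 / 4))
  have hlog : 1 < Real.log (1 / d') := by
    rw [Real.lt_log_iff_exp_lt (by positivity), lt_div_iff₀ hd'0]
    have : Real.exp 1 * Real.exp (-1) = 1 := by rw [← Real.exp_add]; simp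
    nlinarith [Real.exp_pos 1]
  refine ⟨min 1 (Real.log (1 / d') - 1), C1, lt_min one_pos (by linarith), min_le_left _ _, hC1.le, ?_⟩
  intro P _ _ hP
  set c := min 1 (Real.log (1 / d') - 1) with hc
  have hc0 : 0 < c := lt_min one_pos (by linarith)
  have hc1 : c ≤ Real.log (1 / d') - 1 := min_le_right _ _
  have hb : balance P ≤ d' := hP.trans (le_max_left _ _)
  have hinj : Function.Injective (ht : P → ℝ) := by
    intro u v huv
    by_contra hne
    exact (inst_pair hd'0 hc0 hc1 hb u v hne).2 huv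
  obtain ⟨w, hw⟩ := inst_sort (ht : P → ℝ) hinj
  refine ⟨w, hw, ?_⟩
  have hpair : ∀ i j : ℕ, ∀ hij : i < j, ∀ hj : j < Fintype.card P,
      ht (w ⟨i, hij.trans hj⟩) < ht (w ⟨j, hj⟩) := by
    intro i j hij hj
    exact hw (show (⟨i, hij.trans hj⟩ : Fin _) < ⟨j, hj⟩ from hij)
  have hne : ∀ i j : ℕ, ∀ hij : i < j, ∀ hj : j < Fintype.card P,
      w ⟨i, hij.trans hj⟩ ≠ w ⟨j, hj⟩ := by
    intro i j hij hj h
    have := hpair i j hij hj
    rw [h] at this
    exact lt_irrefl _ this
  refine ⟨?_, ?_, ?_, ?_⟩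
  · intro i j hij hj
    rw [inst_m w (hij.trans hj), inst_m w hj]
    exact hpair i j hij hj
  · intro i j hij hj
    have hi := hij.trans hj
    rw [inst_neg w hi hj, inst_p w hi hj, inst_m w hi, inst_m w hj]
    exact ((inst_pair hd'0 hc0 hc1 hb _ _ (hne i j hij hj)).1 (hpair i j hij hj)).1
  · intro i hi
    have hbound : ∀ j ∈ Finset.range (Fintype.card P), (rpOf P w).e i j ≤
        (1 / c) * (if hj : j < Fintype.card P then nxt (w ⟨j, hj⟩) (w ⟨i, hi⟩) 1 else 0) := by
      intro j hj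
      have hj' : j < Fintype.card P := Finset.mem_range.mp hj
      rw [dif_pos hj']
      rcases lt_trichotomy i j with hij | hij | hij
      · unfold RP.e
        rw [min_eq_left hij.le, max_eq_right hij.le, inst_p w hi hj', inst_m w hi, inst_m w hj']
        have h1 := hpair i j hij hj'
        have h2 := ((inst_pair hd'0 hc0 hc1 hb _ _ (hne i j hij hj')).1 h1).2.1
        rw [abs_sub_comm, abs_of_pos (by linarith), div_le_iff₀ (by linarith), one_div,
          mul_assoc, ← div_eq_inv_mul, le_div_iff₀ hc0, mul_comm]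
        exact h2
      · subst hij
        rw [RP.e_self]
        have : (0 : ℝ) ≤ nxt (w ⟨i, hj'⟩) (w ⟨i, hi⟩) 1 := Pr_nonneg _
        positivity
      · unfold RP.e
        rw [min_eq_right hij.le, max_eq_left hij.le, inst_p w hj' hi, inst_m w hi, inst_m w hj']
        have h1 := hpair j i hij hi
        have h2 := ((inst_pair hd'0 hc0 hc1 hb _ _ (hne j i hij hi)).1 h1).2.2
        rw [abs_of_pos (by linarith), div_le_iff₀ (by linarith), one_div,
          mul_assoc, ← div_eq_inv_mul, le_div_iff₀ hc0, mul_comm]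
        exact h2
    refine (Finset.sum_le_sum hbound).trans ?_
    rw [← Finset.mul_sum]
    have h5 : ∑ j ∈ Finset.range (Fintype.card P),
        (if hj : j < Fintype.card P then nxt (w ⟨j, hj⟩) (w ⟨i, hi⟩) 1 else 0) =
        ∑ j : Fin (Fintype.card P), nxt (w j) (w ⟨i, hi⟩) 1 := by
      rw [Finset.sum_range]
      apply Finset.sum_congr rfl
      intro j _
      rw [dif_pos j.2]
    rw [h5]
    have h6 := inst_pred_sum (Finset.univ : Finset (Fin (Fintype.card P))) (fun j => w j)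
      (fun a _ b _ h => w.injective h) (w ⟨i, hi⟩)
    have h7 : 0 < 1 / c := by positivity
    nlinarith
  · intro Q i j hQ hij hj h1 h2
    have hi := hij.trans hj
    rw [inst_p w hi hj]
    refine htail P (w ⟨i, hi⟩) (w ⟨j, hj⟩) i j Q hQ hij ?_ ?_
    · refine le_trans (le_of_eq ?_) h1
      rw [inst_E]
      apply Ex_congr
      intro σ
      rw [inst_h w σ hi]
    · refine le_trans (le_of_eq ?_) h2
      rw [inst_E]
      apply Ex_congr
      intro σ
      rw [inst_h w σ hj]

end Pool.Agent.Thin
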