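import Mathlib

set_option autoImplicit false

/-!
# From the ratio inequality to concavity (abstract form)
-/

namespace KS.Abs

open Finset

/-- below the centre the numbers `Z a` increase -/
theorem step_low (s m a : ℕ) (Z : ℕ → ℕ)
    (hr : (s - a) * (m - a) * Z a ≤ (a + 1) * (s - (m - a) + 1) * Z (a + 1))
    (hsupp : Z a ≠ 0 → a ≤ s ∧ a ≤ m ∧ m ≤ a + s)
    (h : 2 * a + 1 ≤ m) : Z a ≤ Z (a + 1) := by
  by_cases h0 : Z a = 0
  · rw [h0]; exact Nat.zero_le _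
  obtain ⟨h1, h2, h3⟩ := hsupp h0
  obtain ⟨p, rfl⟩ : ∃ p, s = a + p := ⟨s - a, by omega⟩
  obtain ⟨q, rfl⟩ : ∃ q, m = a + q := ⟨m - a, by omega⟩
  obtain ⟨r, hr1⟩ : ∃ r, a + p = q + r := ⟨a + p - q, by omega⟩
  have e1 : a + p - a = p := by omega
  have e2 : a + q - a = q := by omega
  have e3 : a + p - (a + q - a) = r := by omega
  rw [e1, e2] at hr
  have e4 : a + p - q = r := by omega
  rw [e4] at hr
  by_contra hlt
  push Not at hlt
  have hc : (a + 1) * (r + 1) ≤ p * q := by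
    -- `p = q + r - a`, `q ≥ a + 1`
    obtain ⟨w, rfl⟩ : ∃ w, q = a + 1 + w := ⟨q - (a + 1), by omega⟩
    have : p = 1 + w + r := by omega
    subst this
    nlinarith [Nat.zero_le w, Nat.zero_le r, Nat.zero_le a, Nat.zero_le (w * r),
      Nat.zero_le (w * a), Nat.zero_le (w * w)]
  have hpos : 0 < (a + 1) * (r + 1) := by positivity
  have h5 : (a + 1) * (r + 1) * Z (a + 1) < (a + 1) * (r + 1) * Z a :=
    Nat.mul_lt_mul_of_pos_left hlt hpos
  have h6 : (a + 1) * (r + 1) * Z a ≤ p * q * Z a := Nat.mul_le_mul_right _ hc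
  omega

/-- a little above the centre the numbers `Z a` decrease slowly -/
theorem step_mid (s m a J : ℕ) (Z : ℕ → ℕ) (hJ : 0 < J)
    (hr : (s - a) * (m - a) * Z a ≤ (a + 1) * (s - (m - a) + 1) * Z (a + 1))
    (hsupp : Z a ≠ 0 → a ≤ s ∧ a ≤ m ∧ m ≤ a + s)
    (hlow : m ≤ 2 * a + 1) (hup : 2 * a ≤ m + 2 * J)
    (hbig : ((s : ℝ) + 1) * (2 * J + 1) * (2 * J) ≤ (m / 2) * (s - m / 2)) (hms : (m : ℝ) / 2 ≤ s) :
    (1 - 1 / (2 * (J : ℝ))) * Z a ≤ Z (a + 1) := by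
  by_cases h0 : Z a = 0
  · rw [h0]; simp
  obtain ⟨h1, h2, h3⟩ := hsupp h0
  have hr' : ((s : ℝ) - a) * (m - a) * Z a ≤ (a + 1) * (s - (m - a) + 1) * Z (a + 1) := by
    have := (Nat.cast_le (α := ℝ)).2 hr
    push_cast [Nat.cast_sub h1, Nat.cast_sub h2, Nat.cast_sub (show m - a ≤ s by omega)] at this
    exact this
  have hJ' : (0 : ℝ) < J := by exact_mod_cast hJ
  have hlow' : (m : ℝ) ≤ 2 * a + 1 := by exact_mod_cast hlow
  have hup' : 2 * (a : ℝ) ≤ m + 2 * J := by exact_mod_cast hup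
  have h1' : (a : ℝ) ≤ s := by exact_mod_cast h1
  have h2' : (a : ℝ) ≤ m := by exact_mod_cast h2
  have h3' : (m : ℝ) ≤ a + s := by exact_mod_cast h3
  have hs0 : (0 : ℝ) ≤ s := Nat.cast_nonneg _
  have hm0 : (0 : ℝ) ≤ m := Nat.cast_nonneg _
  set A : ℝ := (a : ℝ) with hA
  have hA0 : 0 ≤ A := Nat.cast_nonneg _
  have hc2 : (m : ℝ) / 2 * (s - m / 2) ≤ (A + 1) * (s - (m - A) + 1) := by
    have i1 : (m : ℝ) / 2 ≤ A + 1 := by linarith
    have i2 : (s : ℝ) - m / 2 ≤ s - (m - A) + 1 := by linarith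
    exact mul_le_mul i1 i2 (by linarith) (by linarith)
  have hc2pos : 0 < (A + 1) * (s - (m - A) + 1) := by
    apply mul_pos <;> linarith
  have hz : (0 : ℝ) ≤ Z a := Nat.cast_nonneg _
  have hc1 : (1 - 1 / (2 * (J : ℝ))) * ((A + 1) * (s - (m - A) + 1)) ≤ ((s : ℝ) - A) * (m - A) := by
    have e : ((s : ℝ) - A) * (m - A) = (A + 1) * (s - (m - A) + 1) - (s + 1) * (2 * A + 1 - m) := by
      ring
    rw [e]
    have i3 : (s + 1) * (2 * A + 1 - m) ≤ ((s : ℝ) + 1) * (2 * J + 1) :=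
      mul_le_mul_of_nonneg_left (by linarith) (by linarith)
    have i4 : ((s : ℝ) + 1) * (2 * J + 1) ≤ 1 / (2 * (J : ℝ)) * ((A + 1) * (s - (m - A) + 1)) := by
      have i5 := hbig.trans hc2
      rw [one_div, inv_mul_eq_div, le_div_iff₀ (by positivity)]
      exact i5
    linarith
  have key : (A + 1) * (s - (m - A) + 1) * ((1 - 1 / (2 * (J : ℝ))) * Z a)
      ≤ (A + 1) * (s - (m - A) + 1) * Z (a + 1) := by
    calc (A + 1) * (s - (m - A) + 1) * ((1 - 1 / (2 * (J : ℝ))) * Z a)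
        = ((1 - 1 / (2 * (J : ℝ))) * ((A + 1) * (s - (m - A) + 1))) * Z a := by ring
      _ ≤ (((s : ℝ) - A) * (m - A)) * Z a := mul_le_mul_of_nonneg_right hc1 hz
      _ ≤ _ := hr'
  exact le_of_mul_le_mul_left key hc2pos

/-- up to the centre -/
theorem low_mono (s m : ℕ) (Z : ℕ → ℕ)
    (hr : ∀ a, (s - a) * (m - a) * Z a ≤ (a + 1) * (s - (m - a) + 1) * Z (a + 1))
    (hsupp : ∀ a, Z a ≠ 0 → a ≤ s ∧ a ≤ m ∧ m ≤ a + s)
    (a : ℕ) : ∀ n, a + n ≤ m / 2 → Z a ≤ Z (a + n) := by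
  intro n
  induction n with
  | zero => intro _; exact le_rfl
  | succ n ih =>
    intro h
    exact (ih (by omega)).trans (step_low s m (a + n) Z (hr _) (hsupp _) (by omega))

/-- beyond the centre -/
theorem mid_mono (s m J : ℕ) (Z : ℕ → ℕ) (hJ : 0 < J)
    (hr : ∀ a, (s - a) * (m - a) * Z a ≤ (a + 1) * (s - (m - a) + 1) * Z (a + 1))
    (hsupp : ∀ a, Z a ≠ 0 → a ≤ s ∧ a ≤ m ∧ m ≤ a + s)
    (hbig : ((s : ℝ) + 1) * (2 * J + 1) * (2 * J) ≤ (m / 2) * (s - m / 2)) (hms : (m : ℝ) / 2 ≤ s)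
    (a : ℕ) (ha : m / 2 ≤ a) : ∀ n, a + n ≤ m / 2 + J →
      (1 - 1 / (2 * (J : ℝ))) ^ n * Z a ≤ Z (a + n) := by
  have hJ' : (1 : ℝ) ≤ J := by exact_mod_cast hJ
  have hq : (0 : ℝ) ≤ 1 - 1 / (2 * (J : ℝ)) := by
    rw [sub_nonneg, div_le_one (by linarith)]
    linarith
  intro n
  induction n with
  | zero => intro _; simp
  | succ n ih =>
    intro h
    have h1 := ih (by omega)
    have h2 := step_mid s m (a + n) J Z hJ (hr _) (hsupp _) (by omega) (by omega) hbig hms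
    rw [pow_succ]
    calc (1 - 1 / (2 * (J : ℝ))) ^ n * (1 - 1 / (2 * (J : ℝ))) * Z a
        = (1 - 1 / (2 * (J : ℝ))) * ((1 - 1 / (2 * (J : ℝ))) ^ n * Z a) := by ring
      _ ≤ (1 - 1 / (2 * (J : ℝ))) * Z (a + n) := mul_le_mul_of_nonneg_left h1 hq
      _ ≤ _ := h2

/-- comparison: `Z a ≤ 2 Z a'` for `a ≤ a' ≤ m/2 + J` -/
theorem compare (s m J : ℕ) (Z : ℕ → ℕ) (hJ : 0 < J)
    (hr : ∀ a, (s - a) * (m - a) * Z a ≤ (a + 1) * (s - (m - a) + 1) * Z (a + 1))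
    (hsupp : ∀ a, Z a ≠ 0 → a ≤ s ∧ a ≤ m ∧ m ≤ a + s)
    (hbig : ((s : ℝ) + 1) * (2 * J + 1) * (2 * J) ≤ (m / 2) * (s - m / 2)) (hms : (m : ℝ) / 2 ≤ s)
    (a b : ℕ) (hab : a ≤ b) (hb : b ≤ m / 2 + J) : Z a ≤ 2 * Z b := by
  have hJ' : (1 : ℝ) ≤ J := by exact_mod_cast hJ
  -- the part beyond the centre
  have main : ∀ c, m / 2 ≤ c → c ≤ b → (Z c : ℝ) ≤ 2 * Z b := by
    intro c hc hcb
    obtain ⟨n, rfl⟩ := Nat.exists_eq_add_of_le hcb
    have h1 := mid_mono s m J Z hJ hr hsupp hbig hms c hc n hb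
    have hn : (n : ℝ) ≤ J := by
      have : n ≤ J := by omega
      exact_mod_cast this
    have hx : (-2 : ℝ) ≤ -(1 / (2 * (J : ℝ))) := by
      have : 1 / (2 * (J : ℝ)) ≤ 1 := by
        rw [div_le_one (by linarith)]; linarith
      linarith
    have h2 := one_add_mul_le_pow hx n
    have h3 : (1 : ℝ) / 2 ≤ 1 + n * (-(1 / (2 * (J : ℝ)))) := by
      have : (n : ℝ) * (1 / (2 * (J : ℝ))) ≤ 1 / 2 := by
        rw [mul_one_div, div_le_iff₀ (by linarith)]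
        linarith
      linarith
    have h4 : (1 : ℝ) / 2 ≤ (1 - 1 / (2 * (J : ℝ))) ^ n := by
      have : (1 + -(1 / (2 * (J : ℝ)))) = (1 - 1 / (2 * (J : ℝ))) := by ring
      rw [this] at h2
      linarith
    have h5 : (1 : ℝ) / 2 * Z c ≤ Z (c + n) :=
      (mul_le_mul_of_nonneg_right h4 (Nat.cast_nonneg _)).trans h1
    linarith
  have goal : (Z a : ℝ) ≤ 2 * Z b := by
    by_cases ha : m / 2 ≤ a
    · exact main a ha hab
    · push Not at ha
      by_cases hb2 : m / 2 ≤ b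
      · have h1 : Z a ≤ Z (m / 2) := by
          have := low_mono s m Z hr hsupp a (m / 2 - a) (by omega)
          rwa [show a + (m / 2 - a) = m / 2 by omega] at this
        have h2 := main (m / 2) le_rfl hb2
        have h3 : (Z a : ℝ) ≤ Z (m / 2) := by exact_mod_cast h1
        linarith
      · have h1 : Z a ≤ Z b := by
          have := low_mono s m Z hr hsupp a (b - a) (by omega)
          rwa [show a + (b - a) = b by omega] at this
        have h3 : (Z a : ℝ) ≤ Z b := by exact_mod_cast h1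
        have : (0 : ℝ) ≤ Z b := Nat.cast_nonneg _
        linarith
  exact_mod_cast goal

/-- the arithmetic of the block length -/
theorem big_arith (K C s m m1 m3 : ℕ)
    (hs : 64 * K ^ 2 * (4 * C + 2) * (2 * (4 * C + 2) + 1) + 4 * K * C + 1 ≤ s)
    (_h13 : m1 ≤ m3) (hm : m ≤ m3 - m1 + 2 * C) (hm' : m3 - m1 ≤ m + 2 * C)
    (h1 : s ≤ K * (m3 - m1)) (h2 : K * (m3 - m1) + s ≤ 2 * K * s) :
    ((s : ℝ) + 1) * (2 * ((4 * C + 2 : ℕ) : ℝ) + 1) * (2 * ((4 * C + 2 : ℕ) : ℝ))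
      ≤ ((m : ℝ) / 2) * (s - m / 2) ∧ (m : ℝ) / 2 ≤ s := by
  set J : ℕ := 4 * C + 2 with hJ
  set D : ℕ := m3 - m1 with hD
  have hK : 1 ≤ K := by
    by_contra hK
    have : K = 0 := by omega
    subst this
    omega
  have hsR : 64 * (K : ℝ) ^ 2 * J * (2 * J + 1) + 4 * K * C + 1 ≤ s := by exact_mod_cast hs
  have hKR : (1 : ℝ) ≤ K := by exact_mod_cast hK
  have hm1 : (m : ℝ) ≤ D + 2 * C := by exact_mod_cast hm
  have hm2 : (D : ℝ) ≤ m + 2 * C := by exact_mod_cast hm'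
  have h1R : (s : ℝ) ≤ K * D := by exact_mod_cast h1
  have h2R : (K : ℝ) * D + s ≤ 2 * K * s := by exact_mod_cast h2
  have hC : (0 : ℝ) ≤ C := Nat.cast_nonneg _
  have hJR : (0 : ℝ) ≤ J := Nat.cast_nonneg _
  have hpos1 : 0 ≤ 64 * (K : ℝ) ^ 2 * J * (2 * J + 1) := by positivity
  have hKC : 0 ≤ (K : ℝ) * C := by positivity
  have hs1 : (1 : ℝ) ≤ s := by linarith
  -- `K m ≥ s / 2`
  have k1 : (s : ℝ) / 2 ≤ K * m := by
    have : (K : ℝ) * D ≤ K * (m + 2 * C) := mul_le_mul_of_nonneg_left hm2 (by linarith)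
    nlinarith
  have k2 : (s : ℝ) / 2 ≤ K * (2 * s - m) := by
    have : (K : ℝ) * m ≤ K * (D + 2 * C) := mul_le_mul_of_nonneg_left hm1 (by linarith)
    nlinarith
  have hprod : ((s : ℝ) / 2) * (s / 2) ≤ (K * m) * (K * (2 * s - m)) :=
    mul_le_mul k1 k2 (by linarith) (by linarith)
  have hK2 : (0 : ℝ) < K ^ 2 := by positivity
  constructor
  · have e1 : (K : ℝ) ^ 2 * ((m : ℝ) / 2 * (s - m / 2)) = (K * m) * (K * (2 * s - m)) / 4 := by ring
    have e2 : (K : ℝ) ^ 2 * (((s : ℝ) + 1) * (2 * (J : ℝ) + 1) * (2 * J)) ≤ s * s / 16 := by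
      have a1 : (s : ℝ) + 1 ≤ 2 * s := by linarith
      have a2 : 64 * (K : ℝ) ^ 2 * J * (2 * J + 1) ≤ s := by linarith
      calc (K : ℝ) ^ 2 * (((s : ℝ) + 1) * (2 * (J : ℝ) + 1) * (2 * J))
          = ((s : ℝ) + 1) * ((K : ℝ) ^ 2 * ((2 * (J : ℝ) + 1) * (2 * J))) := by ring
        _ ≤ (2 * s) * ((K : ℝ) ^ 2 * ((2 * (J : ℝ) + 1) * (2 * J))) :=
            mul_le_mul_of_nonneg_right a1 (by positivity)
        _ = s * (64 * (K : ℝ) ^ 2 * J * (2 * J + 1)) / 16 := by ring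
        _ ≤ s * s / 16 := by
            apply div_le_div_of_nonneg_right _ (by norm_num)
            exact mul_le_mul_of_nonneg_left a2 (by linarith)
    have e3 : (K : ℝ) ^ 2 * (((s : ℝ) + 1) * (2 * (J : ℝ) + 1) * (2 * J))
        ≤ (K : ℝ) ^ 2 * ((m : ℝ) / 2 * (s - m / 2)) := by
      rw [e1]
      linarith
    exact le_of_mul_le_mul_left e3 hK2
  · have : 0 ≤ (K : ℝ) * (2 * s - m) := by linarith
    have := nonneg_of_mul_nonneg_right this (by linarith)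
    linarith

open Classical in
/-- concavity of the mean counts -/
theorem concave_abs (K C : ℕ) : ∃ s0 : ℕ, ∀ s : ℕ, s0 ≤ s → ∀ (Ω : Type) [Fintype Ω] [Nonempty Ω]
    (N1 N2 N3 : Ω → ℕ) (m1 m2 m3 : ℕ),
    (∀ al a be, (s - a) * (be - al - a) *
        (univ.filter fun ω => N1 ω = al ∧ N2 ω = al + a ∧ N3 ω = be).card
      ≤ (a + 1) * (s - (be - al - a) + 1) *
        (univ.filter fun ω => N1 ω = al ∧ N2 ω = al + (a + 1) ∧ N3 ω = be).card) →
    (∀ ω, N1 ω ≤ N2 ω ∧ N2 ω ≤ N3 ω ∧ N2 ω ≤ N1 ω + s ∧ N3 ω ≤ N2 ω + s) →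
    3 * Fintype.card Ω ≤ 4 * (univ.filter fun ω => (N1 ω ≤ m1 + C ∧ m1 ≤ N1 ω + C) ∧
      (N2 ω ≤ m2 + C ∧ m2 ≤ N2 ω + C) ∧ (N3 ω ≤ m3 + C ∧ m3 ≤ N3 ω + C)).card →
    m1 ≤ m3 → s ≤ K * (m3 - m1) → K * (m3 - m1) + s ≤ 2 * K * s → m1 + m3 + 2 ≤ 2 * m2 := by
  refine ⟨64 * K ^ 2 * (4 * C + 2) * (2 * (4 * C + 2) + 1) + 4 * K * C + 1, ?_⟩
  intro s hs Ω _ _ N1 N2 N3 m1 m2 m3 hr hN hE h13 hK1 hK2
  by_contra hcon
  push Not at hcon
  set E : Finset Ω := univ.filter fun ω => (N1 ω ≤ m1 + C ∧ m1 ≤ N1 ω + C) ∧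
      (N2 ω ≤ m2 + C ∧ m2 ≤ N2 ω + C) ∧ (N3 ω ≤ m3 + C ∧ m3 ≤ N3 ω + C) with hEdef
  have hΩ : 0 < Fintype.card Ω := Fintype.card_pos
  have hEpos : 0 < E.card := by omega
  -- a good pair of end counts
  set I : Finset (ℕ × ℕ) := E.image fun ω => (N1 ω, N3 ω) with hI
  have hIne : I.Nonempty := (card_pos.1 hEpos).image _
  have hsum : ∑ i ∈ I, 3 * (univ.filter fun ω => (N1 ω, N3 ω) = i).card
      ≤ ∑ i ∈ I, 4 * (E.filter fun ω => (N1 ω, N3 ω) = i).card := by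
    rw [← mul_sum, ← mul_sum, sum_card_fiberwise_eq_card_filter,
      ← card_eq_sum_card_image (fun ω => (N1 ω, N3 ω)) E]
    refine le_trans (Nat.mul_le_mul_left _ (card_filter_le _ _)) ?_
    rw [card_univ]
    exact hE
  obtain ⟨i, hi, hle⟩ := exists_le_of_sum_le hIne hsum
  rw [hI, mem_image] at hi
  obtain ⟨ω0, hω0, rfl⟩ := hi
  set al := N1 ω0 with hal
  set be := N3 ω0 with hbe
  set Ei : Finset Ω := E.filter fun ω => (N1 ω, N3 ω) = (al, be) with hEi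
  set Ti : Finset Ω := univ.filter fun ω => (N1 ω, N3 ω) = (al, be) with hTi
  have hEi1 : 0 < Ei.card := card_pos.2 ⟨ω0, by rw [hEi, mem_filter]; exact ⟨hω0, rfl⟩⟩
  have hω0' : (al ≤ m1 + C ∧ m1 ≤ al + C) ∧
      (N2 ω0 ≤ m2 + C ∧ m2 ≤ N2 ω0 + C) ∧ (be ≤ m3 + C ∧ m3 ≤ be + C) := by
    have := hω0
    rw [hEdef, mem_filter] at this
    exact this.2
  obtain ⟨⟨b1, b2⟩, -, b3, b4⟩ := hω0'
  have hab : al ≤ be := (hN ω0).1.trans (hN ω0).2.1
  set Z : ℕ → ℕ := fun a => (univ.filter fun ω => N1 ω = al ∧ N2 ω = al + a ∧ N3 ω = be).card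
    with hZ
  set m : ℕ := be - al with hm
  have hrZ : ∀ a, (s - a) * (m - a) * Z a ≤ (a + 1) * (s - (m - a) + 1) * Z (a + 1) :=
    fun a => hr al a be
  have hsupp : ∀ a, Z a ≠ 0 → a ≤ s ∧ a ≤ m ∧ m ≤ a + s := by
    intro a ha
    obtain ⟨ω, hω⟩ := card_pos.1 (Nat.pos_of_ne_zero ha)
    rw [mem_filter] at hω
    obtain ⟨-, w1, w2, w3⟩ := hω
    have := hN ω
    omega
  obtain ⟨hbig, hms⟩ := big_arith K C s m m1 m3 hs h13 (by omega) (by omega) hK1 hK2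
  have hcomp := compare s m (4 * C + 2) Z (by omega) hrZ hsupp hbig hms
  -- the window
  set w : Finset ℕ := Ioc (m / 2 + (2 * C + 1)) (m / 2 + (2 * C + 1) + (2 * C + 1)) with hw
  have hwc : w.card = 2 * C + 1 := by rw [hw, Nat.card_Ioc]; omega
  have htyp : ∀ ω ∈ Ei, al ≤ N2 ω ∧ N2 ω - al ≤ m / 2 + (2 * C + 1) ∧ N1 ω = al ∧ N3 ω = be := by
    intro ω hω
    rw [hEi, mem_filter, hEdef, mem_filter, Prod.mk.injEq] at hω
    obtain ⟨⟨-, c1, c2, c3⟩, c4, c5⟩ := hω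
    have := hN ω
    omega
  have hwin : ∑ a ∈ w, Z a + Ei.card ≤ Ti.card := by
    have h1 : ∀ a ∈ w, Z a = ((univ.filter fun ω => N1 ω = al ∧ N3 ω = be ∧ al ≤ N2 ω).filter
        fun ω => N2 ω - al = a).card := by
      intro a _
      rw [hZ]
      simp only [filter_filter]
      congr 1
      ext ω
      simp only [mem_filter, mem_univ, true_and]
      have := hN ω
      omega
    rw [sum_congr rfl h1, sum_card_fiberwise_eq_card_filter, ← card_union_of_disjoint]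
    · apply card_le_card
      intro ω hω
      rw [mem_union] at hω
      rw [hTi, mem_filter, Prod.mk.injEq]
      refine ⟨mem_univ _, ?_⟩
      rcases hω with hω | hω
      · rw [mem_filter, mem_filter] at hω
        exact ⟨hω.1.2.1, hω.1.2.2.1⟩
      · exact ⟨(htyp ω hω).2.2.1, (htyp ω hω).2.2.2⟩
    · rw [disjoint_left]
      intro ω hω hω'
      rw [mem_filter, hw, mem_Ioc] at hω
      have := (htyp ω hω').2.1
      omega
  have hwe : (2 * C + 1) * Ei.card ≤ (2 * C + 1) * (2 * ∑ a ∈ w, Z a) := by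
    set t : Finset ℕ := Ei.image fun ω => N2 ω - al with ht
    have htc : t.card ≤ 2 * C + 1 := by
      have hsub : t ⊆ Icc (m2 - C - al) (m2 + C - al) := by
        intro a ha
        rw [ht, mem_image] at ha
        obtain ⟨ω, hω, rfl⟩ := ha
        have h1 := (htyp ω hω).1
        rw [hEi, mem_filter, hEdef, mem_filter] at hω
        obtain ⟨⟨-, c1, c2, c3⟩, -⟩ := hω
        rw [mem_Icc]
        omega
      refine (card_le_card hsub).trans ?_
      rw [Nat.card_Icc]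
      omega
    have h1 : Ei.card ≤ ∑ a ∈ t, Z a := by
      rw [card_eq_sum_card_image (fun ω => N2 ω - al) Ei]
      apply sum_le_sum
      intro a _
      apply card_le_card
      intro ω hω
      rw [mem_filter] at hω
      obtain ⟨hω, hω2⟩ := hω
      have := htyp ω hω
      rw [mem_filter]
      refine ⟨mem_univ _, this.2.2.1, ?_, this.2.2.2⟩
      omega
    have h2 : ∀ a ∈ t, (2 * C + 1) * Z a ≤ 2 * ∑ b ∈ w, Z b := by
      intro a ha
      rw [← hwc, mul_sum, ← smul_eq_mul, ← sum_const]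
      apply sum_le_sum
      intro b hb
      rw [ht, mem_image] at ha
      obtain ⟨ω, hω, rfl⟩ := ha
      have h3 := (htyp ω hω).2.1
      rw [hw, mem_Ioc] at hb
      exact hcomp _ b (by omega) (by omega)
    calc (2 * C + 1) * Ei.card ≤ (2 * C + 1) * ∑ a ∈ t, Z a := Nat.mul_le_mul_left _ h1
      _ = ∑ a ∈ t, (2 * C + 1) * Z a := by rw [mul_sum]
      _ ≤ ∑ a ∈ t, 2 * ∑ b ∈ w, Z b := sum_le_sum h2
      _ = t.card * (2 * ∑ b ∈ w, Z b) := by rw [sum_const, smul_eq_mul]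
      _ ≤ _ := Nat.mul_le_mul_right _ htc
  have hwe2 : Ei.card ≤ 2 * ∑ a ∈ w, Z a := Nat.le_of_mul_le_mul_left hwe (by omega)
  omega

end KS.Abs
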