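import Mathlib

set_option autoImplicit false

/-!
# The ratio inequality for families of position sets (abstract form)
-/

namespace KS.Abs

open Finset

/-- number of elements of `S` below `k` -/
def cnt (S : Finset ℕ) (k : ℕ) : ℕ := (S.filter (· < k)).card

/-- the family of subsets of `range n` with prescribed counts -/
def fam (n d k s al a be : ℕ) : Finset (Finset ℕ) :=
  (range n).powerset.filter fun S =>
    S.card = d ∧ cnt S k = al ∧ cnt S (k + s) = al + a ∧ cnt S (k + 2 * s) = be

theorem cnt_insert (S : Finset ℕ) (t j : ℕ) (ht : t ∉ S) :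
    cnt (insert t S) j = cnt S j + (if t < j then 1 else 0) := by
  unfold cnt
  rw [filter_insert]
  split_ifs with h
  · rw [card_insert_of_notMem (by simp [ht])]
  · simp

theorem cnt_erase (S : Finset ℕ) (t j : ℕ) (ht : t ∈ S) :
    cnt S j = cnt (S.erase t) j + (if t < j then 1 else 0) := by
  conv_lhs => rw [← insert_erase ht]
  exact cnt_insert _ _ _ (notMem_erase _ _)

theorem cnt_move (S : Finset ℕ) (t1 t2 j : ℕ) (h12 : t1 < t2) (h1 : t1 ∉ S) (h2 : t2 ∈ S) :
    cnt (insert t1 (S.erase t2)) j = cnt S j + (if t1 < j ∧ j ≤ t2 then 1 else 0) := by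
  have h1' : t1 ∉ S.erase t2 := fun h => h1 (mem_of_mem_erase h)
  rw [cnt_insert _ _ _ h1', cnt_erase S t2 j h2]
  by_cases ha : t1 < j
  · by_cases hb : t2 < j
    · have : ¬ (t1 < j ∧ j ≤ t2) := by omega
      rw [if_pos ha, if_pos hb, if_neg this]
    · have : (t1 < j ∧ j ≤ t2) := by omega
      rw [if_pos ha, if_neg hb, if_pos this]
  · have hb : ¬ t2 < j := by omega
    have : ¬ (t1 < j ∧ j ≤ t2) := by omega
    rw [if_neg ha, if_neg hb, if_neg this]

theorem cnt_split (S : Finset ℕ) (k l : ℕ) (h : k ≤ l) :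
    cnt S l = cnt S k + ((Ico k l).filter (· ∈ S)).card := by
  unfold cnt
  rw [← card_union_of_disjoint]
  · congr 1
    ext x
    simp only [mem_filter, mem_union, mem_Ico]
    constructor
    · rintro ⟨hx, hl⟩
      by_cases hk : x < k
      · exact Or.inl ⟨hx, hk⟩
      · exact Or.inr ⟨⟨by omega, hl⟩, hx⟩
    · rintro (⟨hx, hk⟩ | ⟨⟨_, hl⟩, hx⟩)
      · exact ⟨hx, by omega⟩
      · exact ⟨hx, hl⟩
  · rw [disjoint_left]
    intro x hx hx'
    simp only [mem_filter, mem_Ico] at hx hx'
    omega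

theorem fam_mem (n d k s al a be : ℕ) (S : Finset ℕ) :
    S ∈ fam n d k s al a be ↔ S ⊆ range n ∧
      S.card = d ∧ cnt S k = al ∧ cnt S (k + s) = al + a ∧ cnt S (k + 2 * s) = be := by
  unfold fam
  simp only [mem_filter, mem_powerset]

theorem fam_cards (n d k s al a be : ℕ) (S : Finset ℕ) (hS : S ∈ fam n d k s al a be) :
    ((Ico k (k + s)).filter (· ∈ S)).card = a ∧
    ((Ico k (k + s)).filter (· ∉ S)).card = s - a ∧
    ((Ico (k + s) (k + 2 * s)).filter (· ∈ S)).card = be - al - a ∧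
    ((Ico (k + s) (k + 2 * s)).filter (· ∉ S)).card = s - (be - al - a) := by
  obtain ⟨_, _, h1, h2, h3⟩ := (fam_mem _ _ _ _ _ _ _ _).1 hS
  have e1 := cnt_split S k (k + s) (by omega)
  have e2 := cnt_split S (k + s) (k + 2 * s) (by omega)
  have f1 := card_filter_add_card_filter_not (s := Ico k (k + s)) (· ∈ S)
  have f2 := card_filter_add_card_filter_not (s := Ico (k + s) (k + 2 * s)) (· ∈ S)
  rw [Nat.card_Ico] at f1 f2
  omega

/-- the main double count -/
theorem fam_double (n d k s al a be : ℕ) (f : Finset ℕ → ℕ) (P : Finset ℕ → ℕ → ℕ → Prop)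
    [∀ S t1 t2, Decidable (P S t1 t2)] (N : ℕ)
    (hN : ∀ S ∈ fam n d k s al a be,
      (((Ico k (k + s)) ×ˢ (Ico (k + s) (k + 2 * s))).filter fun t => P S t.1 t.2).card = N) :
    N * ∑ S ∈ fam n d k s al a be, f S
      = ∑ t ∈ (Ico k (k + s)) ×ˢ (Ico (k + s) (k + 2 * s)),
          ∑ S ∈ (fam n d k s al a be).filter (fun S => P S t.1 t.2), f S := by
  have : ∀ t ∈ (Ico k (k + s)) ×ˢ (Ico (k + s) (k + 2 * s)),
      ∑ S ∈ (fam n d k s al a be).filter (fun S => P S t.1 t.2), f S
        = ∑ S ∈ fam n d k s al a be, if P S t.1 t.2 then f S else 0 := by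
    intro t _
    rw [sum_filter]
  rw [sum_congr rfl this, sum_comm, mul_sum]
  apply sum_congr rfl
  intro S hS
  rw [← sum_filter, sum_const, hN S hS, smul_eq_mul]

/-- moving one occupied position of the second block to the first block -/
theorem ratio_abs (n : ℕ) (f : Finset ℕ → ℕ)
    (hf : ∀ (S : Finset ℕ) (t1 t2 : ℕ), S ⊆ range n → t1 < t2 → t2 < n → t1 ∉ S → t2 ∈ S →
      f S ≤ f (insert t1 (S.erase t2)))
    (d k s al a be : ℕ) (hk : k + 2 * s ≤ n) :
    (s - a) * (be - al - a) * ∑ S ∈ fam n d k s al a be, f S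
      ≤ (a + 1) * (s - (be - al - a) + 1) * ∑ S ∈ fam n d k s al (a + 1) be, f S := by
  by_cases hb : be ≤ al + a
  · have : be - al - a = 0 := by omega
    rw [this]; simp
  push Not at hb
  have hL := fam_double n d k s al a be f (fun S t1 t2 => t1 ∉ S ∧ t2 ∈ S) ((s - a) * (be - al - a))
    (by
      intro S hS
      obtain ⟨_, h2, h3, _⟩ := fam_cards _ _ _ _ _ _ _ _ hS
      rw [filter_product (s := Ico k (k + s)) (t := Ico (k + s) (k + 2 * s))
        (fun t1 => t1 ∉ S) (fun t2 => t2 ∈ S), card_product, h2, h3])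
  have hR : ∑ t ∈ (Ico k (k + s)) ×ˢ (Ico (k + s) (k + 2 * s)),
          ∑ S ∈ (fam n d k s al (a + 1) be).filter (fun S => t.1 ∈ S ∧ t.2 ∉ S), f S
      ≤ (a + 1) * (s - (be - al - a) + 1) * ∑ S ∈ fam n d k s al (a + 1) be, f S := by
    rw [← fam_double n d k s al (a + 1) be f (fun S t1 t2 => t1 ∈ S ∧ t2 ∉ S)
      ((a + 1) * (s - (be - al - (a + 1))))]
    · apply Nat.mul_le_mul_right
      apply Nat.mul_le_mul_left
      omega
    · intro S hS
      obtain ⟨h1, _, _, h4⟩ := fam_cards _ _ _ _ _ _ _ _ hS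
      rw [filter_product (s := Ico k (k + s)) (t := Ico (k + s) (k + 2 * s))
        (fun t1 => t1 ∈ S) (fun t2 => t2 ∉ S), card_product, h1, h4]
  rw [hL]
  refine le_trans (sum_le_sum ?_) hR
  intro t ht
  simp only [mem_product, mem_Ico] at ht
  obtain ⟨⟨a1, a2⟩, a3, a4⟩ := ht
  have hinj : Set.InjOn (fun S : Finset ℕ => insert t.1 (S.erase t.2))
      ((fam n d k s al a be).filter (fun S => t.1 ∉ S ∧ t.2 ∈ S) : Finset (Finset ℕ)) := by
    intro S hS S' hS' h
    rw [mem_coe, mem_filter] at hS hS'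
    have key : ∀ T : Finset ℕ, t.1 ∉ T → t.2 ∈ T →
        insert t.2 ((insert t.1 (T.erase t.2)).erase t.1) = T := by
      intro T h1 h2
      rw [erase_insert (fun h => h1 (mem_of_mem_erase h)), insert_erase h2]
    rw [← key S hS.2.1 hS.2.2, ← key S' hS'.2.1 hS'.2.2]
    simp only at h
    rw [h]
  calc ∑ S ∈ (fam n d k s al a be).filter (fun S => t.1 ∉ S ∧ t.2 ∈ S), f S
      ≤ ∑ S ∈ (fam n d k s al a be).filter (fun S => t.1 ∉ S ∧ t.2 ∈ S),
          f (insert t.1 (S.erase t.2)) := by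
        apply sum_le_sum
        intro S hS
        rw [mem_filter] at hS
        exact hf S t.1 t.2 ((fam_mem _ _ _ _ _ _ _ _).1 hS.1).1 (by omega) (by omega)
          hS.2.1 hS.2.2
    _ = ∑ S ∈ ((fam n d k s al a be).filter (fun S => t.1 ∉ S ∧ t.2 ∈ S)).image
          (fun S => insert t.1 (S.erase t.2)), f S := by
        rw [sum_image hinj]
    _ ≤ _ := by
        apply sum_le_sum_of_subset
        intro S' hS'
        rw [mem_image] at hS'
        obtain ⟨S, hS, rfl⟩ := hS'
        rw [mem_filter] at hS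
        obtain ⟨hS, h1, h2⟩ := hS
        rw [fam_mem] at hS
        obtain ⟨s0, s1, s2, s3, s4⟩ := hS
        have h1' : t.1 ∉ S.erase t.2 := fun h => h1 (mem_of_mem_erase h)
        rw [mem_filter, fam_mem]
        refine ⟨⟨?_, ?_, ?_, ?_, ?_⟩, ?_, ?_⟩
        · apply insert_subset
          · rw [mem_range]; omega
          · exact (erase_subset _ _).trans s0
        · rw [card_insert_of_notMem h1', card_erase_of_mem h2, s1]
          have : 0 < S.card := card_pos.2 ⟨_, h2⟩
          omega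
        · rw [cnt_move S _ _ _ (by omega) h1 h2, if_neg (by omega), s2]; omega
        · rw [cnt_move S _ _ _ (by omega) h1 h2, if_pos (by omega), s3]; omega
        · rw [cnt_move S _ _ _ (by omega) h1 h2, if_neg (by omega), s4]; omega
        · exact mem_insert_self _ _
        · intro h
          rcases mem_insert.1 h with h | h
          · omega
          · exact notMem_erase _ _ h

end KS.Abs
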