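import Mathlib
import Pool.Agent.Lib_MP_33fb9b_bft.SwA
import Pool.Agent.Lib_MP_33fb9b_ks.RatioAbs

set_option autoImplicit false

/-!
# Position sets of a down-set, and the ratio inequality for linear extensions
-/

namespace Pool.Agent.BFT.KSW

open Finset KS.Abs

variable {P : Type} [Fintype P] [PartialOrder P]

open Classical in
/-- the set of positions of `D` in `σ` -/
noncomputable def pset (D : Set P) (σ : LE P) : Finset ℕ := (univ.filter (· ∈ D)).image (pos σ)

open Classical in
/-- the number of linear extensions with given set of positions of `D` -/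
noncomputable def fS (D : Set P) (S : Finset ℕ) : ℕ :=
  (univ.filter fun σ : LE P => pset D σ = S).card

open Classical in
/-- the number of elements of `D` in the first `k` positions -/
noncomputable def nD (D : Set P) (σ : LE P) (k : ℕ) : ℕ :=
  (univ.filter fun v => v ∈ D ∧ pos σ v < k).card

theorem mem_pset (D : Set P) (σ : LE P) (j : ℕ) : j ∈ pset D σ ↔ ∃ v ∈ D, pos σ v = j := by
  unfold pset
  simp only [mem_image, mem_filter, mem_univ, true_and]

theorem exists_pos (σ : LE P) (j : ℕ) (hj : j < Fintype.card P) : ∃ v, pos σ v = j := by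
  refine ⟨σ.1.symm ⟨j, hj⟩, ?_⟩
  unfold pos
  rw [Equiv.apply_symm_apply]

theorem pset_sub (D : Set P) (σ : LE P) : pset D σ ⊆ range (Fintype.card P) := by
  intro j hj
  obtain ⟨v, _, rfl⟩ := (mem_pset D σ j).1 hj
  rw [mem_range]
  exact pos_lt_card σ v

open Classical in
theorem card_pset (D : Set P) (σ : LE P) : (pset D σ).card = (univ.filter (· ∈ D)).card := by
  unfold pset
  rw [card_image_of_injective _ (fun u v h => pos_inj h)]

theorem cnt_pset (D : Set P) (σ : LE P) (k : ℕ) : cnt (pset D σ) k = nD D σ k := by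
  classical
  unfold cnt nD pset
  rw [filter_image, card_image_of_injective _ (fun u v h => pos_inj h), filter_filter]

/-- exchange of two adjacent positions -/
theorem swap_adj (D : Set P) (hD : IsLowerSet D) (S : Finset ℕ) (t : ℕ) (ht : t ∉ S)
    (ht1 : t + 1 ∈ S) : fS D S ≤ fS D (insert t (S.erase (t + 1))) := by
  classical
  have hex : ∀ σ : LE P, ∃ τ : LE P, pset D σ = S → ∃ u v : P, u ∉ D ∧ v ∈ D ∧ pos σ u = t ∧
      pos σ v = t + 1 ∧ pos τ u = t + 1 ∧ pos τ v = t ∧ ∀ w, w ≠ u → w ≠ v → pos τ w = pos σ w := by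
    intro σ
    by_cases h : pset D σ = S
    · have h1 : t + 1 ∈ pset D σ := h ▸ ht1
      obtain ⟨v, hv, hpv⟩ := (mem_pset _ _ _).1 h1
      have hlt : t < Fintype.card P := by
        have := pos_lt_card σ v
        omega
      obtain ⟨u, hu⟩ := exists_pos σ t hlt
      have huD : u ∉ D := by
        intro hu'
        apply ht
        rw [← h, mem_pset]
        exact ⟨u, hu', hu⟩
      have n1 : ¬ u ≤ v := fun hle => huD (hD hle hv)
      have n2 : ¬ v ≤ u := by
        intro hle
        have : pos σ v ≤ pos σ u := σ.2 hle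
        omega
      obtain ⟨τ, t1, t2, t3⟩ := exists_swap u v n1 n2 σ (by omega)
      exact ⟨τ, fun _ => ⟨u, v, huD, hv, hu, hpv, by omega, by omega, t3⟩⟩
    · exact ⟨σ, fun h' => absurd h' h⟩
  choose F hF using hex
  unfold fS
  apply card_le_card_of_injOn F
  · intro σ hσ
    rw [mem_coe, mem_filter] at hσ
    obtain ⟨u, v, huD, hv, hu, hpv, hu', hv', hw⟩ := hF σ hσ.2
    rw [mem_coe, mem_filter]
    refine ⟨mem_univ _, ?_⟩
    have hS := hσ.2
    ext j
    rw [mem_pset, mem_insert, mem_erase, ← hS, mem_pset]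
    constructor
    · rintro ⟨w, hwD, rfl⟩
      by_cases hwv : w = v
      · left; rw [hwv, hv']
      · have hwu : w ≠ u := fun h => huD (h ▸ hwD)
        right
        rw [hw w hwu hwv]
        refine ⟨?_, w, hwD, rfl⟩
        intro h
        exact hwv (pos_inj (h.trans hpv.symm))
    · rintro (rfl | ⟨hj, w, hwD, rfl⟩)
      · exact ⟨v, hv, hv'⟩
      · have hwv : w ≠ v := by
          rintro rfl
          exact hj hpv
        have hwu : w ≠ u := fun h => huD (h ▸ hwD)
        exact ⟨w, hwD, hw w hwu hwv⟩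
  · intro σ1 h1 σ2 h2 h
    rw [mem_coe, mem_filter] at h1 h2
    obtain ⟨u, v, huD, hv, hu, hpv, hu', hv', hw⟩ := hF σ1 h1.2
    obtain ⟨x, y, hxD, hy, hx, hpy, hx', hy', hz⟩ := hF σ2 h2.2
    rw [← h] at hx' hy' hz
    have e1 : x = u := pos_inj (hx'.trans hu'.symm)
    have e2 : y = v := pos_inj (hy'.trans hv'.symm)
    subst e1 e2
    apply LE_ext
    intro w
    by_cases hwu : w = x
    · rw [hwu, hu, hx]
    by_cases hwv : w = y
    · rw [hwv, hpv, hpy]
    rw [← hw w hwu hwv, ← hz w hwu hwv]

/-- a later position of `D` may be exchanged with an earlier free one -/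
theorem swap_far (D : Set P) (hD : IsLowerSet D) : ∀ (n : ℕ) (S : Finset ℕ) (t1 t2 : ℕ),
    t2 = t1 + 1 + n → t1 ∉ S → t2 ∈ S → fS D S ≤ fS D (insert t1 (S.erase t2)) := by
  intro n
  induction n with
  | zero =>
    intro S t1 t2 h h1 h2
    rw [h] at h2 ⊢
    exact swap_adj D hD S t1 h1 h2
  | succ n ih =>
    intro S t1 t2 h h1 h2
    have hsucc : t2 = (t1 + 1 + n) + 1 := by omega
    by_cases hm : t1 + 1 + n ∈ S
    · have a1 := ih S t1 (t1 + 1 + n) rfl h1 hm
      have a2 : fS D (insert t1 (S.erase (t1 + 1 + n)))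
          ≤ fS D (insert (t1 + 1 + n) ((insert t1 (S.erase (t1 + 1 + n))).erase (t1 + 1 + n + 1))) := by
        apply swap_adj D hD
        · rw [mem_insert, mem_erase]; omega
        · rw [mem_insert, mem_erase]
          right
          refine ⟨by omega, ?_⟩
          rw [← hsucc]; exact h2
      refine a1.trans (a2.trans (le_of_eq ?_))
      congr 1
      ext j
      simp only [mem_insert, mem_erase]
      rw [hsucc]
      by_cases hj : j = t1 + 1 + n
      · subst hj
        constructor
        · intro _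
          right
          exact ⟨by omega, hm⟩
        · intro _
          left; rfl
      · constructor
        · rintro (h3 | ⟨h3, h4 | ⟨_, h5⟩⟩)
          · exact absurd h3 hj
          · exact Or.inl h4
          · exact Or.inr ⟨h3, h5⟩
        · rintro (h3 | ⟨h3, h4⟩)
          · right
            exact ⟨by omega, Or.inl h3⟩
          · right
            exact ⟨h3, Or.inr ⟨hj, h4⟩⟩
    · have a2 : fS D S ≤ fS D (insert (t1 + 1 + n) (S.erase (t1 + 1 + n + 1))) := by
        apply swap_adj D hD S _ hm
        rw [← hsucc]; exact h2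
      have a1 := ih (insert (t1 + 1 + n) (S.erase (t1 + 1 + n + 1))) t1 (t1 + 1 + n) rfl
        (by
          rw [mem_insert, mem_erase]
          rintro (h3 | ⟨_, h3⟩)
          · omega
          · exact h1 h3)
        (mem_insert_self _ _)
      refine a2.trans (a1.trans (le_of_eq ?_))
      congr 2
      rw [erase_insert, hsucc]
      rw [mem_erase]
      exact fun h3 => hm h3.2

theorem fS_swap (D : Set P) (hD : IsLowerSet D) (S : Finset ℕ) (t1 t2 : ℕ) (h : t1 < t2)
    (h1 : t1 ∉ S) (h2 : t2 ∈ S) : fS D S ≤ fS D (insert t1 (S.erase t2)) := by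
  obtain ⟨n, hn⟩ := Nat.exists_eq_add_of_le (show t1 + 1 ≤ t2 from h)
  exact swap_far D hD n S t1 t2 hn h1 h2

open Classical in
/-- counting linear extensions by the position set of `D` -/
theorem card_eq_sum_fS (D : Set P) (k s al a be : ℕ) :
    (univ.filter fun σ : LE P => nD D σ k = al ∧ nD D σ (k + s) = al + a ∧
      nD D σ (k + 2 * s) = be).card
      = ∑ S ∈ fam (Fintype.card P) (univ.filter (· ∈ D)).card k s al a be, fS D S := by
  unfold fS
  have h1 : ∀ S ∈ fam (Fintype.card P) (univ.filter (· ∈ D)).card k s al a be,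
      (univ.filter fun σ : LE P => pset D σ = S).card
      = ((univ.filter fun σ : LE P => nD D σ k = al ∧ nD D σ (k + s) = al + a ∧
      nD D σ (k + 2 * s) = be).filter fun σ => pset D σ = S).card := by
    intro S hS
    rw [fam_mem] at hS
    congr 1
    ext σ
    simp only [mem_filter, mem_univ, true_and]
    constructor
    · intro h
      refine ⟨?_, h⟩
      rw [← cnt_pset, ← cnt_pset, ← cnt_pset, h]
      exact hS.2.2
    · exact fun h => h.2
  rw [sum_congr rfl h1, sum_card_fiberwise_eq_card_filter]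
  congr 1
  ext σ
  simp only [mem_filter, mem_univ, true_and]
  constructor
  · intro h
    refine ⟨h, ?_⟩
    rw [fam_mem]
    refine ⟨pset_sub D σ, card_pset D σ, ?_⟩
    rw [cnt_pset, cnt_pset, cnt_pset]
    exact h
  · exact fun h => h.1

open Classical in
/-- the ratio inequality -/
theorem ratio_LE (D : Set P) (hD : IsLowerSet D) (k s al a be : ℕ)
    (hk : k + 2 * s ≤ Fintype.card P) :
    (s - a) * (be - al - a) * (univ.filter fun σ : LE P => nD D σ k = al ∧ nD D σ (k + s) = al + a ∧
      nD D σ (k + 2 * s) = be).card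
    ≤ (a + 1) * (s - (be - al - a) + 1) * (univ.filter fun σ : LE P => nD D σ k = al ∧
      nD D σ (k + s) = al + (a + 1) ∧ nD D σ (k + 2 * s) = be).card := by
  rw [card_eq_sum_fS, card_eq_sum_fS]
  exact ratio_abs _ _ (fun S t1 t2 _ h _ h1 h2 => fS_swap D hD S t1 t2 h h1 h2) _ _ _ _ _ _ hk

theorem nD_split (D : Set P) (σ : LE P) (k l : ℕ) (h : k ≤ l) :
    nD D σ k ≤ nD D σ l ∧ nD D σ l ≤ nD D σ k + (l - k) := by
  rw [← cnt_pset, ← cnt_pset]
  have h1 := cnt_split (pset D σ) k l h
  have h2 : ((Ico k l).filter (· ∈ pset D σ)).card ≤ l - k := by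
    refine (card_filter_le _ _).trans ?_
    rw [Nat.card_Ico]
  omega

end Pool.Agent.BFT.KSW
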