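import Mathlib
import Pool.Agent.Lib_MP_33fb9b_ks.WordsAbs
import Pool.Agent.Lib_MP_33fb9b_ks.ConcaveAbs

set_option autoImplicit false

/-!
# Concavity of the mean counts of a down-set
-/

namespace Pool.Agent.BFT.KSW

open Finset KS.Abs

/-- If the numbers of elements of the down-set `D` in the first `k`, `k + s`, `k + 2 s` positions are,
with probability at least `3/4`, within `C` of `m1`, `m2`, `m3`, and `m3 - m1` is between `s / K` and
`2 s - s / K`, then `m2 ≥ (m1 + m3) / 2 + 1`, as soon as `s` is large in terms of `K` and `C`. -/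
theorem concave_LE (K C : ℕ) : ∃ s0 : ℕ, ∀ s : ℕ, s0 ≤ s → ∀ (P : Type) [Fintype P] [PartialOrder P]
    (D : Set P), IsLowerSet D → ∀ (k m1 m2 m3 : ℕ), k + 2 * s ≤ Fintype.card P →
    (3 : ℝ) / 4 ≤ Pr (fun σ : LE P => (nD D σ k ≤ m1 + C ∧ m1 ≤ nD D σ k + C) ∧
      (nD D σ (k + s) ≤ m2 + C ∧ m2 ≤ nD D σ (k + s) + C) ∧
      (nD D σ (k + 2 * s) ≤ m3 + C ∧ m3 ≤ nD D σ (k + 2 * s) + C)) →
    m1 ≤ m3 → s ≤ K * (m3 - m1) → K * (m3 - m1) + s ≤ 2 * K * s → m1 + m3 + 2 ≤ 2 * m2 := by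
  classical
  obtain ⟨s0, h0⟩ := concave_abs K C
  refine ⟨s0, ?_⟩
  intro s hs P _ _ D hD k m1 m2 m3 hk hPr h13 h1 h2
  refine h0 s hs (LE P) (fun σ => nD D σ k) (fun σ => nD D σ (k + s)) (fun σ => nD D σ (k + 2 * s))
    m1 m2 m3 ?_ ?_ ?_ h13 h1 h2
  · intro al a be
    have := ratio_LE D hD k s al a be hk
    convert this using 3
  · intro σ
    have a1 := nD_split D σ k (k + s) (by omega)
    have a2 := nD_split D σ (k + s) (k + 2 * s) (by omega)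
    omega
  · rw [Pr_eq_card, le_div_iff₀ cardLE_pos] at hPr
    have h3 : (3 : ℝ) * (Fintype.card (LE P) : ℝ) ≤ 4 * ((univ.filter fun σ : LE P =>
      (nD D σ k ≤ m1 + C ∧ m1 ≤ nD D σ k + C) ∧
      (nD D σ (k + s) ≤ m2 + C ∧ m2 ≤ nD D σ (k + s) + C) ∧
      (nD D σ (k + 2 * s) ≤ m3 + C ∧ m3 ≤ nD D σ (k + 2 * s) + C)).card : ℝ) := by linarith
    have h4 : 3 * Fintype.card (LE P) ≤ 4 * (univ.filter fun σ : LE P =>
      (nD D σ k ≤ m1 + C ∧ m1 ≤ nD D σ k + C) ∧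
      (nD D σ (k + s) ≤ m2 + C ∧ m2 ≤ nD D σ (k + s) + C) ∧
      (nD D σ (k + 2 * s) ≤ m3 + C ∧ m3 ≤ nD D σ (k + 2 * s) + C)).card := by exact_mod_cast h3
    convert h4 using 3

end Pool.Agent.BFT.KSW
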