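import Pool.Agent.Lib_MP_33fb9b_ks.Cut
import Pool.Agent.Lib_MP_33fb9b_ks.ConcaveLE

set_option autoImplicit false

/-!
# B5: the profile of a down-set is strictly concave at scale `s`
-/

namespace Pool.Agent.Thin

open Finset Pool.Agent.BFT

/-- (B.5) -/
theorem concave (K2 C3 : ℝ) (K : ℕ) (hK : 1 ≤ K) : ∃ s0 : ℕ, ∀ (P : Type) [Fintype P]
    [PartialOrder P] (idx : P → ℕ), Loc P idx K2 C3 →
    ∀ (D : Finset P), IsLowerSet (D : Set P) → ∀ k1 s : ℕ, s0 ≤ s →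
      k1 + 2 * s ≤ Fintype.card P →
      mu idx D k1 * K + s ≤ mu idx D (k1 + 2 * s) * K →
      mu idx D (k1 + 2 * s) * K + s ≤ (mu idx D k1 + 2 * s) * K →
      mu idx D k1 + mu idx D (k1 + 2 * s) + 2 ≤ 2 * mu idx D (k1 + s) := by
  classical
  obtain ⟨s0, h0⟩ := BFT.KSW.concave_LE K ⌈24 * C3⌉₊
  refine ⟨s0, ?_⟩
  intro P _ _ idx hL D hD k1 s hs hk h1 h2
  have hmono : mu idx D k1 ≤ mu idx D (k1 + 2 * s) := by
    apply card_le_card
    intro v hv
    rw [mem_filter] at hv ⊢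
    exact ⟨hv.1, by omega⟩
  have hcnt : ∀ (σ : BFT.LE P) (k : ℕ), BFT.KSW.nD (D : Set P) σ k = cnt σ D k := by
    intro σ k
    unfold BFT.KSW.nD cnt
    congr 1
    ext v
    simp only [mem_filter, mem_univ, true_and, mem_coe]
  obtain ⟨w, hw⟩ := Nat.exists_eq_add_of_le hmono
  have hw' : mu idx D (k1 + 2 * s) - mu idx D k1 = w := by omega
  refine h0 s hs P (D : Set P) hD k1 (mu idx D k1) (mu idx D (k1 + s)) (mu idx D (k1 + 2 * s)) hk ?_
    hmono ?_ ?_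
  · -- Markov
    set C : ℕ := ⌈24 * C3⌉₊ with hC
    have hC3 := hL.hC3
    have hCR : 24 * C3 ≤ C := Nat.le_ceil _
    have hCpos : (0 : ℝ) < (C : ℝ) + 1 := by positivity
    have e1 := Ex_crs_le hL k1
    have e2 := Ex_crs_le hL (k1 + s)
    have e3 := Ex_crs_le hL (k1 + 2 * s)
    have key : Ex (fun σ : BFT.LE P => 1 + (-(1 / ((C : ℝ) + 1))) *
        (((crs idx σ k1 : ℝ) + crs idx σ (k1 + s)) + crs idx σ (k1 + 2 * s))) ≤
        BFT.Pr (fun σ : BFT.LE P => (BFT.KSW.nD (D : Set P) σ k1 ≤ mu idx D k1 + C ∧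
        mu idx D k1 ≤ BFT.KSW.nD (D : Set P) σ k1 + C) ∧
      (BFT.KSW.nD (D : Set P) σ (k1 + s) ≤ mu idx D (k1 + s) + C ∧
        mu idx D (k1 + s) ≤ BFT.KSW.nD (D : Set P) σ (k1 + s) + C) ∧
      (BFT.KSW.nD (D : Set P) σ (k1 + 2 * s) ≤ mu idx D (k1 + 2 * s) + C ∧
        mu idx D (k1 + 2 * s) ≤ BFT.KSW.nD (D : Set P) σ (k1 + 2 * s) + C)) := by
      unfold BFT.Pr
      apply Ex_mono
      intro σ
      have hnn1 : (0 : ℝ) ≤ crs idx σ k1 := Nat.cast_nonneg _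
      have hnn2 : (0 : ℝ) ≤ crs idx σ (k1 + s) := Nat.cast_nonneg _
      have hnn3 : (0 : ℝ) ≤ crs idx σ (k1 + 2 * s) := Nat.cast_nonneg _
      have hinv : 0 ≤ 1 / ((C : ℝ) + 1) := by positivity
      by_cases hclose : crs idx σ k1 ≤ C ∧ crs idx σ (k1 + s) ≤ C ∧ crs idx σ (k1 + 2 * s) ≤ C
      · have hall : ∀ k : ℕ, crs idx σ k ≤ C → (BFT.KSW.nD (D : Set P) σ k ≤ mu idx D k + C ∧
            mu idx D k ≤ BFT.KSW.nD (D : Set P) σ k + C) := by
          intro k hk'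
          have h3 := abs_le.1 (cnt_sub_mu hL σ D k)
          have h4 : (crs idx σ k : ℝ) ≤ C := by exact_mod_cast hk'
          rw [hcnt]
          have h5 : (cnt σ D k : ℝ) ≤ mu idx D k + C := by linarith [h3.2]
          have h6 : (mu idx D k : ℝ) ≤ cnt σ D k + C := by linarith [h3.1]
          exact ⟨by exact_mod_cast h5, by exact_mod_cast h6⟩
        rw [BFT.ind_true ⟨hall _ hclose.1, hall _ hclose.2.1, hall _ hclose.2.2⟩]
        have : 0 ≤ 1 / ((C : ℝ) + 1) *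
          (((crs idx σ k1 : ℝ) + crs idx σ (k1 + s)) + crs idx σ (k1 + 2 * s)) := by positivity
        linarith
      · have hbig : (C : ℝ) + 1 ≤
            (((crs idx σ k1 : ℝ) + crs idx σ (k1 + s)) + crs idx σ (k1 + 2 * s)) := by
          have : C + 1 ≤ crs idx σ k1 + crs idx σ (k1 + s) + crs idx σ (k1 + 2 * s) := by
            by_contra hcon
            apply hclose
            omega
          exact_mod_cast this
        have h3 : 1 ≤ 1 / ((C : ℝ) + 1) *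
          (((crs idx σ k1 : ℝ) + crs idx σ (k1 + s)) + crs idx σ (k1 + 2 * s)) := by
          rw [one_div, inv_mul_eq_div, le_div_iff₀ hCpos]
          linarith
        have := BFT.ind_nonneg ((BFT.KSW.nD (D : Set P) σ k1 ≤ mu idx D k1 + C ∧
        mu idx D k1 ≤ BFT.KSW.nD (D : Set P) σ k1 + C) ∧
      (BFT.KSW.nD (D : Set P) σ (k1 + s) ≤ mu idx D (k1 + s) + C ∧
        mu idx D (k1 + s) ≤ BFT.KSW.nD (D : Set P) σ (k1 + s) + C) ∧
      (BFT.KSW.nD (D : Set P) σ (k1 + 2 * s) ≤ mu idx D (k1 + 2 * s) + C ∧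
        mu idx D (k1 + 2 * s) ≤ BFT.KSW.nD (D : Set P) σ (k1 + 2 * s) + C))
        linarith
    refine le_trans ?_ key
    rw [Ex_add (fun _ => (1 : ℝ)) (fun σ : BFT.LE P => (-(1 / ((C : ℝ) + 1))) *
        (((crs idx σ k1 : ℝ) + crs idx σ (k1 + s)) + crs idx σ (k1 + 2 * s))), Ex_const, Ex_mul,
      Ex_add (fun σ : BFT.LE P => (crs idx σ k1 : ℝ) + crs idx σ (k1 + s))
        (fun σ : BFT.LE P => (crs idx σ (k1 + 2 * s) : ℝ)), Ex_add]
    have h6 : 1 / ((C : ℝ) + 1) * (6 * C3) ≤ 1 / 4 := by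
      rw [one_div, inv_mul_eq_div, div_le_iff₀ hCpos]
      linarith
    have h7 : 1 / ((C : ℝ) + 1) * ((Ex (fun σ : BFT.LE P => (crs idx σ k1 : ℝ)) +
        Ex (fun σ : BFT.LE P => (crs idx σ (k1 + s) : ℝ))) +
        Ex (fun σ : BFT.LE P => (crs idx σ (k1 + 2 * s) : ℝ))) ≤ 1 / ((C : ℝ) + 1) * (6 * C3) :=
      mul_le_mul_of_nonneg_left (by linarith) (by positivity)
    linarith
  · rw [hw']
    rw [hw] at h1
    nlinarith
  · rw [hw']
    rw [hw] at h2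
    nlinarith

end Pool.Agent.Thin
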