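import Pool.Agent.Lib_MP_33fb9b_ks.UpDown
import Pool.Agent.Lib_MP_33fb9b_ks.Conc

set_option autoImplicit false

/-!
# B6: localised posets are thin
-/

namespace Pool.Agent.Thin

open Finset Pool.Agent.BFT

variable {P : Type} [Fintype P] [PartialOrder P] {idx : P → ℕ}

/-- elements of `D` with index in `[k, l)` -/
def win (idx : P → ℕ) (D : Finset P) (k l : ℕ) : Finset P :=
  D.filter (fun v => k ≤ idx v ∧ idx v < l)

omit [Fintype P] [PartialOrder P] in
theorem mu_add_win (D : Finset P) {k l : ℕ} (hkl : k ≤ l) :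
    mu idx D l = mu idx D k + (win idx D k l).card := by
  classical
  unfold mu win
  rw [← Finset.card_union_of_disjoint]
  · congr 1
    ext v
    simp only [Finset.mem_filter, Finset.mem_union]
    constructor
    · rintro ⟨h1, h2⟩
      by_cases h : idx v < k
      · exact Or.inl ⟨h1, h⟩
      · exact Or.inr ⟨h1, by omega, h2⟩
    · rintro (⟨h1, h2⟩ | ⟨h1, h2, h3⟩)
      · exact ⟨h1, by omega⟩
      · exact ⟨h1, h3⟩
  · rw [Finset.disjoint_left]
    intro v h1 h2
    simp only [Finset.mem_filter] at h1 h2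
    omega

omit [Fintype P] [PartialOrder P] in
theorem win_card_le (hinj : Function.Injective idx) (D : Finset P) (k l : ℕ) :
    (win idx D k l).card ≤ l - k := by
  rw [← Nat.card_Ico]
  apply Finset.card_le_card_of_injOn idx
  · intro v hv
    have hv' : v ∈ win idx D k l := hv
    unfold win at hv'
    rw [Finset.mem_filter] at hv'
    simp [hv'.2.1, hv'.2.2]
  · exact hinj.injOn

omit [Fintype P] [PartialOrder P] in
/-- a set which meets each of `t` consecutive windows of length `K` has at least `t` elements in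
their union -/
theorem le_win_card (D : Finset P) (k K t : ℕ)
    (h : ∀ r, r < t → ∃ v ∈ D, k + r * K ≤ idx v ∧ idx v < k + (r + 1) * K) :
    t ≤ (win idx D k (k + t * K)).card := by
  classical
  induction t with
  | zero => simp
  | succ t ih =>
    have h1 := ih (fun r hr => h r (by omega))
    obtain ⟨v, hv, hv1, hv2⟩ := h t (by omega)
    have h2 : insert v (win idx D k (k + t * K)) ⊆ win idx D k (k + (t + 1) * K) := by
      intro w hw
      rw [Finset.mem_insert] at hw
      simp only [win, Finset.mem_filter] at hw ⊢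
      have : t * K ≤ (t + 1) * K := Nat.mul_le_mul_right _ (by omega)
      rcases hw with hw | hw
      · subst hw
        exact ⟨hv, by omega, hv2⟩
      · exact ⟨hw.1, hw.2.1, by omega⟩
    have h3 : v ∉ win idx D k (k + t * K) := by
      simp only [win, Finset.mem_filter, not_and, not_lt]
      intro _ _
      exact hv1
    have h4 := Finset.card_le_card h2
    rw [Finset.card_insert_of_notMem h3] at h4
    omega

/-- an up-set meets all the windows -/
theorem dense_up (hmono : ∀ u v : P, u < v → idx u < idx v) {K : ℕ}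
    (hup : ∀ u : P, idx u + K < Fintype.card P → ∃ v, u < v ∧ idx v ≤ idx u + K) (x : P) (k : ℕ)
    (hk : idx x ≤ k) (hk2 : k + K < Fintype.card P) :
    ∃ v, x ≤ v ∧ k < idx v ∧ idx v ≤ k + K := by
  classical
  obtain ⟨v, hv, hmax⟩ := Finset.exists_max_image
    (Finset.univ.filter (fun v : P => x ≤ v ∧ idx v ≤ k)) idx ⟨x, by simp [hk]⟩
  rw [Finset.mem_filter] at hv
  obtain ⟨v', h1, h2⟩ := hup v (by omega)
  refine ⟨v', le_trans hv.2.1 h1.le, ?_, by omega⟩
  by_contra hcon
  push Not at hcon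
  have h3 := hmax v' (by
    rw [Finset.mem_filter]
    exact ⟨Finset.mem_univ _, le_trans hv.2.1 h1.le, hcon⟩)
  have h4 := hmono v v' h1
  omega

/-- a down-set meets all the windows -/
theorem dense_down (hmono : ∀ u v : P, u < v → idx u < idx v) {K : ℕ}
    (hdown : ∀ u : P, K ≤ idx u → ∃ v, v < u ∧ idx u ≤ idx v + K) (z : P) (k : ℕ)
    (hk : k ≤ idx z) (hk2 : K ≤ k) :
    ∃ v, v ≤ z ∧ k ≤ idx v + K ∧ idx v < k := by
  classical
  obtain ⟨v, hv, hmin⟩ := Finset.exists_min_image
    (Finset.univ.filter (fun v : P => v ≤ z ∧ k ≤ idx v)) idx ⟨z, by simp [hk]⟩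
  rw [Finset.mem_filter] at hv
  obtain ⟨v', h1, h2⟩ := hdown v (by omega)
  refine ⟨v', le_trans h1.le hv.2.1, by omega, ?_⟩
  by_contra hcon
  push Not at hcon
  have h3 := hmin v' (by
    rw [Finset.mem_filter]
    exact ⟨Finset.mem_univ _, le_trans h1.le hv.2.1, hcon⟩)
  have h4 := hmono v' v h1
  omega

/-- GOAL B -/
theorem goalB (K2 C3 : ℝ) : ∃ M : ℕ, ∀ (P : Type) [Fintype P] [PartialOrder P] (idx : P → ℕ),
    Loc P idx K2 C3 → ∀ x z : P, ¬ x ≤ z → ¬ z ≤ x → idx x < idx z → idx z ≤ idx x + M := by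
  classical
  obtain ⟨Ku, hKu1, hKu⟩ := exists_up K2 C3
  obtain ⟨Kd, hKd1, hKd⟩ := exists_down K2 C3
  obtain ⟨K, hK1, hKKu, hKKd⟩ : ∃ K : ℕ, 1 ≤ K ∧ Ku ≤ K ∧ Kd ≤ K :=
    ⟨max Ku Kd, le_trans hKu1 (le_max_left _ _), le_max_left _ _, le_max_right _ _⟩
  obtain ⟨s0, hs0⟩ := concave K2 C3 K hK1
  obtain ⟨s', hs'1, hs'⟩ : ∃ s' : ℕ, 1 ≤ s' ∧ s0 ≤ s' := ⟨s0 + 1, by omega, by omega⟩
  obtain ⟨s, hs⟩ : ∃ s : ℕ, s = s' * K := ⟨_, rfl⟩
  have hss : s0 ≤ s := by
    rw [hs]
    nlinarith
  have hs1 : 1 ≤ s := by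
    rw [hs]
    nlinarith
  refine ⟨(s + 2) * s + 1, ?_⟩
  intro P _ _ idx hL x z hxz hzx hidx
  by_contra hcon
  push Not at hcon
  have hup : ∀ u : P, idx u + K < Fintype.card P → ∃ v, u < v ∧ idx v ≤ idx u + K := by
    intro u hu
    obtain ⟨v, h1, h2⟩ := hKu P idx hL u (by omega)
    exact ⟨v, h1, by omega⟩
  have hdown : ∀ u : P, K ≤ idx u → ∃ v, v < u ∧ idx u ≤ idx v + K := by
    intro u hu
    obtain ⟨v, h1, h2⟩ := hKd P idx hL u (by omega)
    exact ⟨v, h1, by omega⟩
  have hzc := hL.lt_card z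
  -- the down-set
  obtain ⟨D, hD⟩ : ∃ D : Finset P, ∀ v, v ∈ D ↔ v ≤ z :=
    ⟨Finset.univ.filter (fun v => v ≤ z), fun v => by simp⟩
  have hDl : IsLowerSet (D : Set P) := by
    intro a b hba ha
    have ha' : a ≤ z := (hD a).mp ha
    exact (hD b).mpr (le_trans hba ha')
  obtain ⟨U, hU⟩ : ∃ U : Finset P, ∀ v, v ∈ U ↔ x ≤ v :=
    ⟨Finset.univ.filter (fun v => x ≤ v), fun v => by simp⟩
  have hdisj : Disjoint D U := by
    rw [Finset.disjoint_left]
    intro v h1 h2
    exact hxz (le_trans ((hU v).mp h2) ((hD v).mp h1))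
  -- windows inside the interval
  have hwin : ∀ k, idx x + 1 ≤ k → k + 2 * s ≤ idx z →
      mu idx D k + mu idx D (k + 2 * s) + 2 ≤ 2 * mu idx D (k + s) := by
    intro k hk1 hk2
    have hwD : 2 * s' ≤ (win idx D k (k + 2 * s' * K)).card := by
      apply le_win_card
      intro r hr
      have hr2 : (r + 1) * K ≤ 2 * s' * K := Nat.mul_le_mul_right _ hr
      have hr3 : 2 * s' * K = 2 * s := by rw [hs]; ring
      obtain ⟨v, hv1, hv2, hv3⟩ := dense_down hL.mono hdown z (k + (r + 1) * K) (by omega)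
        (by nlinarith)
      refine ⟨v, (hD v).mpr hv1, ?_, hv3⟩
      have : (r + 1) * K = r * K + K := by ring
      omega
    have hwU : 2 * s' ≤ (win idx U k (k + 2 * s' * K)).card := by
      apply le_win_card
      intro r hr
      have hr2 : (r + 1) * K ≤ 2 * s' * K := Nat.mul_le_mul_right _ hr
      have hr3 : 2 * s' * K = 2 * s := by rw [hs]; ring
      have hr4 : (r + 1) * K = r * K + K := by ring
      obtain ⟨v, hv1, hv2, hv3⟩ := dense_up hL.mono hup x (k + r * K - 1) (by omega)
        (by omega)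
      exact ⟨v, (hU v).mpr hv1, by omega, by omega⟩
    have hr3 : 2 * s' * K = 2 * s := by rw [hs]; ring
    rw [hr3] at hwD hwU
    have hDU : (win idx D k (k + 2 * s)).card + (win idx U k (k + 2 * s)).card ≤ 2 * s := by
      have h1 : Disjoint (win idx D k (k + 2 * s)) (win idx U k (k + 2 * s)) :=
        Finset.disjoint_of_subset_left (Finset.filter_subset _ _)
          (Finset.disjoint_of_subset_right (Finset.filter_subset _ _) hdisj)
      rw [← Finset.card_union_of_disjoint h1]
      have h2 : win idx D k (k + 2 * s) ∪ win idx U k (k + 2 * s) ⊆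
          win idx (D ∪ U) k (k + 2 * s) := by
        intro v hv
        simp only [win, Finset.mem_union, Finset.mem_filter] at hv ⊢
        tauto
      have h3 := win_card_le hL.inj (D ∪ U) k (k + 2 * s)
      have h4 := Finset.card_le_card h2
      omega
    have hmu := mu_add_win (idx := idx) D (show k ≤ k + 2 * s by omega)
    apply hs0 P idx hL D hDl k s hss (by omega)
    · have h5 : s ≤ (win idx D k (k + 2 * s)).card * K := by
        have h6 : 2 * s' * K ≤ (win idx D k (k + 2 * s)).card * K := Nat.mul_le_mul_right _ hwD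
        omega
      rw [hmu, add_mul]
      omega
    · have h5 : s ≤ (win idx U k (k + 2 * s)).card * K := by
        have h6 : 2 * s' * K ≤ (win idx U k (k + 2 * s)).card * K := Nat.mul_le_mul_right _ hwU
        omega
      have h7 : ((win idx D k (k + 2 * s)).card + (win idx U k (k + 2 * s)).card) * K ≤
          2 * s * K := Nat.mul_le_mul_right _ hDU
      rw [add_mul] at h7
      rw [hmu, add_mul, add_mul]
      omega
  -- the concave sequence
  obtain ⟨k0, hk0⟩ : ∃ k0, k0 = idx x + 1 := ⟨_, rfl⟩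
  obtain ⟨y, hy⟩ : ∃ y : ℕ → ℤ, ∀ r, y r = (mu idx D (k0 + r * s) : ℤ) := ⟨_, fun _ => rfl⟩
  have hend : k0 + (s + 2) * s ≤ idx z := by omega
  have hconc : ∀ r, r < s + 1 → y r + y (r + 2) + 2 ≤ 2 * y (r + 1) := by
    intro r hr
    have h1 : (r + 2) * s ≤ (s + 2) * s := Nat.mul_le_mul_right _ (by omega)
    have h2 : (r + 2) * s = r * s + 2 * s := by ring
    have h3 : (r + 1) * s = r * s + s := by ring
    have h4 := hwin (k0 + r * s) (by omega) (by omega)
    rw [hy, hy, hy, h2, h3]
    rw [show k0 + (r * s + 2 * s) = k0 + r * s + 2 * s by ring,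
      show k0 + (r * s + s) = k0 + r * s + s by ring]
    exact_mod_cast h4
  have hstep : ∀ r, 0 ≤ y (r + 1) - y r ∧ y (r + 1) - y r ≤ s := by
    intro r
    have h3 : (r + 1) * s = r * s + s := by ring
    have h4 := mu_add_win (idx := idx) D (show k0 + r * s ≤ k0 + (r + 1) * s by omega)
    have h5 := win_card_le hL.inj D (k0 + r * s) (k0 + (r + 1) * s)
    rw [hy, hy]
    omega
  have hdec : ∀ r, r < s + 2 → y (r + 1) - y r + 2 * r ≤ y 1 - y 0 := by
    intro r
    induction r with
    | zero => intro _; simp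
    | succ r ih =>
      intro hr
      have h1 := ih (by omega)
      have h2 := hconc r (by omega)
      push_cast
      have h3 : r + 1 + 1 = r + 2 := by ring
      rw [h3]
      linarith
  have h1 := hdec (s + 1) (by omega)
  have h2 := (hstep (s + 1)).1
  have h3 := (hstep 0).2
  push_cast at h1
  simp only [zero_add] at h3
  omega

end Pool.Agent.Thin
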