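import Pool.Agent.Lib_MP_33fb9b_ks.Defs

set_option autoImplicit false

/-!
# S1: first identities for a random permutation
-/

namespace Pool.Agent.Thin.RP

open Finset

variable {n : ℕ} (X : RP n)

/-- the places are a permutation of `range n` -/
theorem image_h (ω : X.Om) : (range n).image (X.h ω) = range n := by
  apply Finset.eq_of_subset_of_card_le
  · intro k hk
    rw [mem_image] at hk
    obtain ⟨j, hj, rfl⟩ := hk
    rw [mem_range] at hj ⊢
    exact X.hlt ω j hj
  · rw [card_image_of_injOn]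
    intro a ha b hb hab
    have ha' : a < n := mem_range.mp (mem_coe.mp ha)
    have hb' : b < n := mem_range.mp (mem_coe.mp hb)
    exact X.hinj ω a b ha' hb' hab

/-- exactly `h_i` items have a smaller place than item `i` -/
theorem card_below (ω : X.Om) {i : ℕ} (hi : i < n) :
    ((range n).filter (fun j => X.h ω j < X.h ω i)).card = X.h ω i := by
  have h1 : ((range n).filter (fun j => X.h ω j < X.h ω i)).image (X.h ω)
      = range (X.h ω i) := by
    ext k
    rw [mem_image, mem_range]
    constructor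
    · rintro ⟨j, hj, rfl⟩
      exact (mem_filter.mp hj).2
    · intro hk
      have hk' : k ∈ (range n).image (X.h ω) := by
        rw [X.image_h ω, mem_range]
        exact hk.trans (X.hlt ω i hi)
      obtain ⟨j, hj, rfl⟩ := mem_image.mp hk'
      exact ⟨j, mem_filter.mpr ⟨hj, hk⟩, rfl⟩
  have h2 : (((range n).filter (fun j => X.h ω j < X.h ω i)).image (X.h ω)).card
      = ((range n).filter (fun j => X.h ω j < X.h ω i)).card := by
    apply card_image_of_injOn
    intro a ha b hb hab
    have ha' : a < n := mem_range.mp (mem_filter.mp (mem_coe.mp ha)).1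
    have hb' : b < n := mem_range.mp (mem_filter.mp (mem_coe.mp hb)).1
    exact X.hinj ω a b ha' hb' hab
  rw [← h2, h1, card_range]

/-- pointwise: `h_i - i = #{j > i : h_j < h_i} - #{j < i : h_i < h_j}` -/
theorem h_sub_self (ω : X.Om) {i : ℕ} (hi : i < n) :
    ((X.h ω i : ℝ) - i) = (((Ico (i + 1) n).filter (fun j => X.h ω j < X.h ω i)).card : ℝ)
      - (((range i).filter (fun j => X.h ω i < X.h ω j)).card : ℝ) := by
  have h1 := X.card_below ω hi
  have h2 : (range n).filter (fun j => X.h ω j < X.h ω i)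
      = (range i).filter (fun j => X.h ω j < X.h ω i)
        ∪ (Ico (i + 1) n).filter (fun j => X.h ω j < X.h ω i) := by
    ext j
    simp only [mem_union, mem_filter, mem_range, mem_Ico]
    constructor
    · rintro ⟨hj, hlt⟩
      rcases lt_trichotomy j i with h | h | h
      · exact Or.inl ⟨h, hlt⟩
      · exact absurd hlt (by rw [h]; exact lt_irrefl _)
      · exact Or.inr ⟨⟨h, hj⟩, hlt⟩
    · rintro (⟨hj, hlt⟩ | ⟨⟨hj, hj'⟩, hlt⟩)
      · exact ⟨hj.trans hi, hlt⟩
      · exact ⟨hj', hlt⟩
  have h3 : Disjoint ((range i).filter (fun j => X.h ω j < X.h ω i))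
      ((Ico (i + 1) n).filter (fun j => X.h ω j < X.h ω i)) := by
    rw [Finset.disjoint_left]
    intro j hj hj'
    have a1 := mem_range.mp (mem_filter.mp hj).1
    have a2 := (mem_Ico.mp (mem_filter.mp hj').1).1
    omega
  rw [h2, card_union_of_disjoint h3] at h1
  have h4 : ((range i).filter (fun j => X.h ω j < X.h ω i)).card
      + ((range i).filter (fun j => X.h ω i < X.h ω j)).card = i := by
    have h5 : (range i).filter (fun j => X.h ω i < X.h ω j)
        = (range i).filter (fun j => ¬ X.h ω j < X.h ω i) := by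
      apply filter_congr
      intro j hj
      have hj' : j < i := mem_range.mp hj
      have := X.h_ne (ω := ω) (hj'.trans hi) hi hj'.ne
      omega
    rw [h5, card_filter_add_card_filter_not, card_range]
  have h6 : (X.h ω i : ℝ) = (((range i).filter (fun j => X.h ω j < X.h ω i)).card : ℝ)
      + (((Ico (i + 1) n).filter (fun j => X.h ω j < X.h ω i)).card : ℝ) := by
    exact_mod_cast h1.symm
  have h7 : (i : ℝ) = (((range i).filter (fun j => X.h ω j < X.h ω i)).card : ℝ)
      + (((range i).filter (fun j => X.h ω i < X.h ω j)).card : ℝ) := by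
    exact_mod_cast h4.symm
  linarith

theorem E_card_later (i : ℕ) :
    X.E (fun ω => (((Ico (i + 1) n).filter (fun j => X.h ω j < X.h ω i)).card : ℝ))
      = X.qp i := by
  rw [X.E_card (Ico (i + 1) n) (fun ω j => X.h ω j < X.h ω i)]
  rfl

theorem E_card_earlier (i : ℕ) :
    X.E (fun ω => (((range i).filter (fun j => X.h ω i < X.h ω j)).card : ℝ))
      = X.qm i := by
  rw [X.E_card (range i) (fun ω j => X.h ω i < X.h ω j)]
  rfl

/-- `u_i = q⁺_i - q⁻_i` -/
theorem u_eq {i : ℕ} (hi : i < n) : X.u i = X.qp i - X.qm i := by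
  rw [← X.E_card_later i, ← X.E_card_earlier i, ← X.E_sub]
  rw [← X.E_congr (fun ω => X.h_sub_self ω hi), X.E_sub, X.E_const]
  rfl

/-- `E |h_i - i| ≤ q_i` -/
theorem E_abs_le {i : ℕ} (hi : i < n) : X.E (fun ω => |(X.h ω i : ℝ) - i|) ≤ X.q i := by
  unfold q
  rw [← X.E_card_later i, ← X.E_card_earlier i, ← X.E_add]
  apply X.E_mono
  intro ω
  rw [X.h_sub_self ω hi]
  have h1 : (0 : ℝ) ≤ (((Ico (i + 1) n).filter (fun j => X.h ω j < X.h ω i)).card : ℝ) :=
    Nat.cast_nonneg _
  have h2 : (0 : ℝ) ≤ (((range i).filter (fun j => X.h ω i < X.h ω j)).card : ℝ) :=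
    Nat.cast_nonneg _
  rw [abs_le]
  constructor <;> linarith

theorem u_zero_nonneg (hn : 0 < n) : 0 ≤ X.u 0 := by
  have _ := hn
  unfold u m
  rw [Nat.cast_zero, sub_zero]
  exact X.E_nonneg fun ω => Nat.cast_nonneg _

theorem u_last_nonpos {i : ℕ} (hi : i + 1 = n) : X.u i ≤ 0 := by
  have h1 : X.m i ≤ i := by
    unfold m
    have h2 : X.E (fun ω => (X.h ω i : ℝ)) ≤ X.E (fun _ => (i : ℝ)) := by
      apply X.E_mono
      intro ω
      have h3 := X.hlt ω i (by omega)
      have h4 : X.h ω i ≤ i := by omega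
      exact_mod_cast h4
    rwa [X.E_const] at h2
  unfold u
  linarith

theorem u_le_qp {i : ℕ} (hi : i < n) : X.u i ≤ X.qp i := by
  rw [X.u_eq hi]
  linarith [X.qm_nonneg i]

/-- pointwise identity for the sum of both orders -/
theorem p_add {i j : ℕ} (hi : i < n) (hj : j < n) (hij : i ≠ j) : X.p i j + X.p j i = 1 := by
  have h1 : X.p j i = X.Pr (fun ω => ¬ X.h ω j < X.h ω i) := by
    unfold p
    apply X.Pr_congr
    intro ω
    have := X.h_ne (ω := ω) hi hj hij
    omega
  rw [h1, X.Pr_not]
  unfold p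
  ring

/-- total energy of a set of items -/
theorem sum_eR_le {c C : ℝ} (hX : X.Good c C) (s : Finset ℕ) (hs : ∀ i ∈ s, i < n) (a b : ℝ) :
    ∑ i ∈ s, X.eR i a b ≤ (s.card : ℝ) / c := by
  have h1 : ∀ i ∈ s, X.eR i a b ≤ 1 / c := by
    intro i hi
    refine le_trans ?_ (hX.a4 i (hs i hi))
    unfold eR
    exact Finset.sum_le_sum_of_subset_of_nonneg (filter_subset _ _) fun j _ _ => X.e_nonneg i j
  calc ∑ i ∈ s, X.eR i a b ≤ ∑ _i ∈ s, 1 / c := Finset.sum_le_sum h1
    _ = (s.card : ℝ) / c := by
      rw [Finset.sum_const, nsmul_eq_mul, mul_one_div]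

/-- negative parts along a path: `neg i j ≤` sum over the steps -/
theorem neg_path (a : ℕ → ℕ) (M : ℕ) :
    X.neg (a 0) (a M) ≤ ∑ r ∈ range M, X.neg (a r) (a (r + 1)) := by
  induction M with
  | zero => rw [X.neg_self, range_zero, sum_empty]
  | succ M ih =>
    rw [sum_range_succ]
    exact (X.neg_triangle (a 0) (a M) (a (M + 1))).trans (by linarith)

end Pool.Agent.Thin.RP
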