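import Pool.Agent.Lib_MP_33fb9b_ks.LocDefs

set_option autoImplicit false

/-!
# B1: cuts
-/

namespace Pool.Agent.Thin

open Finset Pool.Agent.BFT

variable {P : Type} [Fintype P] [PartialOrder P] {idx : P → ℕ} {K2 C3 : ℝ}

omit [PartialOrder P] in
private theorem card_below (f : P → ℕ) (hf : Function.Injective f)
    (hlt : ∀ v, f v < Fintype.card P) (k : ℕ) :
    (univ.filter (fun v : P => f v < k)).card =
      ((range (Fintype.card P)).filter (fun i => i < k)).card := by
  classical
  have h1 : (univ : Finset P).image f = range (Fintype.card P) := by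
    apply Finset.eq_of_subset_of_card_le
    · intro i hi
      obtain ⟨v, _, rfl⟩ := Finset.mem_image.1 hi
      exact Finset.mem_range.2 (hlt v)
    · rw [Finset.card_image_of_injective _ hf, Finset.card_range, Finset.card_univ]
  rw [← h1, ← Finset.card_image_of_injective (univ.filter (fun v : P => f v < k)) hf]
  congr 1
  ext i
  simp only [Finset.mem_image, Finset.mem_filter, Finset.mem_univ, true_and]
  constructor
  · rintro ⟨v, hv, rfl⟩
    exact ⟨⟨v, rfl⟩, hv⟩
  · rintro ⟨⟨v, rfl⟩, hv⟩
    exact ⟨v, hv, rfl⟩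

/-- `crs` counts the upward crossings as well -/
theorem crs_eq (hL : Loc P idx K2 C3) (σ : BFT.LE P) (k : ℕ) :
    crs idx σ k = (univ.filter (fun v : P => idx v < k ∧ k ≤ pos σ v)).card := by
  classical
  have h1 := card_below idx hL.inj hL.lt_card k
  have h2 := card_below (pos σ) (fun u v h => pos_inj h) (pos_lt_card σ) k
  have h3 : (univ.filter (fun v : P => idx v < k)).card =
      (univ.filter (fun v : P => idx v < k ∧ pos σ v < k)).card +
      (univ.filter (fun v : P => idx v < k ∧ k ≤ pos σ v)).card := by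
    rw [← Finset.card_union_of_disjoint]
    · congr 1
      ext v
      simp only [Finset.mem_union, Finset.mem_filter, Finset.mem_univ, true_and]
      omega
    · rw [Finset.disjoint_left]
      intro v
      simp only [Finset.mem_filter, Finset.mem_univ, true_and]
      omega
  have h4 : (univ.filter (fun v : P => pos σ v < k)).card =
      (univ.filter (fun v : P => idx v < k ∧ pos σ v < k)).card + crs idx σ k := by
    unfold crs
    rw [← Finset.card_union_of_disjoint]
    · congr 1
      ext v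
      simp only [Finset.mem_union, Finset.mem_filter, Finset.mem_univ, true_and]
      omega
    · rw [Finset.disjoint_left]
      intro v
      simp only [Finset.mem_filter, Finset.mem_univ, true_and]
      omega
  omega

theorem crs_sq_le (hL : Loc P idx K2 C3) (σ : BFT.LE P) (k : ℕ) :
    crs idx σ k ^ 2 ≤ invs idx σ k := by
  classical
  rw [sq]
  nth_rw 1 [crs_eq hL σ k]
  unfold crs invs
  rw [← Finset.card_product]
  apply Finset.card_le_card
  rintro ⟨u, v⟩ h
  simp only [Finset.mem_product, Finset.mem_filter, Finset.mem_univ, true_and] at h ⊢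
  omega

private theorem sum_cube (n : ℕ) : ∑ R ∈ range (n + 2), (R : ℝ) * (1 / (R : ℝ) ^ 4) ≤
    2 - 1 / ((n : ℝ) + 1) := by
  induction n with
  | zero =>
    simp [Finset.sum_range_succ]
    norm_num
  | succ n ih =>
    rw [Finset.sum_range_succ]
    have h1 : ((n + 2 : ℕ) : ℝ) * (1 / ((n + 2 : ℕ) : ℝ) ^ 4) ≤
        1 / ((n : ℝ) + 1) - 1 / ((n : ℝ) + 2) := by
      push_cast
      have hn : (0 : ℝ) ≤ n := Nat.cast_nonneg n
      rw [div_sub_div _ _ (by positivity) (by positivity), mul_one_div, div_le_div_iff₀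
        (by positivity) (by positivity)]
      have : ((n : ℝ) + 2) ^ 4 * 1 - (n + 2) * ((n + 1) * (n + 2)) =
          (n + 2) ^ 2 * ((n + 2) ^ 2 - (n + 1)) := by ring
      nlinarith [sq_nonneg ((n : ℝ) + 2), mul_nonneg (sq_nonneg ((n : ℝ) + 2))
        (show (0 : ℝ) ≤ (n + 2) ^ 2 - (n + 1) by nlinarith)]
    have h2 : (1 : ℝ) / (((n + 1 : ℕ) : ℝ) + 1) = 1 / ((n : ℝ) + 2) := by
      push_cast; ring_nf
    rw [h2]
    have : n + 1 + 1 = n + 2 := rfl
    linarith

private theorem sum_cube' (n : ℕ) : ∑ R ∈ range n, (R : ℝ) * (1 / (R : ℝ) ^ 4) ≤ 2 := by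
  have h1 : ∑ R ∈ range n, (R : ℝ) * (1 / (R : ℝ) ^ 4) ≤
      ∑ R ∈ range (n + 2), (R : ℝ) * (1 / (R : ℝ) ^ 4) := by
    apply Finset.sum_le_sum_of_subset_of_nonneg
    · intro i hi
      rw [Finset.mem_range] at hi ⊢
      omega
    · intro i _ _
      positivity
  have h2 := sum_cube n
  have h3 : (0 : ℝ) ≤ 1 / ((n : ℝ) + 1) := by positivity
  linarith

theorem Ex_invs_le (hL : Loc P idx K2 C3) (k : ℕ) :
    Ex (fun σ : BFT.LE P => (invs idx σ k : ℝ)) ≤ 2 * C3 := by
  classical
  let W : Finset (P × P) := univ.filter (fun w : P × P => idx w.1 < k ∧ k ≤ idx w.2)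
  have h1 : Ex (fun σ : BFT.LE P => (invs idx σ k : ℝ)) = ∑ w ∈ W, BFT.lt w.2 w.1 := by
    unfold BFT.lt Pr
    rw [← Ex_sum]
    apply Ex_congr
    intro σ
    unfold invs
    rw [Finset.card_eq_sum_ones, Finset.sum_filter, Finset.sum_filter]
    push_cast
    apply Finset.sum_congr rfl
    intro w _
    by_cases hw : idx w.1 < k ∧ k ≤ idx w.2
    · rw [if_pos hw]
      by_cases hp : pos σ w.2 < pos σ w.1
      · rw [if_pos ⟨hw.1, hw.2, hp⟩, ind_true hp]
      · rw [if_neg (fun h => hp h.2.2), ind_false hp]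
    · rw [if_neg hw, if_neg (fun h => hw ⟨h.1, h.2.1⟩)]
  rw [h1]
  have h2 : ∀ w ∈ W, BFT.lt w.2 w.1 ≤
      C3 * (1 / (((idx w.2 - idx w.1 : ℕ) : ℝ)) ^ 4) := by
    intro w hw
    simp only [W, Finset.mem_filter, Finset.mem_univ, true_and] at hw
    have hlt : idx w.1 < idx w.2 := by omega
    have h3 := hL.tail w.1 w.2 hlt
    rw [← Nat.cast_sub hlt.le] at h3
    have h4 : (0 : ℝ) < ((idx w.2 - idx w.1 : ℕ) : ℝ) := by
      exact_mod_cast Nat.sub_pos_of_lt hlt
    rw [mul_one_div, le_div_iff₀ (by positivity)]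
    exact h3
  refine (Finset.sum_le_sum h2).trans ?_
  rw [← Finset.mul_sum, mul_comm 2 C3]
  apply mul_le_mul_of_nonneg_left _ (by linarith [hL.hC3])
  let φ : P × P → ℕ × ℕ := fun w => (idx w.2 - idx w.1, k - 1 - idx w.1)
  have hinj : Set.InjOn φ W := by
    rintro ⟨u, v⟩ hu ⟨u', v'⟩ hu' h
    simp only [W, Finset.coe_filter, Finset.mem_univ, true_and, Set.mem_ofPred_eq] at hu hu'
    simp only [φ, Prod.mk.injEq] at h
    have e1 : idx u = idx u' := by omega
    have e2 : idx v = idx v' := by omega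
    rw [hL.inj e1, hL.inj e2]
  have h5 : ∑ w ∈ W, (1 / (((idx w.2 - idx w.1 : ℕ) : ℝ)) ^ 4) =
      ∑ z ∈ W.image φ, (1 / ((z.1 : ℕ) : ℝ) ^ 4) := by
    rw [Finset.sum_image hinj]
  rw [h5]
  let n := Fintype.card P
  have h6 : W.image φ ⊆ (range n ×ˢ range n).filter (fun z => z.2 < z.1) := by
    intro z hz
    obtain ⟨w, hw, rfl⟩ := Finset.mem_image.1 hz
    simp only [W, Finset.mem_filter, Finset.mem_univ, true_and] at hw
    have := hL.lt_card w.2
    simp only [φ, Finset.mem_filter, Finset.mem_product, Finset.mem_range, n]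
    omega
  refine (Finset.sum_le_sum_of_subset_of_nonneg h6 (fun z _ _ => by positivity)).trans ?_
  rw [Finset.sum_filter, Finset.sum_product]
  refine le_trans (Finset.sum_le_sum (fun R hR => ?_)) (sum_cube' n)
  rw [← Finset.sum_filter]
  dsimp only
  rw [Finset.sum_const, nsmul_eq_mul]
  apply mul_le_mul_of_nonneg_right _ (by positivity)
  have h7 : ((range n).filter (fun a => a < R)).card ≤ R := by
    refine (Finset.card_le_card (t := range R) ?_).trans (by rw [Finset.card_range])
    intro a ha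
    rw [Finset.mem_filter] at ha
    exact Finset.mem_range.2 ha.2
  exact_mod_cast h7

theorem Ex_crs_le (hL : Loc P idx K2 C3) (k : ℕ) :
    Ex (fun σ : BFT.LE P => (crs idx σ k : ℝ)) ≤ 2 * C3 := by
  refine le_trans (Ex_mono fun σ => ?_) (Ex_invs_le hL k)
  have h1 := crs_sq_le hL σ k
  have h2 : crs idx σ k ≤ crs idx σ k ^ 2 := Nat.le_self_pow (by norm_num) _
  exact_mod_cast h2.trans h1

theorem cnt_sub_mu (hL : Loc P idx K2 C3) (σ : BFT.LE P) (D : Finset P) (k : ℕ) :
    |(cnt σ D k : ℝ) - mu idx D k| ≤ crs idx σ k := by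
  classical
  have h1 : mu idx D k = (D.filter (fun v : P => idx v < k ∧ pos σ v < k)).card +
      (D.filter (fun v : P => idx v < k ∧ k ≤ pos σ v)).card := by
    unfold mu
    rw [← Finset.card_union_of_disjoint]
    · congr 1
      ext v
      simp only [Finset.mem_union, Finset.mem_filter]
      constructor
      · rintro ⟨h, h'⟩
        by_cases hk : pos σ v < k
        · exact Or.inl ⟨h, h', hk⟩
        · exact Or.inr ⟨h, h', by omega⟩
      · rintro (⟨h, h', _⟩ | ⟨h, h', _⟩) <;> exact ⟨h, h'⟩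
    · rw [Finset.disjoint_left]
      intro v
      simp only [Finset.mem_filter]
      omega
  have h2 : cnt σ D k = (D.filter (fun v : P => idx v < k ∧ pos σ v < k)).card +
      (D.filter (fun v : P => k ≤ idx v ∧ pos σ v < k)).card := by
    unfold cnt
    rw [← Finset.card_union_of_disjoint]
    · congr 1
      ext v
      simp only [Finset.mem_union, Finset.mem_filter]
      constructor
      · rintro ⟨h, h'⟩
        by_cases hk : idx v < k
        · exact Or.inl ⟨h, hk, h'⟩
        · exact Or.inr ⟨h, by omega, h'⟩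
      · rintro (⟨h, _, h'⟩ | ⟨h, _, h'⟩) <;> exact ⟨h, h'⟩
    · rw [Finset.disjoint_left]
      intro v
      simp only [Finset.mem_filter]
      omega
  have h3 : (D.filter (fun v : P => idx v < k ∧ k ≤ pos σ v)).card ≤ crs idx σ k := by
    rw [crs_eq hL]
    exact Finset.card_le_card (Finset.filter_subset_filter _ (Finset.subset_univ D))
  have h4 : (D.filter (fun v : P => k ≤ idx v ∧ pos σ v < k)).card ≤ crs idx σ k :=
    Finset.card_le_card (Finset.filter_subset_filter _ (Finset.subset_univ D))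
  have h3' : (((D.filter (fun v : P => idx v < k ∧ k ≤ pos σ v)).card : ℕ) : ℝ) ≤
      crs idx σ k := by exact_mod_cast h3
  have h4' : (((D.filter (fun v : P => k ≤ idx v ∧ pos σ v < k)).card : ℕ) : ℝ) ≤
      crs idx σ k := by exact_mod_cast h4
  have h5 : (0 : ℝ) ≤ ((D.filter (fun v : P => idx v < k ∧ k ≤ pos σ v)).card : ℕ) :=
    Nat.cast_nonneg _
  have h6 : (0 : ℝ) ≤ ((D.filter (fun v : P => k ≤ idx v ∧ pos σ v < k)).card : ℕ) :=
    Nat.cast_nonneg _
  rw [h1, h2]
  push_cast
  rw [abs_le]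
  constructor <;> linarith

end Pool.Agent.Thin
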