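import Mathlib

set_option autoImplicit false

/-!
# A random permutation: expectations, inversion probabilities, mean places
(see `Blueprint.md`)
-/

namespace Pool.Agent.Thin

open Finset

/-- a random permutation of `{0, …, n-1}`: `h ω i` is the place of item `i` (only `i < n` matters) -/
structure RP (n : ℕ) where
  /-- sample space, with the uniform distribution -/
  Om : Type
  /-- finite -/
  fin : Fintype Om
  /-- nonempty -/
  ne : Nonempty Om
  /-- the place of item `i` -/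
  h : Om → ℕ → ℕ
  hlt : ∀ ω i, i < n → h ω i < n
  hinj : ∀ ω i j, i < n → j < n → h ω i = h ω j → i = j

namespace RP

variable {n : ℕ} (X : RP n)

instance instFintypeOm : Fintype X.Om := X.fin
instance instNonemptyOm : Nonempty X.Om := X.ne

open Classical in
/-- indicator of a proposition -/
noncomputable def ind (q : Prop) : ℝ := if q then 1 else 0

/-- expectation over the uniform distribution -/
noncomputable def E (f : X.Om → ℝ) : ℝ := (∑ ω, f ω) / (Fintype.card X.Om : ℝ)

/-- probability -/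
noncomputable def Pr (q : X.Om → Prop) : ℝ := X.E (fun ω => ind (q ω))

/-- `p i j = P (h_j < h_i)`; used for `i < j`: the probability of an inversion -/
noncomputable def p (i j : ℕ) : ℝ := X.Pr (fun ω => X.h ω j < X.h ω i)

/-- mean place of item `i` -/
noncomputable def m (i : ℕ) : ℝ := X.E (fun ω => (X.h ω i : ℝ))

/-- `neg i j = E (h_i - h_j)^+` -/
noncomputable def neg (i j : ℕ) : ℝ := X.E (fun ω => max ((X.h ω i : ℝ) - X.h ω j) 0)

/-- displacement of the mean -/
noncomputable def u (i : ℕ) : ℝ := X.m i - i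

/-- energy of a pair (symmetric; `0` on the diagonal) -/
noncomputable def e (i j : ℕ) : ℝ := X.p (min i j) (max i j) / |X.m i - X.m j|

/-- energy of `i` with the items at index distance in `[a, b]` -/
noncomputable def eR (i : ℕ) (a b : ℝ) : ℝ :=
  ∑ j ∈ (range n).filter (fun j : ℕ => a ≤ |(j : ℝ) - i| ∧ |(j : ℝ) - i| ≤ b), X.e i j

/-- expected number of inversions of `i` with later items -/
noncomputable def qp (i : ℕ) : ℝ := ∑ j ∈ Ico (i + 1) n, X.p i j

/-- expected number of inversions of `i` with earlier items -/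
noncomputable def qm (i : ℕ) : ℝ := ∑ j ∈ range i, X.p j i

/-- expected number of inversions of `i` -/
noncomputable def q (i : ℕ) : ℝ := X.qp i + X.qm i

/-- the four hypotheses (A1), (A3), (A4), (A5) of the blueprint -/
structure Good (c C : ℝ) : Prop where
  mono : ∀ i j, i < j → j < n → X.m i < X.m j
  a3 : ∀ i j, i < j → j < n → c * X.neg i j ≤ X.p i j * (X.m j - X.m i)
  a4 : ∀ i, i < n → ∑ j ∈ range n, X.e i j ≤ 1 / c
  a5 : ∀ (Q : ℝ) (i j : ℕ), 1 ≤ Q → i < j → j < n →
    X.E (fun ω => |(X.h ω i : ℝ) - i|) ≤ Q → X.E (fun ω => |(X.h ω j : ℝ) - j|) ≤ Q →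
    X.p i j * ((j : ℝ) - i) ^ 4 ≤ C * Q ^ 4

/-- the lower deviation property with slope `η` and constant `K` -/
def LDp (η K : ℝ) : Prop :=
  ∀ i j, i < j → j < n → -(η * ((j : ℝ) - i)) - K ≤ X.u j - X.u i

/-! ### indicators and expectations -/

theorem ind_true {q : Prop} (h : q) : ind q = 1 := by unfold ind; rw [if_pos h]
theorem ind_false {q : Prop} (h : ¬ q) : ind q = 0 := by unfold ind; rw [if_neg h]
theorem ind_nonneg (q : Prop) : 0 ≤ ind q := by unfold ind; split_ifs <;> norm_num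
theorem ind_le_one (q : Prop) : ind q ≤ 1 := by unfold ind; split_ifs <;> norm_num
theorem ind_mono {q r : Prop} (h : q → r) : ind q ≤ ind r := by
  by_cases hq : q
  · rw [ind_true hq, ind_true (h hq)]
  · rw [ind_false hq]; exact ind_nonneg r
theorem ind_not (q : Prop) : ind (¬ q) = 1 - ind q := by
  by_cases hq : q
  · rw [ind_true hq, ind_false (not_not.mpr hq)]; norm_num
  · rw [ind_false hq, ind_true hq]; norm_num

/-- a sum of indicators is a cardinality -/
theorem sum_ind {ι : Type} (s : Finset ι) (q : ι → Prop) [DecidablePred q] :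
    ∑ i ∈ s, ind (q i) = ((s.filter q).card : ℝ) := by
  rw [Finset.card_filter]
  push_cast
  apply Finset.sum_congr rfl
  intro i _
  by_cases h : q i
  · rw [ind_true h, if_pos h]
  · rw [ind_false h, if_neg h]

theorem card_pos : (0 : ℝ) < (Fintype.card X.Om : ℝ) := by
  exact_mod_cast Fintype.card_pos

theorem E_const (c : ℝ) : X.E (fun _ => c) = c := by
  unfold E
  rw [Finset.sum_const, Finset.card_univ, nsmul_eq_mul, mul_comm, mul_div_assoc,
    div_self X.card_pos.ne', mul_one]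

theorem E_add (f g : X.Om → ℝ) : X.E (fun ω => f ω + g ω) = X.E f + X.E g := by
  unfold E
  rw [Finset.sum_add_distrib, add_div]

theorem E_sub (f g : X.Om → ℝ) : X.E (fun ω => f ω - g ω) = X.E f - X.E g := by
  unfold E
  rw [Finset.sum_sub_distrib, sub_div]

theorem E_mul (c : ℝ) (f : X.Om → ℝ) : X.E (fun ω => c * f ω) = c * X.E f := by
  unfold E
  rw [← Finset.mul_sum, mul_div_assoc]

theorem E_neg (f : X.Om → ℝ) : X.E (fun ω => - f ω) = - X.E f := by
  have := X.E_mul (-1) f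
  simpa using this

theorem E_mono {f g : X.Om → ℝ} (h : ∀ ω, f ω ≤ g ω) : X.E f ≤ X.E g := by
  unfold E
  exact div_le_div_of_nonneg_right (Finset.sum_le_sum fun ω _ => h ω) X.card_pos.le

theorem E_congr {f g : X.Om → ℝ} (h : ∀ ω, f ω = g ω) : X.E f = X.E g := by
  rw [funext h]

theorem E_nonneg {f : X.Om → ℝ} (h : ∀ ω, 0 ≤ f ω) : 0 ≤ X.E f := by
  have := X.E_mono h
  rwa [E_const] at this

theorem E_sum {ι : Type} (s : Finset ι) (f : ι → X.Om → ℝ) :
    X.E (fun ω => ∑ i ∈ s, f i ω) = ∑ i ∈ s, X.E (f i) := by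
  unfold E
  rw [Finset.sum_comm, Finset.sum_div]

/-- Cauchy–Schwarz: `(E f)² ≤ E f²` -/
theorem E_sq (f : X.Om → ℝ) : (X.E f) ^ 2 ≤ X.E (fun ω => f ω ^ 2) := by
  have h0 : 0 ≤ X.E (fun ω => (f ω - X.E f) ^ 2) := X.E_nonneg fun ω => sq_nonneg _
  have h1 : X.E (fun ω => (f ω - X.E f) ^ 2)
      = X.E (fun ω => f ω ^ 2) - (X.E f) ^ 2 := by
    have h2 : X.E (fun ω => (f ω - X.E f) ^ 2)
        = X.E (fun ω => (f ω ^ 2 + (-(2 * X.E f)) * f ω) + X.E f ^ 2) := by
      apply X.E_congr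
      intro ω
      ring
    rw [h2, X.E_add (fun ω => f ω ^ 2 + (-(2 * X.E f)) * f ω) (fun _ => X.E f ^ 2),
      X.E_add (fun ω => f ω ^ 2) (fun ω => (-(2 * X.E f)) * f ω), X.E_mul, X.E_const]
    ring
  linarith

theorem Pr_nonneg (q : X.Om → Prop) : 0 ≤ X.Pr q := X.E_nonneg fun _ => ind_nonneg _

theorem Pr_le_one (q : X.Om → Prop) : X.Pr q ≤ 1 := by
  have := X.E_mono (f := fun ω => ind (q ω)) (g := fun _ => 1) fun _ => ind_le_one _
  rwa [E_const] at this

theorem Pr_mono {q r : X.Om → Prop} (h : ∀ ω, q ω → r ω) : X.Pr q ≤ X.Pr r :=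
  X.E_mono fun ω => ind_mono (h ω)

theorem Pr_congr {q r : X.Om → Prop} (h : ∀ ω, q ω ↔ r ω) : X.Pr q = X.Pr r :=
  le_antisymm (X.Pr_mono fun ω => (h ω).1) (X.Pr_mono fun ω => (h ω).2)

theorem Pr_false {q : X.Om → Prop} (h : ∀ ω, ¬ q ω) : X.Pr q = 0 := by
  unfold Pr
  rw [X.E_congr (g := fun _ => 0) fun ω => ind_false (h ω), E_const]

theorem Pr_not (q : X.Om → Prop) : X.Pr (fun ω => ¬ q ω) = 1 - X.Pr q := by
  unfold Pr
  rw [X.E_congr (g := fun ω => 1 - ind (q ω)) fun ω => ind_not _, E_sub, E_const]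

/-- the expected number of true statements is the sum of the probabilities -/
theorem E_card {ι : Type} (s : Finset ι) (q : X.Om → ι → Prop)
    [∀ ω, DecidablePred (q ω)] :
    X.E (fun ω => ((s.filter (q ω)).card : ℝ)) = ∑ i ∈ s, X.Pr (fun ω => q ω i) := by
  unfold Pr
  rw [← X.E_sum]
  apply X.E_congr
  intro ω
  rw [sum_ind]

/-! ### first facts -/

theorem p_nonneg (i j : ℕ) : 0 ≤ X.p i j := X.Pr_nonneg _
theorem p_le_one (i j : ℕ) : X.p i j ≤ 1 := X.Pr_le_one _
theorem p_self (i : ℕ) : X.p i i = 0 := X.Pr_false fun _ => lt_irrefl _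
theorem neg_nonneg (i j : ℕ) : 0 ≤ X.neg i j := X.E_nonneg fun _ => le_max_right _ _
theorem e_nonneg (i j : ℕ) : 0 ≤ X.e i j := div_nonneg (X.p_nonneg _ _) (abs_nonneg _)
theorem e_comm (i j : ℕ) : X.e i j = X.e j i := by
  unfold e
  rw [min_comm, max_comm, abs_sub_comm]
theorem e_self (i : ℕ) : X.e i i = 0 := by
  unfold e
  rw [min_self, max_self, X.p_self, zero_div]
theorem eR_nonneg (i : ℕ) (a b : ℝ) : 0 ≤ X.eR i a b :=
  Finset.sum_nonneg fun _ _ => X.e_nonneg _ _
theorem qp_nonneg (i : ℕ) : 0 ≤ X.qp i := Finset.sum_nonneg fun _ _ => X.p_nonneg _ _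
theorem qm_nonneg (i : ℕ) : 0 ≤ X.qm i := Finset.sum_nonneg fun _ _ => X.p_nonneg _ _

theorem h_ne {ω : X.Om} {i j : ℕ} (hi : i < n) (hj : j < n) (hij : i ≠ j) :
    X.h ω i ≠ X.h ω j := fun h => hij (X.hinj ω i j hi hj h)

theorem e_of_lt {c C : ℝ} (hX : X.Good c C) {i j : ℕ} (hij : i < j) (hj : j < n) :
    X.e i j = X.p i j / (X.m j - X.m i) := by
  have h := hX.mono i j hij hj
  unfold e
  rw [min_eq_left hij.le, max_eq_right hij.le, abs_sub_comm, abs_of_pos (by linarith)]

/-- `p = g * e` -/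
theorem p_eq {c C : ℝ} (hX : X.Good c C) {i j : ℕ} (hij : i < j) (hj : j < n) :
    X.p i j = (X.m j - X.m i) * X.e i j := by
  have h := hX.mono i j hij hj
  rw [X.e_of_lt hX hij hj]
  field_simp [show X.m j - X.m i ≠ 0 by linarith]

/-- triangle inequality for the negative parts -/
theorem neg_triangle (i j k : ℕ) : X.neg i k ≤ X.neg i j + X.neg j k := by
  unfold neg
  rw [← X.E_add]
  apply X.E_mono
  intro ω
  have h1 := le_max_left ((X.h ω i : ℝ) - X.h ω j) 0
  have h2 := le_max_right ((X.h ω i : ℝ) - X.h ω j) 0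
  have h3 := le_max_left ((X.h ω j : ℝ) - X.h ω k) 0
  have h4 := le_max_right ((X.h ω j : ℝ) - X.h ω k) 0
  apply max_le <;> linarith

theorem neg_self (i : ℕ) : X.neg i i = 0 := by
  unfold neg
  rw [X.E_congr (g := fun _ => 0) fun ω => by simp, E_const]

end RP

end Pool.Agent.Thin
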