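import Mathlib

set_option autoImplicit false

/-!
# B5a: the numerical part of the concavity lemma
-/

namespace Pool.Agent.Thin

/-- one step in the second half: the product of the two sizes is at least `s² / (8 K)` -/
private theorem growth_num (s m K L a : ℝ) (hs1 : 1 ≤ s) (hK : 1 ≤ K) (hL : 0 ≤ L)
    (hm1 : s ≤ 2 * K * m) (hm2 : s ≤ 2 * K * (2 * s - m))
    (hs : 32 * K * (2 * L + 1) * (L + 2) ≤ s) (h1 : m ≤ 2 * a) (h2 : 2 * (a + 1) ≤ m + 2 * L) :
    (s + 1) * (2 * a + 1 - m) * (2 * (L + 2)) ≤ (a + 1) * (s - m + a + 1) := by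
  have hm0 : 0 < m := by nlinarith
  have hm3 : 0 < 2 * s - m := by nlinarith
  have hprod : s ^ 2 ≤ 2 * K * (m * (2 * s - m)) := by
    rcases le_total s m with h | h
    · calc s ^ 2 = s * s := by ring
        _ ≤ m * (2 * K * (2 * s - m)) := by
            apply mul_le_mul h hm2 (by linarith) (by linarith)
        _ = 2 * K * (m * (2 * s - m)) := by ring
    · calc s ^ 2 = s * s := by ring
        _ ≤ (2 * K * m) * (2 * s - m) := by
            apply mul_le_mul hm1 (by linarith) (by linarith) (by positivity)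
        _ = 2 * K * (m * (2 * s - m)) := by ring
  have hW : m * (2 * s - m) ≤ 4 * ((a + 1) * (s - m + a + 1)) := by
    have e1 : m ≤ 2 * (a + 1) := by linarith
    have e2 : 2 * s - m ≤ 2 * (s - m + a + 1) := by linarith
    calc m * (2 * s - m) ≤ (2 * (a + 1)) * (2 * (s - m + a + 1)) := by
          apply mul_le_mul e1 e2 hm3.le (by linarith)
      _ = _ := by ring
  have hb : (2 * a + 1 - m) ≤ 2 * L + 1 := by linarith
  have hb0 : 0 ≤ 2 * a + 1 - m := by linarith
  have hKpos : 0 < K := by linarith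
  have e3 : (s + 1) * (2 * a + 1 - m) * (2 * (L + 2)) ≤ (2 * s) * (2 * L + 1) * (2 * (L + 2)) := by
    apply mul_le_mul_of_nonneg_right _ (by linarith)
    apply mul_le_mul (by linarith) hb hb0 (by linarith)
  have e4 : 8 * K * ((2 * s) * (2 * L + 1) * (2 * (L + 2))) ≤ s ^ 2 := by
    calc 8 * K * ((2 * s) * (2 * L + 1) * (2 * (L + 2)))
        = s * (32 * K * (2 * L + 1) * (L + 2)) := by ring
      _ ≤ s * s := mul_le_mul_of_nonneg_left hs (by linarith)
      _ = s ^ 2 := by ring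
  have e5 : 8 * K * ((s + 1) * (2 * a + 1 - m) * (2 * (L + 2))) ≤
      8 * K * ((a + 1) * (s - m + a + 1)) := by
    calc 8 * K * ((s + 1) * (2 * a + 1 - m) * (2 * (L + 2)))
        ≤ 8 * K * ((2 * s) * (2 * L + 1) * (2 * (L + 2))) :=
          mul_le_mul_of_nonneg_left e3 (by linarith)
      _ ≤ s ^ 2 := e4
      _ ≤ 2 * K * (m * (2 * s - m)) := hprod
      _ ≤ 2 * K * (4 * ((a + 1) * (s - m + a + 1))) :=
          mul_le_mul_of_nonneg_left hW (by linarith)
      _ = 8 * K * ((a + 1) * (s - m + a + 1)) := by ring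
  exact le_of_mul_le_mul_left e5 (by linarith)

/-- If `z` satisfies the ratio inequality of the hypergeometric law then `z a ≤ 2 z a'` for
`a ≤ a' ≤ m / 2 + L`. Use `(s-a)(m-a) - (a+1)(s-m+a+1) = (s+1)(m-2a-1)`. -/
theorem growth (s m K L : ℕ) (z : ℕ → ℝ) (hz : ∀ a, 0 ≤ z a)
    (h0 : ∀ a, s + a < m → z a = 0)
    (hr : ∀ a, a < m → ((s : ℝ) - a) * ((m : ℝ) - a) * z a ≤
      ((a : ℝ) + 1) * ((s : ℝ) - m + a + 1) * z (a + 1))
    (hK : 1 ≤ K) (hm1 : s ≤ 2 * K * m) (hm : m ≤ 2 * s) (hm2 : s ≤ 2 * K * (2 * s - m))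
    (hs : 32 * K * (2 * L + 1) * (L + 2) ≤ s)
    (a a' : ℕ) (haa : a ≤ a') (ha' : 2 * a' ≤ m + 2 * L) : z a ≤ 2 * z a' := by
  have hm1' : (s : ℝ) ≤ 2 * K * m := by exact_mod_cast hm1
  have hm2' : (s : ℝ) ≤ 2 * K * (2 * s - m) := by
    have : (s : ℝ) ≤ ((2 * K * (2 * s - m) : ℕ) : ℝ) := by exact_mod_cast hm2
    rw [Nat.cast_mul, Nat.cast_sub hm] at this
    push_cast at this
    linarith
  have hs' : (32 : ℝ) * K * (2 * L + 1) * (L + 2) ≤ s := by exact_mod_cast hs
  have hK' : (1 : ℝ) ≤ K := by exact_mod_cast hK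
  have hL' : (0 : ℝ) ≤ L := Nat.cast_nonneg _
  have hbig : 16 * (2 * L + 1) * (L + 2) ≤ m := by
    by_contra hc
    push Not at hc
    have h1 : 2 * K * m < 2 * K * (16 * (2 * L + 1) * (L + 2)) :=
      Nat.mul_lt_mul_of_pos_left hc (by omega)
    have h2 : 2 * K * (16 * (2 * L + 1) * (L + 2)) = 32 * K * (2 * L + 1) * (L + 2) := by ring
    omega
  have hLm : 2 * L < m := by nlinarith
  have hs1 : (1 : ℝ) ≤ s := by
    have : 1 ≤ s := by omega
    exact_mod_cast this
  -- first half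
  have step1 : ∀ b, 2 * b + 1 ≤ m → z b ≤ z (b + 1) := by
    intro b hb
    rcases Nat.lt_or_ge (s + b) m with h | h
    · rw [h0 b h]; exact hz _
    · have hb' : (2 : ℝ) * b + 1 ≤ m := by exact_mod_cast hb
      have h' : (m : ℝ) ≤ s + b := by exact_mod_cast h
      have hbn : (0 : ℝ) ≤ b := Nat.cast_nonneg _
      have hW : (0 : ℝ) < ((b : ℝ) + 1) * ((s : ℝ) - m + b + 1) := by
        apply mul_pos <;> linarith
      have h1 : ((b : ℝ) + 1) * ((s : ℝ) - m + b + 1) ≤ ((s : ℝ) - b) * ((m : ℝ) - b) := by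
        have : ((s : ℝ) - b) * ((m : ℝ) - b) - ((b : ℝ) + 1) * ((s : ℝ) - m + b + 1)
          = ((s : ℝ) + 1) * (m - 2 * b - 1) := by ring
        have h2 : 0 ≤ ((s : ℝ) + 1) * (m - 2 * b - 1) := by
          apply mul_nonneg <;> linarith
        linarith
      have h3 := hr b (by omega)
      have h4 := mul_le_mul_of_nonneg_right h1 (hz b)
      exact le_of_mul_le_mul_left (h4.trans h3) hW
  -- second half
  set x : ℝ := 1 / (2 * (L + 2)) with hx
  have hx0 : 0 < x := by positivity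
  have hx1 : x ≤ 1 / 4 := by
    rw [hx]
    apply one_div_le_one_div_of_le (by norm_num) (by linarith)
  have step2 : ∀ b, m ≤ 2 * b → 2 * (b + 1) ≤ m + 2 * L → (1 - x) * z b ≤ z (b + 1) := by
    intro b hb1 hb2
    have hb1' : (m : ℝ) ≤ 2 * b := by exact_mod_cast hb1
    have hb2' : (2 : ℝ) * (b + 1) ≤ m + 2 * L := by exact_mod_cast hb2
    have hnum := growth_num s m K L b hs1 hK' hL' hm1' hm2' hs' hb1' hb2'
    have hbn : (0 : ℝ) ≤ b := Nat.cast_nonneg _
    have hpos2 : (0 : ℝ) < (s : ℝ) - m + b + 1 := by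
      have : (m : ℝ) ≤ 2 * s := by exact_mod_cast hm
      linarith
    have hW : (0 : ℝ) < ((b : ℝ) + 1) * ((s : ℝ) - m + b + 1) := by
      apply mul_pos <;> linarith
    have h1 : ((s : ℝ) + 1) * (2 * b + 1 - m) ≤ x * (((b : ℝ) + 1) * ((s : ℝ) - m + b + 1)) := by
      rw [hx, one_div, inv_mul_eq_div, le_div_iff₀ (by positivity)]
      exact hnum
    have h2 : (1 - x) * (((b : ℝ) + 1) * ((s : ℝ) - m + b + 1)) ≤
        ((s : ℝ) - b) * ((m : ℝ) - b) := by
      have : ((s : ℝ) - b) * ((m : ℝ) - b) = ((b : ℝ) + 1) * ((s : ℝ) - m + b + 1)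
          - ((s : ℝ) + 1) * (2 * b + 1 - m) := by ring
      rw [this]
      linarith
    have h3 := hr b (by omega)
    have h4 := mul_le_mul_of_nonneg_right h2 (hz b)
    have h5 : (((b : ℝ) + 1) * ((s : ℝ) - m + b + 1)) * ((1 - x) * z b) ≤
        (((b : ℝ) + 1) * ((s : ℝ) - m + b + 1)) * z (b + 1) := by
      calc _ = (1 - x) * (((b : ℝ) + 1) * ((s : ℝ) - m + b + 1)) * z b := by ring
        _ ≤ _ := h4.trans h3
    exact le_of_mul_le_mul_left h5 hW
  -- induction
  have main : ∀ k, 2 * (a + k) ≤ m + 2 * L →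
      (1 - x * ((a + k - (m + 1) / 2 : ℕ) : ℝ)) * z a ≤ z (a + k) := by
    intro k
    induction k with
    | zero =>
      intro _
      have h1 : 0 ≤ x * ((a + 0 - (m + 1) / 2 : ℕ) : ℝ) := by positivity
      have h2 := hz a
      have : (1 - x * ((a + 0 - (m + 1) / 2 : ℕ) : ℝ)) * z a ≤ 1 * z a :=
        mul_le_mul_of_nonneg_right (by linarith) h2
      simpa using this
    | succ k ih =>
      intro hk
      have ih' := ih (by omega)
      rcases Nat.lt_or_ge (2 * (a + k)) m with h | h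
      · have h1 := step1 (a + k) (by omega)
        have h2 : a + (k + 1) - (m + 1) / 2 = 0 := by omega
        have h3 : a + k - (m + 1) / 2 = 0 := by omega
        rw [h2]
        rw [h3] at ih'
        exact ih'.trans h1
      · have h1 := step2 (a + k) h (by omega)
        have h2 : a + (k + 1) - (m + 1) / 2 = (a + k - (m + 1) / 2) + 1 := by omega
        rw [h2]
        set t : ℕ := a + k - (m + 1) / 2
        have h3 : (1 - x) * ((1 - x * (t : ℝ)) * z a) ≤ (1 - x) * z (a + k) :=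
          mul_le_mul_of_nonneg_left ih' (by linarith)
        have h4 : (1 - x * ((t + 1 : ℕ) : ℝ)) * z a ≤ (1 - x) * ((1 - x * (t : ℝ)) * z a) := by
          have h5 : (1 - x) * ((1 - x * (t : ℝ)) * z a) - (1 - x * ((t + 1 : ℕ) : ℝ)) * z a
              = x ^ 2 * t * z a := by
            push_cast
            ring
          have h6 : 0 ≤ x ^ 2 * t * z a := by
            have := hz a
            positivity
          linarith
        exact (h4.trans h3).trans h1
  obtain ⟨k, rfl⟩ := Nat.exists_eq_add_of_le haa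
  have h1 := main k ha'
  have h2 : ((a + k - (m + 1) / 2 : ℕ) : ℝ) ≤ L := by
    have : a + k - (m + 1) / 2 ≤ L := by omega
    exact_mod_cast this
  have h3 : x * ((a + k - (m + 1) / 2 : ℕ) : ℝ) ≤ 1 / 2 := by
    calc x * ((a + k - (m + 1) / 2 : ℕ) : ℝ) ≤ x * L := mul_le_mul_of_nonneg_left h2 hx0.le
      _ ≤ 1 / 2 := by
        rw [hx, one_div, inv_mul_eq_div, div_le_div_iff₀ (by positivity) (by norm_num)]
        linarith
  have h4 : (1 / 2) * z a ≤ (1 - x * ((a + k - (m + 1) / 2 : ℕ) : ℝ)) * z a :=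
    mul_le_mul_of_nonneg_right (by linarith) (hz a)
  linarith

end Pool.Agent.Thin
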