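import Pool.Agent.Lib_MP_33fb9b_ks.Defs
import Pool.Agent.Lib_MP_33fb9b_bft.Defs

set_option autoImplicit false

/-!
# the random permutation of a finite poset with an enumeration
-/

namespace Pool.Agent.Thin

open Pool.Agent.BFT

/-- the random permutation: uniform linear extension, `h σ i` = place of the `i`-th element -/
noncomputable def rpOf (P : Type) [Fintype P] [PartialOrder P] (w : Fin (Fintype.card P) ≃ P) :
    RP (Fintype.card P) where
  Om := BFT.LE P
  fin := inferInstance
  ne := inferInstance
  h := fun σ i => if hi : i < Fintype.card P then pos σ (w ⟨i, hi⟩) else 0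
  hlt := fun σ i hi => by
    rw [dif_pos hi]
    exact pos_lt_card σ _
  hinj := fun σ i j hi hj h => by
    rw [dif_pos hi, dif_pos hj] at h
    have h1 := w.injective (pos_inj h)
    simpa using h1

end Pool.Agent.Thin
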