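import Pool.Agent.Lib_MP_33fb9b_bft.Defs

set_option autoImplicit false

/-!
# Part B: localised posets (definitions)
-/

namespace Pool.Agent.Thin

open Finset Pool.Agent.BFT

/-- `P` is localised around the indexing `idx`: the mean displacement of every element is at most
`K2`, and inversions have a fourth power tail. -/
structure Loc (P : Type) [Fintype P] [PartialOrder P] (idx : P → ℕ) (K2 C3 : ℝ) : Prop where
  lt_card : ∀ v, idx v < Fintype.card P
  inj : Function.Injective idx
  mono : ∀ u v : P, u < v → idx u < idx v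
  mean : ∀ u : P, Ex (fun σ : BFT.LE P => |(pos σ u : ℝ) - idx u|) ≤ K2
  tail : ∀ u v : P, idx u < idx v → BFT.lt v u * ((idx v : ℝ) - idx u) ^ 4 ≤ C3
  hK2 : 1 ≤ K2
  hC3 : 1 ≤ C3

section
variable {P : Type} [Fintype P] [PartialOrder P]

/-- number of elements of `D` of index below `k` -/
def mu (idx : P → ℕ) (D : Finset P) (k : ℕ) : ℕ := (D.filter (fun v => idx v < k)).card

/-- number of elements of `D` at places below `k` -/
def cnt (σ : BFT.LE P) (D : Finset P) (k : ℕ) : ℕ := (D.filter (fun v => pos σ v < k)).card

/-- number of elements which cross the cut `k` downwards -/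
def crs (idx : P → ℕ) (σ : BFT.LE P) (k : ℕ) : ℕ :=
  (univ.filter (fun v : P => k ≤ idx v ∧ pos σ v < k)).card

/-- number of inversions across the cut `k` -/
def invs (idx : P → ℕ) (σ : BFT.LE P) (k : ℕ) : ℕ :=
  (univ.filter (fun w : P × P => idx w.1 < k ∧ k ≤ idx w.2 ∧ pos σ w.2 < pos σ w.1)).card

/-- number of linear extensions in which the set of places of `D` is `S` -/
noncomputable def words (D : Finset P) (S : Finset ℕ) : ℕ :=
  (univ.filter (fun σ : BFT.LE P => D.image (pos σ) = S)).card

/-- number of linear extensions with prescribed numbers of elements of `D` at the places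
`< k1`, in `[k1, k1+s)` and in `[k1+s, k1+2s)` -/
noncomputable def zz (D : Finset P) (k1 s α a b : ℕ) : ℕ :=
  (univ.filter (fun σ : BFT.LE P => cnt σ D k1 = α ∧ cnt σ D (k1 + s) = α + a ∧
    cnt σ D (k1 + 2 * s) = α + a + b)).card

end

end Pool.Agent.Thin
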