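import Pool.Agent.Lib_MP_33fb9b_ks.Multi
import Pool.Agent.Lib_MP_33fb9b_ks.LD
import Pool.Agent.Lib_MP_33fb9b_ks.Persist
import Pool.Agent.Lib_MP_33fb9b_ks.Dual

set_option autoImplicit false

/-!
# S9: selection of the scale (A.7); the expected number of inversions of an item is bounded
-/

namespace Pool.Agent.Thin.RP

open Finset

/-- Lemma X of (A.7): if the mean displacement is large somewhere then `Q` is bounded -/
theorem lemX {c C ε0 A ε η K Q0 Q : ℝ} {T n : ℕ} (X : RP n) (hX : X.Good c C)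
    (hLD : X.LDp η K) (hC : 0 ≤ C) (hε0 : 0 < ε0) (hA : 1 ≤ A)
    (hAC : 4 * C ≤ (ε0 / 4) * A ^ 3) (hε : 0 < ε) (hT1 : 1 ≤ T)
    (hT : 4 / ε ≤ (T : ℝ)) (hη : 0 < η) (hη1 : 16 * T * A * η ≤ ε0) (hη2 : 8 * A * η ≤ ε)
    (hK : 0 ≤ K) (hKQ : 8 * K ≤ ε0 * Q) (hKQ2 : 4 * K ≤ ε * Q) (hQ : 1 ≤ Q)
    (hM : ∀ i j : ℕ, i < j → j < n → (j : ℝ) - i ≤ A * Q →
      (ε0 / 4) ^ 2 / (8 * A) * Q ≤ X.neg i j → X.u j - X.u i ≤ ε * Q → Q ≤ Q0)
    (hq : ∀ k, k < n → X.q k ≤ Q) {l : ℕ} (hl : l < n) (hul : ε0 / 2 * Q ≤ X.u l) : Q ≤ Q0 := by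
  have hQ0 : 0 < Q := by linarith
  obtain ⟨B, hB1, hB2⟩ : ∃ B : ℕ, A * Q ≤ B ∧ (B : ℝ) ≤ 2 * A * Q := by
    refine ⟨⌈A * Q⌉₊, Nat.le_ceil _, ?_⟩
    have h1 : (⌈A * Q⌉₊ : ℝ) < A * Q + 1 := Nat.ceil_lt_add_one (by positivity)
    have h2 : 1 ≤ A * Q := by nlinarith
    linarith
  have hBpos : (0 : ℝ) < B := by
    have : 0 < A * Q := by positivity
    linarith
  have hT0 : (0 : ℝ) < T := by exact_mod_cast hT1
  have hηTB : η * (T * B) ≤ ε0 / 8 * Q := by
    have h1 : η * (T * B) ≤ η * (T * (2 * A * Q)) := by gcongr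
    have h2 : η * (T * (2 * A * Q)) = (16 * T * A * η) * Q / 8 := by ring
    have h3 : (16 * T * A * η) * Q ≤ ε0 * Q := by gcongr
    linarith
  have hηB : η * B ≤ ε / 4 * Q := by
    have h1 : η * B ≤ η * (2 * A * Q) := by gcongr
    have h2 : η * (2 * A * Q) = (8 * A * η) * Q / 4 := by ring
    have h3 : (8 * A * η) * Q ≤ ε * Q := by gcongr
    linarith
  -- the displacement stays large
  have claim1 : ∀ k, l ≤ k → k ≤ l + T * B → k < n → ε0 / 4 * Q ≤ X.u k := by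
    intro k hk1 hk2 hk3
    rcases Nat.eq_or_lt_of_le hk1 with h | h
    · subst h
      nlinarith
    · have h1 := hLD l k h hk3
      have h2 : ((k : ℝ) - l) ≤ T * B := by
        have : (k : ℝ) ≤ l + T * B := by exact_mod_cast hk2
        linarith
      have h3 : η * ((k : ℝ) - l) ≤ η * (T * B) := by gcongr
      linarith
  have claim2 : l + T * B < n := by
    by_contra hcon
    have h1 := claim1 (n - 1) (by omega) (by omega) (by omega)
    have h2 := X.u_last_nonpos (i := n - 1) (by omega)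
    have : 0 < ε0 / 4 * Q := by positivity
    linarith
  have hub : ∀ k, k < n → X.u k ≤ Q := by
    intro k hk
    have h1 := X.u_le_qp hk
    have h2 := hq k hk
    have h3 := X.qm_nonneg k
    unfold q at h2
    linarith
  -- a block with small increment
  obtain ⟨t, htT, ht⟩ : ∃ t, t < T ∧ X.u (l + (t + 1) * B) - X.u (l + t * B) ≤ ε / 4 * Q := by
    by_contra hcon
    push Not at hcon
    have h1 : ∑ t ∈ range T, (ε / 4 * Q) < ∑ t ∈ range T, (X.u (l + (t + 1) * B) -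
        X.u (l + t * B)) := by
      apply Finset.sum_lt_sum_of_nonempty
      · exact ⟨0, Finset.mem_range.mpr (by omega)⟩
      · intro t ht
        exact hcon t (Finset.mem_range.mp ht)
    rw [Finset.sum_range_sub (fun t => X.u (l + t * B)), Finset.sum_const, Finset.card_range,
      nsmul_eq_mul] at h1
    have h2 : (4 / ε) * (ε / 4 * Q) ≤ T * (ε / 4 * Q) := by gcongr
    have h3 : (4 / ε) * (ε / 4 * Q) = Q := by
      field_simp
    have h4 := hub (l + T * B) claim2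
    have h5 : 0 ≤ X.u l := le_trans (by positivity) hul
    simp only [Nat.zero_mul, add_zero] at h1
    linarith
  have hiB : l + (t + 1) * B < n := by
    have : (t + 1) * B ≤ T * B := Nat.mul_le_mul_right _ htT
    omega
  have hi0 : l + t * B < n := by
    have : t * B ≤ T * B := Nat.mul_le_mul_right _ htT.le
    omega
  have hqi : ε0 / 4 * Q ≤ X.qp (l + t * B) :=
    le_trans (claim1 _ (Nat.le_add_right _ _)
      (Nat.add_le_add_left (Nat.mul_le_mul_right _ htT.le) _) hi0) (X.u_le_qp hi0)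
  obtain ⟨j, hij, hj, hjA, hneg⟩ := X.persist hX hQ (by positivity) hA hAC hC hq hi0 hqi
  apply hM _ j hij hj hjA hneg
  -- the increment of `u` between `i` and `j`
  have hjB : j ≤ l + (t + 1) * B := by
    have h1 : (j : ℝ) - ((l + t * B : ℕ) : ℝ) ≤ B := by linarith
    have h2 : (j : ℝ) ≤ ((l + (t + 1) * B : ℕ) : ℝ) := by
      push_cast at h1 ⊢
      linarith
    exact_mod_cast h2
  have h1 : -(η * B) - K ≤ X.u (l + (t + 1) * B) - X.u j := by
    rcases Nat.eq_or_lt_of_le hjB with h | h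
    · rw [h]
      have : 0 ≤ η * B := by positivity
      linarith
    · have h2 := hLD j _ h hiB
      have h3 : (((l + (t + 1) * B : ℕ) : ℝ) - j) ≤ B := by
        have : ((l + t * B : ℕ) : ℝ) < j := by exact_mod_cast hij
        push_cast at this ⊢
        linarith
      have h4 : η * ((((l + (t + 1) * B : ℕ) : ℝ)) - j) ≤ η * B := by gcongr
      linarith
  have h5 : 0 < ε * Q := by positivity
  linarith

/-- the case where all the mean displacements are small -/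
theorem caseC {c C ε A Q0 Q : ℝ} {n : ℕ} (X : RP n) (hX : X.Good c C)
    (hC : 0 ≤ C) (hA : 1 ≤ A) (hAC : 8 * C ≤ A ^ 3) (hQ : 1 ≤ Q)
    (hM : ∀ i j : ℕ, i < j → j < n → (j : ℝ) - i ≤ A * Q →
      (1 / 2) ^ 2 / (8 * A) * Q ≤ X.neg i j → X.u j - X.u i ≤ ε * Q → Q ≤ Q0)
    (hq : ∀ k, k < n → X.q k ≤ Q) (hu : ∀ k, k < n → |X.u k| ≤ ε / 2 * Q)
    {i : ℕ} (hi : i < n) (hqi : 1 / 2 * Q ≤ X.qp i) : Q ≤ Q0 := by
  obtain ⟨j, hij, hj, hjA, hneg⟩ := X.persist hX hQ (by norm_num : (0 : ℝ) < 1 / 2) hA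
    (by linarith) hC hq hi hqi
  apply hM i j hij hj hjA hneg
  have h1 := abs_le.mp (hu i hi)
  have h2 := abs_le.mp (hu j hj)
  linarith [h1.1, h2.2]

/-- GOAL A -/
theorem goalA (c C : ℝ) (hc : 0 < c) (hc1 : c ≤ 1) (hC : 0 ≤ C) :
    ∃ K2 : ℝ, 1 ≤ K2 ∧ ∀ (n : ℕ) (X : RP n), X.Good c C → ∀ i, i < n → X.q i ≤ K2 := by
  -- parameters
  obtain ⟨A0, hA0, hA0C⟩ : ∃ A0 : ℝ, 1 ≤ A0 ∧ 8 * C ≤ A0 ^ 3 := by
    refine ⟨8 * C + 1, by linarith, ?_⟩
    have h1 : (1 : ℝ) ≤ (8 * C + 1) ^ 2 := one_le_pow₀ (by linarith)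
    nlinarith
  obtain ⟨e0, he0⟩ : ∃ e0 : ℝ, e0 = (1 / 2) ^ 2 / (8 * A0) := ⟨_, rfl⟩
  have he0p : 0 < e0 := by rw [he0]; positivity
  obtain ⟨ε0, hε0⟩ : ∃ ε0 : ℝ, ε0 = c * e0 / 112 := ⟨_, rfl⟩
  have hε0p : 0 < ε0 := by rw [hε0]; positivity
  obtain ⟨A1, hA1, hA1C⟩ : ∃ A1 : ℝ, 1 ≤ A1 ∧ 4 * C ≤ (ε0 / 4) * A1 ^ 3 := by
    refine ⟨16 * C / ε0 + 1, ?_, ?_⟩
    · have : 0 ≤ 16 * C / ε0 := by positivity
      linarith
    · have h0 : 0 ≤ 16 * C / ε0 := by positivity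
      have h1 : (1 : ℝ) ≤ (16 * C / ε0 + 1) ^ 2 := one_le_pow₀ (by linarith)
      have h2 : (16 * C / ε0 + 1) ≤ (16 * C / ε0 + 1) ^ 3 := by nlinarith
      have h3 : (ε0 / 4) * (16 * C / ε0 + 1) ≤ (ε0 / 4) * (16 * C / ε0 + 1) ^ 3 := by gcongr
      have h4 : (ε0 / 4) * (16 * C / ε0 + 1) = 4 * C + ε0 / 4 := by
        field_simp
        ring
      linarith
  obtain ⟨e1, he1⟩ : ∃ e1 : ℝ, e1 = (ε0 / 4) ^ 2 / (8 * A1) := ⟨_, rfl⟩
  have he1p : 0 < e1 := by rw [he1]; positivity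
  obtain ⟨ε1, hε1⟩ : ∃ ε1 : ℝ, ε1 = c * e1 / 112 := ⟨_, rfl⟩
  have hε1p : 0 < ε1 := by rw [hε1]; positivity
  obtain ⟨T, hT1, hT⟩ : ∃ T : ℕ, 1 ≤ T ∧ 4 / ε1 ≤ (T : ℝ) := by
    refine ⟨⌈4 / ε1⌉₊ + 1, by omega, ?_⟩
    push_cast
    linarith [Nat.le_ceil (4 / ε1)]
  have hT0 : (0 : ℝ) < T := by exact_mod_cast hT1
  obtain ⟨η, hη, hη1, hη2, hη3, hη4, hη5⟩ : ∃ η : ℝ, 0 < η ∧ η < 1 ∧
      2 * η * A0 ≤ c * e0 / 4 ∧ 2 * η * A1 ≤ c * e1 / 4 ∧ 16 * T * A1 * η ≤ ε0 ∧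
      8 * A1 * η ≤ ε1 := by
    refine ⟨min (1 / 2) (min (c * e0 / (8 * A0)) (min (c * e1 / (8 * A1))
      (min (ε0 / (16 * T * A1)) (ε1 / (8 * A1))))), ?_, ?_, ?_, ?_, ?_, ?_⟩
    · refine lt_min (by norm_num) (lt_min (by positivity) (lt_min (by positivity)
        (lt_min (by positivity) (by positivity))))
    · exact lt_of_le_of_lt (min_le_left _ _) (by norm_num)
    · calc _ ≤ 2 * (c * e0 / (8 * A0)) * A0 := by
            gcongr
            exact le_trans (min_le_right _ _) (min_le_left _ _)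
        _ = c * e0 / 4 := by field_simp; ring
    · calc _ ≤ 2 * (c * e1 / (8 * A1)) * A1 := by
            gcongr
            exact le_trans (min_le_right _ _) (le_trans (min_le_right _ _) (min_le_left _ _))
        _ = c * e1 / 4 := by field_simp; ring
    · calc _ ≤ 16 * T * A1 * (ε0 / (16 * T * A1)) := by
            gcongr
            exact le_trans (min_le_right _ _) (le_trans (min_le_right _ _)
              (le_trans (min_le_right _ _) (min_le_left _ _)))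
        _ = ε0 := by field_simp
    · calc _ ≤ 8 * A1 * (ε1 / (8 * A1)) := by
            gcongr
            exact le_trans (min_le_right _ _) (le_trans (min_le_right _ _)
              (le_trans (min_le_right _ _) (min_le_right _ _)))
        _ = ε1 := by field_simp
  obtain ⟨K, hK, hLD⟩ := exists_LD c η hc hη hη1
  obtain ⟨Q1, hQ1⟩ := multi c A0 e0 ε0 η K hc hc1 (by linarith) he0p hε0p hη hK (by
    rw [hε0] at *
    nlinarith)
  obtain ⟨Q2, hQ2⟩ := multi c A1 e1 ε1 η K hc hc1 (by linarith) he1p hε1p hη hK (by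
    rw [hε1] at *
    nlinarith)
  refine ⟨max 1 (max Q1 (max Q2 (max (8 * K / ε0) (4 * K / ε1)))), le_max_left _ _, ?_⟩
  intro n X hX i hi
  by_contra hcon
  push Not at hcon
  obtain ⟨i0, hi0, hmax⟩ := Finset.exists_max_image (range n) X.q ⟨i, Finset.mem_range.mpr hi⟩
  rw [Finset.mem_range] at hi0
  obtain ⟨Q, hQdef⟩ : ∃ Q : ℝ, Q = X.q i0 := ⟨_, rfl⟩
  have hq : ∀ k, k < n → X.q k ≤ Q := fun k hk => by
    rw [hQdef]
    exact hmax k (Finset.mem_range.mpr hk)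
  have hbig := lt_of_lt_of_le hcon (hq i hi)
  have hb1 : 1 < Q := lt_of_le_of_lt (le_max_left _ _) hbig
  have hb2 : Q1 < Q := lt_of_le_of_lt (le_trans (le_max_left _ _) (le_max_right _ _)) hbig
  have hb3 : Q2 < Q := lt_of_le_of_lt (le_trans (le_max_left _ _) (le_trans (le_max_right _ _)
    (le_max_right _ _))) hbig
  have hb4 : 8 * K / ε0 < Q := lt_of_le_of_lt (le_trans (le_max_left _ _) (le_trans
    (le_max_right _ _) (le_trans (le_max_right _ _) (le_max_right _ _)))) hbig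
  have hb5 : 4 * K / ε1 < Q := lt_of_le_of_lt (le_trans (le_max_right _ _) (le_trans
    (le_max_right _ _) (le_trans (le_max_right _ _) (le_max_right _ _)))) hbig
  have hKQ : 8 * K ≤ ε0 * Q := by
    rw [div_lt_iff₀ hε0p] at hb4
    linarith
  have hKQ2 : 4 * K ≤ ε1 * Q := by
    rw [div_lt_iff₀ hε1p] at hb5
    linarith
  have hQ0 : 0 < Q := by linarith
  -- bounds for the dual
  have hXd : X.dual.Good c C := hX.dual
  have hqd : ∀ k, k < n → X.dual.q k ≤ Q := fun k hk => by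
    rw [X.dual_q hk]
    exact hq _ (by omega)
  -- Lemma X for both
  have hX1 : ∀ l, l < n → X.u l < ε0 / 2 * Q := by
    intro l hl
    by_contra hc'
    push Not at hc'
    have := lemX X hX (hLD C n X hX) hC hε0p hA1 hA1C hε1p hT1 hT hη hη4 hη5 hK hKQ hKQ2
      hb1.le (Q0 := Q2) (fun i j hij hj h1 h2 h3 => hQ2 C n X hX (hLD C n X hX) Q i j hQ0 hij hj
        h1 (by rw [he1]; exact h2) h3) hq hl hc'
    linarith
  have hX2 : ∀ l, l < n → X.dual.u l < ε0 / 2 * Q := by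
    intro l hl
    by_contra hc'
    push Not at hc'
    have := lemX X.dual hXd (hLD C n _ hXd) hC hε0p hA1 hA1C hε1p hT1 hT hη hη4 hη5 hK hKQ hKQ2
      hb1.le (Q0 := Q2) (fun i j hij hj h1 h2 h3 => hQ2 C n _ hXd (hLD C n _ hXd) Q i j hQ0 hij hj
        h1 (by rw [he1]; exact h2) h3) hqd hl hc'
    linarith
  have hu : ∀ k, k < n → |X.u k| ≤ ε0 / 2 * Q := by
    intro k hk
    have h1 := hX1 k hk
    have h2 := hX2 (n - 1 - k) (by omega)
    rw [X.dual_u (by omega), show n - 1 - (n - 1 - k) = k by omega] at h2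
    rw [abs_le]
    constructor <;> linarith
  have hud : ∀ k, k < n → |X.dual.u k| ≤ ε0 / 2 * Q := by
    intro k hk
    rw [X.dual_u hk, abs_neg]
    exact hu _ (by omega)
  have hsum : Q = X.qp i0 + X.qm i0 := hQdef
  rcases le_total (X.qm i0) (X.qp i0) with h | h
  · have := caseC X hX hC hA0 hA0C hb1.le (Q0 := Q1) (ε := ε0)
      (fun i j hij hj h1 h2 h3 => hQ1 C n X hX (hLD C n X hX) Q i j hQ0 hij hj h1
        (by rw [he0]; exact h2) h3) hq hu hi0 (by linarith)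
    linarith
  · have := caseC X.dual hXd hC hA0 hA0C hb1.le (Q0 := Q1) (ε := ε0)
      (fun i j hij hj h1 h2 h3 => hQ1 C n _ hXd (hLD C n _ hXd) Q i j hQ0 hij hj h1
        (by rw [he0]; exact h2) h3) hqd hud (i := n - 1 - i0) (by omega) (by
          rw [X.dual_qp (by omega), show n - 1 - (n - 1 - i0) = i0 by omega]
          linarith)
    linarith

end Pool.Agent.Thin.RP
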