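import Pool.Agent.Lib_MP_33fb9b_ks.Inst
import Pool.Agent.Lib_MP_33fb9b_ks.Select
import Pool.Agent.Lib_MP_33fb9b_ks.GoalB

set_option autoImplicit false

/-!
# The theorem: posets with balance constant `≤ d < 1/e` are thin
-/

namespace Pool.Agent.Thin

open Pool.Agent.BFT Pool.Agent.Gap

theorem rpOf_h {P : Type} [Fintype P] [PartialOrder P] (w : Fin (Fintype.card P) ≃ P)
    (σ : BFT.LE P) (v : P) : (rpOf P w).h σ (w.symm v : ℕ) = pos σ v := by
  unfold rpOf
  simp

theorem ht_lt_of_lt {P : Type} [Fintype P] [PartialOrder P] {u v : P} (h : u < v) :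
    ht u < ht v := by
  have h1 : Ex (fun σ : BFT.LE P => (pos σ u : ℝ) + 1) ≤ Ex (fun σ : BFT.LE P => (pos σ v : ℝ)) := by
    apply Ex_mono
    intro σ
    have := pos_lt_of_lt σ h
    exact_mod_cast this
  rw [Ex_add, Ex_const] at h1
  unfold ht
  linarith

theorem main_thin (d : ℝ) (hd : d < Real.exp (-1)) : ∃ M : ℕ, ∀ (P : Type) [Fintype P]
    [PartialOrder P], balance P ≤ d →
    ∀ x : P, Nat.card {y : P // ¬ x ≤ y ∧ ¬ y ≤ x} ≤ M := by
  classical
  obtain ⟨c, C, hc, hc1, hC, hgood⟩ := exists_good d hd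
  obtain ⟨K2, hK2, hA⟩ := RP.goalA c C hc hc1 hC
  obtain ⟨M, hM⟩ := goalB K2 (max 1 (C * K2 ^ 4))
  refine ⟨2 * M + 1, ?_⟩
  intro P _ _ hb x
  obtain ⟨w, hw, hX⟩ := hgood P hb
  have hq := hA _ (rpOf P w) hX
  have hlt : ∀ v : P, ((w.symm v : Fin (Fintype.card P)) : ℕ) < Fintype.card P :=
    fun v => (w.symm v).2
  have hmean : ∀ v : P, (rpOf P w).E (fun σ => |((rpOf P w).h σ (w.symm v : ℕ) : ℝ) -
      (w.symm v : ℕ)|) ≤ K2 := fun v =>
    le_trans ((rpOf P w).E_abs_le (hlt v)) (hq _ (hlt v))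
  have hL : Loc P (fun v => (w.symm v : ℕ)) K2 (max 1 (C * K2 ^ 4)) := by
    refine ⟨hlt, ?_, ?_, ?_, ?_, hK2, le_max_left _ _⟩
    · intro a b hab
      exact w.symm.injective (Fin.ext hab)
    · intro u v huv
      have h1 := ht_lt_of_lt huv
      have h2 : w.symm u < w.symm v := by
        rw [← hw.lt_iff_lt]
        simpa using h1
      exact h2
    · intro u
      have h1 := hmean u
      have h2 : (rpOf P w).E (fun σ => |((rpOf P w).h σ (w.symm u : ℕ) : ℝ) -
          (w.symm u : ℕ)|) = Ex (fun σ : BFT.LE P => |(pos σ u : ℝ) - (w.symm u : ℕ)|) := by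
        rw [show (fun σ => |((rpOf P w).h σ (w.symm u : ℕ) : ℝ) - (w.symm u : ℕ)|) =
          (fun σ : BFT.LE P => |(pos σ u : ℝ) - (w.symm u : ℕ)|) from
          funext fun σ => by rw [rpOf_h w σ u]]
        rfl
      rw [← h2]
      exact h1
    · intro u v huv
      have h1 := hX.a5 K2 (w.symm u : ℕ) (w.symm v : ℕ) hK2 huv (hlt v) (hmean u) (hmean v)
      have h2 : (rpOf P w).p (w.symm u : ℕ) (w.symm v : ℕ) = BFT.lt v u := by
        unfold RP.p
        rw [show (fun σ => (rpOf P w).h σ (w.symm v : ℕ) < (rpOf P w).h σ (w.symm u : ℕ)) =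
          (fun σ : BFT.LE P => pos σ v < pos σ u) from
          funext fun σ => by rw [rpOf_h w σ u, rpOf_h w σ v]]
        rfl
      rw [h2] at h1
      exact le_trans h1 (le_max_right _ _)
  -- incomparable elements have index within `M`
  have hinc : ∀ y : P, ¬ x ≤ y → ¬ y ≤ x →
      (w.symm y : ℕ) ∈ Finset.Icc ((w.symm x : ℕ) - M) ((w.symm x : ℕ) + M) := by
    intro y h1 h2
    rw [Finset.mem_Icc]
    rcases lt_trichotomy (w.symm x : ℕ) (w.symm y : ℕ) with h | h | h
    · have := hM P _ hL x y h1 h2 h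
      constructor <;> omega
    · constructor <;> omega
    · have := hM P _ hL y x h2 h1 h
      constructor <;> omega
  rw [Nat.card_eq_fintype_card, Fintype.card_subtype]
  have h3 : (Finset.univ.filter (fun y : P => ¬ x ≤ y ∧ ¬ y ≤ x)).card ≤
      (Finset.Icc ((w.symm x : ℕ) - M) ((w.symm x : ℕ) + M)).card := by
    apply Finset.card_le_card_of_injOn (fun y => (w.symm y : ℕ))
    · intro y hy
      have hy' : y ∈ Finset.univ.filter (fun y : P => ¬ x ≤ y ∧ ¬ y ≤ x) := hy
      rw [Finset.mem_filter] at hy'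
      exact hinc y hy'.2.1 hy'.2.2
    · intro a _ b _ hab
      exact w.symm.injective (Fin.ext hab)
  rw [Nat.card_Icc] at h3
  omega

end Pool.Agent.Thin
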