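import Mathlib

namespace KSE

open Finset

/-- nodes of the chain -/
def kap (i j s N x y r : ℕ) : ℕ :=
  if r = 0 then i else if r ≤ N then i + (2 * r - 1) * s + (if Odd r then x else y) else j

theorem kap_step {i j s N x y : ℕ} (hs : 1 ≤ s) (hij : i < j) (hN : i + 2 * N * s ≤ j)
    (hN' : j < i + 2 * (N + 1) * s) (hx : x < s) (hy : y < s) {r : ℕ} (hr : r ≤ N) :
    kap i j s N x y r < kap i j s N x y (r + 1) ∧
      kap i j s N x y (r + 1) < kap i j s N x y r + 3 * s := by
  unfold kap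
  rcases Nat.eq_zero_or_pos r with rfl | hr0
  · rcases Nat.eq_zero_or_pos N with rfl | hN0
    · simp
      constructor
      · omega
      · have : 2 * (0 + 1) * s = 2 * s := by ring
        omega
    · simp [Nat.succ_le_of_lt hN0]
      constructor <;> omega
  · have hne : r ≠ 0 := by omega
    have h2r : (2 * r - 1) * s + s = 2 * r * s := by
      obtain ⟨q, rfl⟩ : ∃ q, r = q + 1 := ⟨r - 1, by omega⟩
      have : 2 * (q + 1) - 1 = 2 * q + 1 := by omega
      rw [this]; ring
    rcases Nat.lt_or_ge r N with hlt | hge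
    · have h1 : r + 1 ≤ N := hlt
      have h2r' : (2 * (r + 1) - 1) * s = 2 * r * s + s := by
        have : 2 * (r + 1) - 1 = 2 * r + 1 := by omega
        rw [this]; ring
      simp only [hne, if_false, hr, if_true, h1, Nat.succ_ne_zero]
      split_ifs <;> constructor <;> omega
    · have hrN : r = N := le_antisymm hr hge
      subst hrN
      have h1 : ¬ (r + 1 ≤ r) := by omega
      simp only [hne, if_false, le_refl, if_true, h1, Nat.succ_ne_zero]
      have h3 : 2 * (r + 1) * s = 2 * r * s + 2 * s := by ring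
      split_ifs <;> constructor <;> omega

theorem kap_zero (i j s N x y : ℕ) : kap i j s N x y 0 = i := by simp [kap]

theorem kap_last (i j s N x y : ℕ) : kap i j s N x y (N + 1) = j := by simp [kap]

theorem chain_neg {n : ℕ} {neg : ℕ → ℕ → ℝ} {κ : ℕ → ℕ} {N : ℕ}
    (htri : ∀ a b d, a < b → b < d → d < n → neg a d ≤ neg a b + neg b d)
    (hκ : ∀ r, r ≤ N → κ r < κ (r + 1)) (hn : κ (N + 1) < n) :
    neg (κ 0) (κ (N + 1)) ≤ ∑ r ∈ range (N + 1), neg (κ r) (κ (r + 1)) := by
  have key : ∀ k, k ≤ N → κ 0 < κ (k + 1) ∧ κ (k+1) ≤ κ (N+1) := by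
    intro k hk
    constructor
    · induction k with
      | zero => exact hκ 0 (Nat.zero_le _)
      | succ k ih => exact lt_trans (ih (by omega)) (hκ (k + 1) hk)
    · obtain ⟨d, hd⟩ := Nat.exists_eq_add_of_le hk
      have : ∀ d, k + d ≤ N → κ (k + 1) ≤ κ (k + d + 1) := by
        intro d
        induction d with
        | zero => intro _; exact le_refl _
        | succ d ih =>
          intro h
          exact le_trans (ih (by omega)) (le_of_lt (hκ (k + d + 1) (by omega)))
      have := this d (by omega)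
      rwa [← hd] at this
  have main : ∀ k, k ≤ N → neg (κ 0) (κ (k + 1)) ≤ ∑ r ∈ range (k + 1), neg (κ r) (κ (r + 1)) := by
    intro k
    induction k with
    | zero => intro _; simp
    | succ k ih =>
      intro hk
      rw [sum_range_succ]
      have h1 := ih (by omega)
      have h2 := htri (κ 0) (κ (k + 1)) (κ (k + 1 + 1)) (key k (by omega)).1 (hκ (k + 1) hk)
        (lt_of_le_of_lt (key (k + 1) hk).2 hn)
      linarith
  exact main N le_rfl

theorem one_scale_xy {n : ℕ} {m : ℕ → ℝ} {p neg : ℕ → ℕ → ℝ} {c e ε η A K Q : ℝ}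
    (hp0 : ∀ a b, 0 ≤ p a b) (hp1 : ∀ a b, p a b ≤ 1)
    (hm : ∀ a b, a < b → b < n → m a < m b)
    (hneg : ∀ a b, a < b → b < n → c * neg a b ≤ p a b * (m b - m a))
    (htri : ∀ a b d, a < b → b < d → d < n → neg a d ≤ neg a b + neg b d)
    (hLD : ∀ a b, a < b → b < n → -(η * ((b:ℝ) - a)) - K ≤ (m b - b) - (m a - a))
    (hc : 0 ≤ c) (hη : 0 ≤ η) (hK : 0 ≤ K)
    {i j s N : ℕ} (hij : i < j) (hjn : j < n) (hs : 1 ≤ s)
    (hA : (j:ℝ) - i ≤ A * Q) (he : e * Q ≤ neg i j) (hε : (m j - j) - (m i - i) ≤ ε * Q)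
    (hpar : 28 * ε + 2 * η * A ≤ c * e / 2)
    (hKs : K ≤ η * s) (hsQ : (s:ℝ) ≤ ε * Q) (hKQ : K ≤ ε * Q) (hQ : 0 ≤ Q)
    (hN : i + 2 * N * s ≤ j) (hN' : j < i + 2 * (N + 1) * s)
    {x y : ℕ} (hx : x < s) (hy : y < s) :
    c * e * Q / 288 ≤ (s:ℝ) ^ 2 * ∑ r ∈ Ico 1 N,
      p (kap i j s N x y r) (kap i j s N x y (r + 1)) /
        (m (kap i j s N x y (r + 1)) - m (kap i j s N x y r)) := by
  set κ : ℕ → ℕ := kap i j s N x y with hκdef
  have hst : ∀ r, r ≤ N → κ r < κ (r + 1) ∧ κ (r + 1) < κ r + 3 * s :=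
    fun r hr => kap_step hs hij hN hN' hx hy hr
  have h0 : κ 0 = i := kap_zero _ _ _ _ _ _
  have hl : κ (N + 1) = j := kap_last _ _ _ _ _ _
  have hch := chain_neg (n := n) (neg := neg) (κ := κ) (N := N) htri (fun r hr => (hst r hr).1)
    (by rw [hl]; exact hjn)
  rw [h0, hl] at hch
  have hmono : ∀ r, r ≤ N → κ (r + 1) < n := by
    intro r hr
    have : ∀ d, r + d ≤ N → κ (r + 1) ≤ κ (r + d + 1) := by
      intro d
      induction d with
      | zero => intro _; exact le_refl _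
      | succ d ih =>
        intro h
        exact le_trans (ih (by omega)) (le_of_lt (hst (r + d + 1) (by omega)).1)
    have h := this (N - r) (by omega)
    rw [show r + (N - r) + 1 = N + 1 by omega, hl] at h
    omega
  have hs0 : (0:ℝ) < s := by exact_mod_cast hs
  -- per step
  set E : ℕ → ℝ := fun r => if 1 ≤ r ∧ r < N then
      144 * (s:ℝ) ^ 2 * (p (κ r) (κ (r + 1)) / (m (κ (r + 1)) - m (κ r))) else 12 * s with hE
  have hstep : ∀ r ∈ range (N + 1), c * neg (κ r) (κ (r + 1)) ≤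
      4 / 3 * (((m (κ (r + 1)) - κ (r + 1)) - (m (κ r) - κ r)) +
        η * ((κ (r + 1) : ℝ) - κ r) + K) + E r := by
    intro r hr
    have hr' : r ≤ N := Nat.lt_succ_iff.mp (mem_range.mp hr)
    obtain ⟨h1, h2⟩ := hst r hr'
    have hn := hmono r hr'
    have hg : 0 < m (κ (r + 1)) - m (κ r) := sub_pos.mpr (hm _ _ h1 hn)
    have hL := hLD _ _ h1 hn
    have hN1 := hneg _ _ h1 hn
    have hD : (κ (r + 1) : ℝ) - κ r ≤ 3 * s := by
      have : (κ (r + 1) : ℝ) < κ r + 3 * s := by exact_mod_cast h2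
      linarith
    set g := m (κ (r + 1)) - m (κ r) with hgdef
    set D := (κ (r + 1) : ℝ) - κ r with hDdef
    have hq0 := hp0 (κ r) (κ (r + 1))
    have hq1 := hp1 (κ r) (κ (r + 1))
    set q := p (κ r) (κ (r + 1)) with hq
    have hrew : (m (κ (r + 1)) - κ (r + 1)) - (m (κ r) - κ r) = g - D := by
      rw [hgdef, hDdef]; ring
    rw [hrew] at hL ⊢
    have hqg : 0 ≤ q / g := div_nonneg hq0 hg.le
    have hE0 : 0 ≤ E r := by
      simp only [hE]
      split_ifs
      · positivity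
      · positivity
    refine le_trans hN1 ?_
    have hD0 : 0 ≤ D := by
      have : (κ r : ℝ) ≤ κ (r + 1) := by exact_mod_cast h1.le
      rw [hDdef]; linarith
    have hηD : 0 ≤ η * D := mul_nonneg hη hD0
    by_cases hbad : 4 * D < g
    · -- bad
      have : q * g ≤ g := by nlinarith
      linarith
    · push Not at hbad
      have h3 : 0 ≤ g - D + η * D + K := by linarith
      have h4 : q * g ≤ E r := by
        simp only [hE]
        have hg12 : g ≤ 12 * s := by linarith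
        split_ifs
        · have : q * g = q / g * g ^ 2 := by field_simp
          rw [this, mul_comm]
          have : g ^ 2 ≤ 144 * (s:ℝ) ^ 2 := by nlinarith
          exact mul_le_mul_of_nonneg_right this hqg
        · nlinarith
      linarith
  have hsum := sum_le_sum hstep
  rw [← mul_sum, sum_add_distrib, ← mul_sum, sum_add_distrib, sum_add_distrib, ← mul_sum] at hsum
  have ht1 : ∑ r ∈ range (N + 1), ((m (κ (r + 1)) - κ (r + 1)) - (m (κ r) - κ r)) =
      (m j - j) - (m i - i) := by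
    have := sum_range_sub (fun r => m (κ r) - (κ r : ℝ)) (N + 1)
    simp only [hl, h0] at this
    exact this
  have ht2 : ∑ r ∈ range (N + 1), ((κ (r + 1) : ℝ) - κ r) = (j:ℝ) - i := by
    have := sum_range_sub (fun r => (κ r : ℝ)) (N + 1)
    simp only [hl, h0] at this
    exact this
  have hE2 : ∑ r ∈ range (N + 1), E r ≤ 24 * s + 144 * (s:ℝ) ^ 2 * ∑ r ∈ Ico 1 N,
      p (κ r) (κ (r + 1)) / (m (κ (r + 1)) - m (κ r)) := by
    have hEr : ∀ r ∈ range (N + 1), E r ≤ (if r ∈ Ico 1 N then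
      144 * (s:ℝ) ^ 2 * (p (κ r) (κ (r + 1)) / (m (κ (r + 1)) - m (κ r))) else 0) +
        ((if r = 0 then 12 * (s:ℝ) else 0) + (if r = N then 12 * (s:ℝ) else 0)) := by
      intro r hr
      have hr' : r ≤ N := Nat.lt_succ_iff.mp (mem_range.mp hr)
      simp only [hE, mem_Ico]
      by_cases h : 1 ≤ r ∧ r < N
      · rw [if_pos h, if_pos h]
        have h1 : r ≠ 0 := by omega
        have h2 : r ≠ N := by omega
        simp [h1, h2]
      · rw [if_neg h, if_neg h]
        rcases Nat.eq_zero_or_pos r with h1 | h1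
        · rw [if_pos h1]
          split_ifs <;> linarith
        · have h2 : r = N := by omega
          rw [if_pos h2]
          split_ifs <;> linarith
    refine le_trans (sum_le_sum hEr) ?_
    rw [sum_add_distrib, sum_add_distrib, sum_ite_mem, sum_ite_eq', sum_ite_eq', ← mul_sum]
    have : range (N + 1) ∩ Ico 1 N = Ico 1 N := by
      ext r; simp only [mem_inter, mem_range, mem_Ico]; omega
    rw [this]
    simp
    linarith
  have hchain : c * neg i j ≤ c * ∑ r ∈ range (N + 1), neg (κ r) (κ (r + 1)) :=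
    mul_le_mul_of_nonneg_left hch hc
  rw [ht1, ht2, sum_const, card_range, nsmul_eq_mul] at hsum
  have hKN : ((N + 1 : ℕ) : ℝ) * K ≤ η * ((j:ℝ) - i) / 2 + K := by
    have h1 : (i:ℝ) + 2 * N * s ≤ j := by exact_mod_cast hN
    push_cast
    have h2 : (N:ℝ) * K ≤ N * (η * s) := mul_le_mul_of_nonneg_left hKs (Nat.cast_nonneg _)
    nlinarith
  have hce : c * (e * Q) ≤ c * neg i j := mul_le_mul_of_nonneg_left he hc
  have hηA : η * ((j:ℝ) - i) ≤ η * (A * Q) := mul_le_mul_of_nonneg_left hA hη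
  have hparQ : (28 * ε + 2 * η * A) * Q ≤ c * e / 2 * Q := mul_le_mul_of_nonneg_right hpar hQ
  have hεQ : 0 ≤ ε * Q := le_trans hs0.le hsQ
  set S := ∑ r ∈ Ico 1 N, p (κ r) (κ (r + 1)) / (m (κ (r + 1)) - m (κ r)) with hS
  nlinarith

theorem kap_mid {i j s N x y r : ℕ} (h1 : 1 ≤ r) (h2 : r ≤ N) :
    kap i j s N x y r = i + (2 * r - 1) * s + (if Odd r then x else y) := by
  have : r ≠ 0 := by omega
  simp [kap, this, h2]

theorem one_scale {n : ℕ} {m : ℕ → ℝ} {p neg : ℕ → ℕ → ℝ} {c e ε η A K Q : ℝ}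
    (hp0 : ∀ a b, 0 ≤ p a b) (hp1 : ∀ a b, p a b ≤ 1)
    (hm : ∀ a b, a < b → b < n → m a < m b)
    (hneg : ∀ a b, a < b → b < n → c * neg a b ≤ p a b * (m b - m a))
    (htri : ∀ a b d, a < b → b < d → d < n → neg a d ≤ neg a b + neg b d)
    (hLD : ∀ a b, a < b → b < n → -(η * ((b:ℝ) - a)) - K ≤ (m b - b) - (m a - a))
    (hc : 0 ≤ c) (hη : 0 ≤ η) (hK : 0 ≤ K)
    {i j s : ℕ} (hij : i < j) (hjn : j < n) (hs : 1 ≤ s)
    (hA : (j:ℝ) - i ≤ A * Q) (he : e * Q ≤ neg i j) (hε : (m j - j) - (m i - i) ≤ ε * Q)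
    (hpar : 28 * ε + 2 * η * A ≤ c * e / 2)
    (hKs : K ≤ η * s) (hsQ : (s:ℝ) ≤ ε * Q) (hKQ : K ≤ ε * Q) (hQ : 0 ≤ Q) :
    c * e * Q / 288 ≤ ∑ q ∈ (Icc i j ×ˢ Icc i j).filter
      (fun q => q.1 + s < q.2 ∧ q.2 < q.1 + 3 * s), p q.1 q.2 / (m q.2 - m q.1) := by
  set N := (j - i) / (2 * s) with hNdef
  have hN : i + 2 * N * s ≤ j := by
    have := Nat.div_mul_le_self (j - i) (2 * s)
    have h2 : (j - i) / (2 * s) * (2 * s) = 2 * N * s := by rw [← hNdef]; ring
    omega
  have hN' : j < i + 2 * (N + 1) * s := by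
    have := Nat.lt_div_mul_add (a := j - i) (b := 2 * s) (by omega)
    have h2 : (j - i) / (2 * s) * (2 * s) + 2 * s = 2 * (N + 1) * s := by rw [← hNdef]; ring
    omega
  have hs0 : (0:ℝ) < s := by exact_mod_cast hs
  set F : ℕ → ℕ → ℝ := fun k l => p k l / (m l - m k) with hF
  have hxy : ∀ x ∈ range s, ∀ y ∈ range s, c * e * Q / 288 ≤ (s:ℝ) ^ 2 * ∑ r ∈ Ico 1 N,
      F (kap i j s N x y r) (kap i j s N x y (r + 1)) := by
    intro x hx y hy
    exact one_scale_xy hp0 hp1 hm hneg htri hLD hc hη hK hij hjn hs hA he hε hpar hKs hsQ hKQ hQ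
      hN hN' (mem_range.mp hx) (mem_range.mp hy)
  have h1 : ∑ x ∈ range s, ∑ y ∈ range s, (c * e * Q / 288) ≤ ∑ x ∈ range s, ∑ y ∈ range s,
      (s:ℝ) ^ 2 * ∑ r ∈ Ico 1 N, F (kap i j s N x y r) (kap i j s N x y (r + 1)) :=
    sum_le_sum fun x hx => sum_le_sum fun y hy => hxy x hx y hy
  simp only [sum_const, card_range, nsmul_eq_mul, ← mul_sum] at h1
  have h2 : c * e * Q / 288 ≤ ∑ x ∈ range s, ∑ y ∈ range s, ∑ r ∈ Ico 1 N,
      F (kap i j s N x y r) (kap i j s N x y (r + 1)) := by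
    have h3 : (s:ℝ) ^ 2 * (c * e * Q / 288) ≤ (s:ℝ) ^ 2 * ∑ x ∈ range s, ∑ y ∈ range s,
      ∑ r ∈ Ico 1 N, F (kap i j s N x y r) (kap i j s N x y (r + 1)) := by
      calc (s:ℝ) ^ 2 * (c * e * Q / 288) = s * (s * (c * e * Q / 288)) := by ring
        _ ≤ _ := h1
    exact le_of_mul_le_mul_left h3 (by positivity)
  refine le_trans h2 ?_
  -- reorganise
  have h4 : ∑ x ∈ range s, ∑ y ∈ range s, ∑ r ∈ Ico 1 N,
      F (kap i j s N x y r) (kap i j s N x y (r + 1)) =
      ∑ r ∈ Ico 1 N, ∑ x ∈ range s, ∑ y ∈ range s,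
        F (i + (2 * r - 1) * s + x) (i + (2 * r + 1) * s + y) := by
    have h5 : ∑ x ∈ range s, ∑ y ∈ range s, ∑ r ∈ Ico 1 N,
      F (kap i j s N x y r) (kap i j s N x y (r + 1)) = ∑ r ∈ Ico 1 N, ∑ x ∈ range s,
        ∑ y ∈ range s, F (kap i j s N x y r) (kap i j s N x y (r + 1)) := by
      rw [sum_comm' (s := range s) (t := fun _ => range s) (t' := range s) (s' := fun _ => range s)
        (by intro x y; tauto)]
      rw [sum_comm]
      simp_rw [sum_comm (s := range s) (t := Ico 1 N)]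
    rw [h5]
    refine sum_congr rfl fun r hr => ?_
    rw [mem_Ico] at hr
    have e1 : ∀ x y, kap i j s N x y r = i + (2 * r - 1) * s + (if Odd r then x else y) :=
      fun x y => kap_mid hr.1 hr.2.le
    have e2 : ∀ x y, kap i j s N x y (r + 1) = i + (2 * r + 1) * s + (if Odd r then y else x) := by
      intro x y
      rw [kap_mid (by omega) (by omega)]
      have : 2 * (r + 1) - 1 = 2 * r + 1 := by omega
      rw [this]
      by_cases h : Odd r
      · have : ¬ Odd (r + 1) := by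
          rw [Nat.odd_add_one]; exact not_not.mpr h
        simp [h, this]
      · have : Odd (r + 1) := by
          rw [Nat.odd_add_one]; exact h
        simp [h, this]
    simp_rw [e1, e2]
    by_cases h : Odd r
    · simp [h]
    · simp only [h, if_false]
      exact sum_comm
  rw [h4]
  have h6 : ∑ r ∈ Ico 1 N, ∑ x ∈ range s, ∑ y ∈ range s,
        F (i + (2 * r - 1) * s + x) (i + (2 * r + 1) * s + y) =
      ∑ t ∈ Ico 1 N ×ˢ (range s ×ˢ range s),
        F (i + (2 * t.1 - 1) * s + t.2.1) (i + (2 * t.1 + 1) * s + t.2.2) := by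
    rw [sum_product]
    refine sum_congr rfl fun r _ => ?_
    rw [sum_product]
  rw [h6]
  have hinj : Set.InjOn (fun t : ℕ × ℕ × ℕ =>
      (i + (2 * t.1 - 1) * s + t.2.1, i + (2 * t.1 + 1) * s + t.2.2))
      (Ico 1 N ×ˢ (range s ×ˢ range s) : Finset (ℕ × ℕ × ℕ)) := by
    rintro ⟨r, x, y⟩ h ⟨r', x', y'⟩ h' heq
    simp only [coe_product, Set.mem_prod, mem_coe, mem_Ico, mem_range] at h h'
    simp only [Prod.mk.injEq] at heq
    have hr : r = r' := by
      rcases lt_trichotomy r r' with hlt | heq' | hgt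
      · exfalso
        have : (2 * r + 1) * s + 2 * s ≤ (2 * r' + 1) * s := by
          have : (2 * r + 1) * s + 2 * s = (2 * (r + 1) + 1) * s := by ring
          rw [this]
          exact Nat.mul_le_mul_right s (by omega)
        omega
      · exact heq'
      · exfalso
        have : (2 * r' + 1) * s + 2 * s ≤ (2 * r + 1) * s := by
          have : (2 * r' + 1) * s + 2 * s = (2 * (r' + 1) + 1) * s := by ring
          rw [this]
          exact Nat.mul_le_mul_right s (by omega)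
        omega
    subst hr
    have hx : x = x' := by omega
    have hy : y = y' := by omega
    rw [hx, hy]
  have h7 := sum_image (f := fun q : ℕ × ℕ => F q.1 q.2) (s := Ico 1 N ×ˢ (range s ×ˢ range s))
    (g := fun t : ℕ × ℕ × ℕ =>
      (i + (2 * t.1 - 1) * s + t.2.1, i + (2 * t.1 + 1) * s + t.2.2)) hinj
  simp only at h7
  rw [← h7]
  refine sum_le_sum_of_subset_of_nonneg ?_ ?_
  · intro q hq
    rw [mem_image] at hq
    obtain ⟨⟨r, x, y⟩, ht, rfl⟩ := hq
    simp only [mem_product, mem_Ico, mem_range] at ht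
    simp only [mem_filter, mem_product, mem_Icc]
    obtain ⟨⟨hr1, hrN⟩, hx, hy⟩ := ht
    have h8 : (2 * r + 1) * s + s ≤ 2 * N * s := by
      have : (2 * r + 1) * s + s = (2 * r + 2) * s := by ring
      rw [this]
      exact Nat.mul_le_mul_right s (by omega)
    have h9 : (2 * r - 1) * s + 2 * s = (2 * r + 1) * s := by
      obtain ⟨q, rfl⟩ : ∃ q, r = q + 1 := ⟨r - 1, by omega⟩
      have : 2 * (q + 1) - 1 = 2 * q + 1 := by omega
      rw [this]; ring
    refine ⟨⟨⟨?_, ?_⟩, ?_, ?_⟩, ?_, ?_⟩ <;> omega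
  · intro q hq _
    simp only [mem_filter, mem_product, mem_Icc] at hq
    refine div_nonneg (hp0 _ _) (sub_nonneg.mpr (hm _ _ (by omega) (by omega)).le)

end KSE
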