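import Mathlib
import Pool.Agent.Lib_MP_33fb9b_ks.OneScaleG

namespace KSE

open Finset

/-- the energy of all pairs inside `[i, j]` -/
theorem energy_Icc {n : ℕ} {m : ℕ → ℝ} {p : ℕ → ℕ → ℝ} {c : ℝ}
    (hp0 : ∀ a b, 0 ≤ p a b) (hm : ∀ a b, a < b → b < n → m a < m b)
    (hen : ∀ a, a < n → ∑ b ∈ Ioo a n, p a b / (m b - m a) ≤ 1 / c)
    {i j : ℕ} (hij : i < j) (hjn : j < n) :
    ∑ q ∈ (Icc i j ×ˢ Icc i j).filter (fun q => q.1 < q.2), p q.1 q.2 / (m q.2 - m q.1) ≤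
      ((j:ℝ) - i + 1) / c := by
  have h1 : ∑ q ∈ (Icc i j ×ˢ Icc i j).filter (fun q => q.1 < q.2),
      p q.1 q.2 / (m q.2 - m q.1) =
      ∑ a ∈ Icc i j, ∑ b ∈ (Icc i j).filter (fun b => a < b), p a b / (m b - m a) := by
    rw [sum_filter, sum_product]
    refine sum_congr rfl fun a _ => ?_
    rw [sum_filter]
  rw [h1]
  have h2 : ∀ a ∈ Icc i j, ∑ b ∈ (Icc i j).filter (fun b => a < b), p a b / (m b - m a) ≤
      1 / c := by
    intro a ha
    rw [mem_Icc] at ha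
    refine le_trans ?_ (hen a (by omega))
    refine sum_le_sum_of_subset_of_nonneg ?_ ?_
    · intro b hb
      simp only [mem_filter, mem_Icc] at hb
      rw [mem_Ioo]; omega
    · intro b hb _
      rw [mem_Ioo] at hb
      exact div_nonneg (hp0 _ _) (sub_nonneg.mpr (hm _ _ hb.1 hb.2).le)
  refine le_trans (sum_le_sum h2) ?_
  rw [sum_const, Nat.card_Icc, nsmul_eq_mul]
  have : ((j + 1 - i : ℕ) : ℝ) = (j:ℝ) - i + 1 := by
    rw [Nat.cast_sub (by omega)]; push_cast; ring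
  rw [this, mul_one_div]

theorem multi_scale {c A e ε η K : ℝ} (hc : 0 < c) (hA : 0 < A) (he : 0 < e) (hε : 0 < ε)
    (hη : 0 < η) (hK : 0 ≤ K) (hpar : 28 * ε + 2 * η * A ≤ c * e / 2) :
    ∃ Qs : ℝ, ∀ (n : ℕ) (m : ℕ → ℝ) (p neg : ℕ → ℕ → ℝ),
      (∀ a b, 0 ≤ p a b) → (∀ a b, p a b ≤ 1) →
      (∀ a b, a < b → b < n → m a < m b) →
      (∀ a b, a < b → b < n → c * neg a b ≤ p a b * (m b - m a)) →
      (∀ a b d, a < b → b < d → d < n → neg a d ≤ neg a b + neg b d) →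
      (∀ a b, a < b → b < n → -(η * ((b:ℝ) - a)) - K ≤ (m b - b) - (m a - a)) →
      (∀ a, a < n → ∑ b ∈ Ioo a n, p a b / (m b - m a) ≤ 1 / c) →
      ∀ (Q : ℝ) (i j : ℕ), i < j → j < n → (j:ℝ) - i ≤ A * Q → e * Q ≤ neg i j →
        (m j - j) - (m i - i) ≤ ε * Q → Q ≤ Qs := by
  obtain ⟨M, hM⟩ := exists_nat_gt (576 * A / (c ^ 2 * e))
  obtain ⟨s0, hs0⟩ := exists_nat_gt (K / η)
  have hs0' : 0 < s0 := by
    rcases Nat.eq_zero_or_pos s0 with h | h
    · rw [h] at hs0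
      have : 0 ≤ K / η := div_nonneg hK hη.le
      simp at hs0; linarith
    · exact h
  refine ⟨1 / A + s0 * 3 ^ M / ε + K / ε, ?_⟩
  intro n m p neg hp0 hp1 hm hneg htri hLD hen Q i j hij hjn hAQ heQ hεQ
  by_contra hQ
  push Not at hQ
  have t1 : 0 < 1 / A := by positivity
  have t2 : 0 ≤ s0 * 3 ^ M / ε := by positivity
  have t3 : 0 ≤ K / ε := by positivity
  have hQ0 : 0 < Q := by linarith
  have hAQ1 : 1 ≤ A * Q := by
    have : 1 / A < Q := by linarith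
    rw [div_lt_iff₀ hA] at this; linarith
  have hsQ : (s0:ℝ) * 3 ^ M ≤ ε * Q := by
    have : s0 * 3 ^ M / ε < Q := by linarith
    rw [div_lt_iff₀ hε] at this; linarith
  have hKQ : K ≤ ε * Q := by
    have : K / ε < Q := by linarith
    rw [div_lt_iff₀ hε] at this; linarith
  have hKs0 : K ≤ η * s0 := by
    rw [div_lt_iff₀ hη] at hs0; linarith
  have hscale : ∀ t ∈ range M, c * e * Q / 288 ≤ ∑ q ∈ (Icc i j ×ˢ Icc i j).filter
      (fun q => q.1 + s0 * 3 ^ t < q.2 ∧ q.2 < q.1 + 3 * (s0 * 3 ^ t)),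
        p q.1 q.2 / (m q.2 - m q.1) := by
    intro t ht
    rw [mem_range] at ht
    have h1 : 1 ≤ s0 * 3 ^ t := Nat.mul_pos hs0' (by positivity)
    have h2 : (s0 : ℝ) ≤ s0 * 3 ^ t := by
      have : (1:ℝ) ≤ 3 ^ t := one_le_pow₀ (by norm_num)
      nlinarith [Nat.cast_nonneg (α := ℝ) s0]
    have h3 : (s0 : ℝ) * 3 ^ t ≤ s0 * 3 ^ M := by
      have : (3:ℝ) ^ t ≤ 3 ^ M := pow_le_pow_right₀ (by norm_num) ht.le
      exact mul_le_mul_of_nonneg_left this (Nat.cast_nonneg _)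
    refine one_scale (A := A) (ε := ε) (η := η) (K := K) hp0 hp1 hm hneg htri hLD hc.le hη.le hK
      hij hjn h1 hAQ heQ hεQ hpar ?_ ?_ hKQ hQ0.le
    · push_cast
      refine le_trans hKs0 (mul_le_mul_of_nonneg_left h2 hη.le)
    · push_cast
      linarith
  have htot : ∑ t ∈ range M, ∑ q ∈ (Icc i j ×ˢ Icc i j).filter
      (fun q => q.1 + s0 * 3 ^ t < q.2 ∧ q.2 < q.1 + 3 * (s0 * 3 ^ t)),
        p q.1 q.2 / (m q.2 - m q.1) ≤ ((j:ℝ) - i + 1) / c := by
    rw [← sum_biUnion]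
    · refine le_trans ?_ (energy_Icc hp0 hm hen hij hjn)
      refine sum_le_sum_of_subset_of_nonneg ?_ ?_
      · intro q hq
        simp only [mem_biUnion, mem_filter, mem_product, mem_Icc] at hq ⊢
        obtain ⟨t, _, h, h2, _⟩ := hq
        exact ⟨h, by omega⟩
      · intro q hq _
        simp only [mem_filter, mem_product, mem_Icc] at hq
        exact div_nonneg (hp0 _ _) (sub_nonneg.mpr (hm _ _ hq.2 (by omega)).le)
    · intro t ht t' ht' hne
      rw [Function.onFun, Finset.disjoint_left]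
      intro q hq hq'
      simp only [mem_filter, mem_product, mem_Icc] at hq hq'
      rcases lt_or_gt_of_ne hne with h | h
      · have : s0 * (3 * 3 ^ t) ≤ s0 * 3 ^ t' := by
          refine Nat.mul_le_mul_left s0 ?_
          rw [← pow_succ']
          exact Nat.pow_le_pow_right (by norm_num) h
        have h5 : 3 * (s0 * 3 ^ t) = s0 * (3 * 3 ^ t) := by ring
        omega
      · have : s0 * (3 * 3 ^ t') ≤ s0 * 3 ^ t := by
          refine Nat.mul_le_mul_left s0 ?_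
          rw [← pow_succ']
          exact Nat.pow_le_pow_right (by norm_num) h
        have h5 : 3 * (s0 * 3 ^ t') = s0 * (3 * 3 ^ t') := by ring
        omega
  have h6 := sum_le_sum hscale
  rw [sum_const, card_range, nsmul_eq_mul] at h6
  have h7 : ((j:ℝ) - i + 1) / c ≤ 2 * A * Q / c := by
    apply div_le_div_of_nonneg_right _ hc.le
    linarith
  have h8 : (M:ℝ) * (c * e * Q / 288) ≤ 2 * A * Q / c := by linarith
  rw [le_div_iff₀ hc] at h8
  have h9 : (M:ℝ) * (c ^ 2 * e) ≤ 576 * A := by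
    have h10 : ((M:ℝ) * (c ^ 2 * e)) * Q ≤ (576 * A) * Q := by nlinarith
    exact le_of_mul_le_mul_right h10 hQ0
  rw [div_lt_iff₀ (by positivity)] at hM
  linarith

end KSE
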