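import Pool.Agent.Lib_MP_33fb9b_ks.Scale
import Pool.Agent.Lib_MP_33fb9b_ks.MultiG

set_option autoImplicit false

/-!
# S8: all scales together (A.6)
-/

namespace Pool.Agent.Thin.RP

open Finset

/-- (A.6) -/
theorem multi (c A e ε η K : ℝ) (hc : 0 < c) (hc1 : c ≤ 1) (hA : 0 < A) (he : 0 < e)
    (hε : 0 < ε) (hη : 0 < η) (hK : 0 ≤ K) (hpar : 28 * ε + 2 * η * A ≤ c * e / 2) :
    ∃ Q0 : ℝ, ∀ (C : ℝ) (n : ℕ) (X : RP n), X.Good c C → X.LDp η K →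
      ∀ (Q : ℝ) (i j : ℕ), 0 < Q → i < j → j < n → (j : ℝ) - i ≤ A * Q →
        e * Q ≤ X.neg i j → X.u j - X.u i ≤ ε * Q → Q ≤ Q0 := by
  obtain ⟨Qs, hQs⟩ := KSE.multi_scale hc hA he hε hη hK hpar
  refine ⟨Qs, ?_⟩
  intro C n X hX hLD Q i j _ hij hj hAQ hneg hu
  refine hQs n X.m X.p X.neg X.p_nonneg X.p_le_one hX.mono hX.a3
    (fun a b d _ _ _ => X.neg_triangle a b d) hLD ?_ Q i j hij hj hAQ hneg hu
  intro a ha
  refine le_trans ?_ (hX.a4 a ha)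
  have h1 : ∑ b ∈ Ioo a n, X.p a b / (X.m b - X.m a) = ∑ b ∈ Ioo a n, X.e a b := by
    refine sum_congr rfl fun b hb => ?_
    rw [mem_Ioo] at hb
    exact (X.e_of_lt hX hb.1 hb.2).symm
  rw [h1]
  refine sum_le_sum_of_subset_of_nonneg ?_ ?_
  · intro b hb
    rw [mem_Ioo] at hb
    rw [mem_range]; exact hb.2
  · intro b _ _
    exact X.e_nonneg _ _

end Pool.Agent.Thin.RP
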