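import Mathlib

set_option autoImplicit false

/-!
# One scale (abstract form)
-/

namespace KS.Abs

open Finset

/-- triangle inequality along a chain -/
theorem chain_tri (F : ℕ → ℕ → ℝ) (κ : ℕ → ℕ) (n : ℕ)
    (htri : ∀ t, 1 ≤ t → t ≤ n → F (κ 0) (κ (t + 1)) ≤ F (κ 0) (κ t) + F (κ t) (κ (t + 1))) :
    F (κ 0) (κ (n + 1)) ≤ ∑ t ∈ range (n + 1), F (κ t) (κ (t + 1)) := by
  induction n with
  | zero => simp
  | succ n ih =>
    rw [sum_range_succ]
    have h1 := htri (n + 1) (by omega) le_rfl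
    have h2 := ih (fun t h1 h2 => htri t h1 (by omega))
    linarith

/-- one step of the chain -/
theorem one_step (c eta K s D g p nn : ℝ) (e : Prop) [Decidable e]
    (hA3 : c * nn ≤ p * g) (hg : 0 < g) (hp0 : 0 ≤ p) (hp1 : p ≤ 1)
    (hD0 : 0 < D) (hD : D ≤ 3 * s) (hLD : 0 ≤ g - D + eta * D + K) (hetaD : 0 ≤ eta * D) (hK : 0 ≤ K) :
    c * nn ≤ 4 / 3 * (g - D + eta * D + K) + (if e then 12 * s else 144 * s ^ 2 * (p / g)) := by
  have hs : 0 < s := by linarith
  have hpg : p / g * g = p := div_mul_cancel₀ _ hg.ne'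
  have hpg0 : 0 ≤ p / g := div_nonneg hp0 hg.le
  by_cases hb : 4 * D < g
  · have h1 : p * g ≤ g := by nlinarith
    have h2 : (0 : ℝ) ≤ if e then 12 * s else 144 * s ^ 2 * (p / g) := by
      split_ifs <;> positivity
    linarith
  · push Not at hb
    have hg12 : g ≤ 12 * s := by linarith
    split_ifs with he
    · have h1 : p * g ≤ g := by nlinarith
      linarith
    · have h1 : p * g ≤ 144 * s ^ 2 * (p / g) := by
        have h2 : p * g = (p / g) * (g * g) := by
          rw [← mul_assoc, hpg]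
        have h3 : g * g ≤ 144 * s ^ 2 := by nlinarith
        rw [h2, mul_comm (144 * s ^ 2)]
        exact mul_le_mul_of_nonneg_left h3 hpg0
      linarith

/-- the nodes of the chain -/
def node (i j s N x y : ℕ) (t : ℕ) : ℕ :=
  if t = 0 then i else if t = N + 1 then j
  else i + (2 * t - 1) * s + (if t % 2 = 1 then x else y)

theorem node_zero (i j s N x y : ℕ) : node i j s N x y 0 = i := by
  unfold node; rw [if_pos rfl]

theorem node_last (i j s N x y : ℕ) : node i j s N x y (N + 1) = j := by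
  unfold node; rw [if_neg (by omega), if_pos rfl]

theorem node_mid (i j s N x y t : ℕ) (h1 : 1 ≤ t) (h2 : t ≤ N) :
    node i j s N x y t = i + (2 * t - 1) * s + (if t % 2 = 1 then x else y) := by
  unfold node; rw [if_neg (by omega), if_neg (by omega)]

theorem node_range (i j s N x y t : ℕ) (hx : x < s) (hy : y < s) (h1 : 1 ≤ t) (h2 : t ≤ N) :
    i + (2 * t - 1) * s ≤ node i j s N x y t ∧
    node i j s N x y t < i + 2 * t * s := by
  rw [node_mid _ _ _ _ _ _ _ h1 h2]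
  obtain ⟨r, rfl⟩ : ∃ r, t = r + 1 := ⟨t - 1, by omega⟩
  have e1 : 2 * (r + 1) - 1 = 2 * r + 1 := by omega
  have e2 : 2 * (r + 1) * s = (2 * r + 1) * s + s := by ring
  rw [e1, e2]
  split_ifs <;> omega

/-- all steps of the chain are positive and at most `3 s` -/
theorem node_step (i j s N x y t : ℕ) (hx : x < s) (hy : y < s) (hN1 : i + 2 * N * s ≤ j)
    (hN2 : j < i + 2 * (N + 1) * s) (hij : i < j) (ht : t ≤ N) :
    node i j s N x y t < node i j s N x y (t + 1) ∧
    node i j s N x y (t + 1) ≤ node i j s N x y t + 3 * s := by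
  rcases Nat.eq_zero_or_pos t with h0 | h0
  · subst h0
    rw [node_zero]
    rcases Nat.eq_zero_or_pos N with hN | hN
    · subst hN
      rw [node_last]
      refine ⟨hij, ?_⟩
      have : 2 * (0 + 1) * s = 2 * s := by ring
      omega
    · have h := node_range i j s N x y (0 + 1) hx hy (by omega) (by omega)
      have e1 : (2 * (0 + 1) - 1) * s = s := by norm_num
      have e2 : 2 * (0 + 1) * s = 2 * s := by ring
      rw [e1, e2] at h
      omega
  · have h := node_range i j s N x y t hx hy h0 ht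
    obtain ⟨r, rfl⟩ : ∃ r, t = r + 1 := ⟨t - 1, by omega⟩
    have e1 : (2 * (r + 1) - 1) * s = 2 * (r * s) + s := by
      have : 2 * (r + 1) - 1 = 2 * r + 1 := by omega
      rw [this]; ring
    have e2 : 2 * (r + 1) * s = 2 * (r * s) + 2 * s := by ring
    rw [e1, e2] at h
    by_cases hl : r + 1 = N
    · subst hl
      rw [node_last]
      have e3 : 2 * (r + 1 + 1) * s = 2 * (r * s) + 4 * s := by ring
      rw [e2] at hN1
      rw [e3] at hN2
      omega
    · have h' := node_range i j s N x y (r + 1 + 1) hx hy (by omega) (by omega)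
      have e3 : (2 * (r + 1 + 1) - 1) * s = 2 * (r * s) + 3 * s := by
        have : 2 * (r + 1 + 1) - 1 = 2 * r + 3 := by omega
        rw [this]; ring
      have e4 : 2 * (r + 1 + 1) * s = 2 * (r * s) + 4 * s := by ring
      rw [e3, e4] at h'
      omega

/-- middle steps: index difference strictly between `s` and `3 s` -/
theorem node_mid_step (i j s N x y t : ℕ) (hx : x < s) (hy : y < s) (h1 : 1 ≤ t) (h2 : t < N) :
    node i j s N x y t + s < node i j s N x y (t + 1) ∧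
    node i j s N x y (t + 1) < node i j s N x y t + 3 * s := by
  rw [node_mid _ _ _ _ _ _ _ h1 (by omega), node_mid _ _ _ _ _ _ _ (by omega) (by omega)]
  obtain ⟨r, rfl⟩ : ∃ r, t = r + 1 := ⟨t - 1, by omega⟩
  have e1 : (2 * (r + 1) - 1) * s = 2 * (r * s) + s := by
    have : 2 * (r + 1) - 1 = 2 * r + 1 := by omega
    rw [this]; ring
  have e3 : (2 * (r + 1 + 1) - 1) * s = 2 * (r * s) + 3 * s := by
    have : 2 * (r + 1 + 1) - 1 = 2 * r + 3 := by omega
    rw [this]; ring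
  rw [e1, e3]
  split_ifs <;> omega

theorem node_bounds (i j s N x y t : ℕ) (hx : x < s) (hy : y < s) (hN1 : i + 2 * N * s ≤ j)
    (hij : i < j) (ht : t ≤ N + 1) : i ≤ node i j s N x y t ∧ node i j s N x y t ≤ j := by
  rcases Nat.eq_zero_or_pos t with h0 | h0
  · subst h0; rw [node_zero]; omega
  · by_cases hl : t = N + 1
    · subst hl; rw [node_last]; omega
    · have h := node_range i j s N x y t hx hy h0 (by omega)
      have : 2 * t * s ≤ 2 * N * s := Nat.mul_le_mul_right _ (by omega)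
      omega

/-- the map from steps to pairs is injective -/
theorem node_inj (i j s N : ℕ) (q q' : ℕ × ℕ × ℕ) (hx : q.2.1 < s) (hy : q.2.2 < s)
    (hx' : q'.2.1 < s) (hy' : q'.2.2 < s) (h1 : 1 ≤ q.1) (h2 : q.1 < N) (h1' : 1 ≤ q'.1)
    (h2' : q'.1 < N)
    (ha : node i j s N q.2.1 q.2.2 q.1 = node i j s N q'.2.1 q'.2.2 q'.1)
    (hb : node i j s N q.2.1 q.2.2 (q.1 + 1) = node i j s N q'.2.1 q'.2.2 (q'.1 + 1)) : q = q' := by
  obtain ⟨t, x, y⟩ := q
  obtain ⟨t', x', y'⟩ := q'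
  simp only at hx hy hx' hy' h1 h2 h1' h2' ha hb
  have r1 := node_range i j s N x y t hx hy h1 (by omega)
  have r2 := node_range i j s N x' y' t' hx' hy' h1' (by omega)
  have htt : t = t' := by
    rcases lt_trichotomy t t' with h | h | h
    · exfalso
      have : 2 * t * s ≤ (2 * t' - 1) * s := Nat.mul_le_mul_right _ (by omega)
      omega
    · exact h
    · exfalso
      have : 2 * t' * s ≤ (2 * t - 1) * s := Nat.mul_le_mul_right _ (by omega)
      omega
  subst htt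
  rw [node_mid _ _ _ _ _ _ _ h1 (by omega), node_mid _ _ _ _ _ _ _ h1 (by omega)] at ha
  rw [node_mid _ _ _ _ _ _ _ (by omega) (by omega), node_mid _ _ _ _ _ _ _ (by omega) (by omega)] at hb
  have hx2 : x = x' ∧ y = y' := by
    by_cases hpar : t % 2 = 1
    · have hpar' : ¬ (t + 1) % 2 = 1 := by omega
      rw [if_pos hpar, if_pos hpar] at ha
      rw [if_neg hpar', if_neg hpar'] at hb
      omega
    · have hpar' : (t + 1) % 2 = 1 := by omega
      rw [if_neg hpar, if_neg hpar] at ha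
      rw [if_pos hpar', if_pos hpar'] at hb
      omega
  rw [hx2.1, hx2.2]

/-- the pairs of indices at scale `s` inside `[i, j]` -/
def scalePairs (i j s : ℕ) : Finset (ℕ × ℕ) :=
  ((Icc i j) ×ˢ (Icc i j)).filter fun q => q.1 + s < q.2 ∧ q.2 < q.1 + 3 * s

theorem one_chain (p neg : ℕ → ℕ → ℝ) (m : ℕ → ℝ) (c A Q e eps eta K : ℝ) (i j s N x y : ℕ)
    (hm : ∀ k l, i ≤ k → k < l → l ≤ j → m k < m l)
    (htri : ∀ k l r, i ≤ k → k < l → l < r → r ≤ j → neg k r ≤ neg k l + neg l r)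
    (hA3 : ∀ k l, i ≤ k → k < l → l ≤ j → c * neg k l ≤ p k l * (m l - m k))
    (hp0 : ∀ k l, 0 ≤ p k l) (hp1 : ∀ k l, p k l ≤ 1)
    (hLD : ∀ k l : ℕ, i ≤ k → k < l → l ≤ j →
      -eta * ((l : ℝ) - k) - K ≤ (m l - l) - (m k - k))
    (hc : 0 < c) (heta : 0 ≤ eta) (hK0 : 0 ≤ K) (hij : i < j)
    (hjA : (j : ℝ) - i ≤ A * Q) (hneg : e * Q ≤ neg i j)
    (hu : (m j - j) - (m i - i) ≤ eps * Q) (hQ : 0 ≤ Q)
    (h28 : 28 * eps + 2 * eta * A ≤ c * e / 2) (hs1 : K ≤ eta * s) (hs2 : (s : ℝ) ≤ eps * Q)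
    (hK : K ≤ eps * Q) (hN1 : i + 2 * N * s ≤ j)
    (hN2 : j < i + 2 * (N + 1) * s) (hx : x < s) (hy : y < s) :
    c * e * Q / 2 ≤ 144 * (s : ℝ) ^ 2 * ∑ t ∈ Ico 1 N,
      (p (node i j s N x y t) (node i j s N x y (t + 1)) /
        (m (node i j s N x y (t + 1)) - m (node i j s N x y t))) := by
  set κ := node i j s N x y with hκ
  have hstep := fun t (ht : t ≤ N) => node_step i j s N x y t hx hy hN1 hN2 hij ht
  have hbd := fun t (ht : t ≤ N + 1) => node_bounds i j s N x y t hx hy hN1 hij ht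
  rw [← hκ] at hstep hbd
  have k0 : κ 0 = i := node_zero i j s N x y
  have k1 : κ (N + 1) = j := node_last i j s N x y
  have hmono : ∀ t, t ≤ N → κ 0 < κ (t + 1) := by
    intro t
    induction t with
    | zero => intro h; exact (hstep 0 h).1
    | succ t ih => intro h; exact (ih (by omega)).trans (hstep (t + 1) h).1
  have h1 : neg i j ≤ ∑ t ∈ range (N + 1), neg (κ t) (κ (t + 1)) := by
    have := chain_tri neg κ N (by
      intro t ht1 ht2
      obtain ⟨r, rfl⟩ : ∃ r, t = r + 1 := ⟨t - 1, by omega⟩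
      apply htri
      · exact (hbd 0 (by omega)).1
      · exact hmono r (by omega)
      · exact (hstep (r + 1) ht2).1
      · exact (hbd (r + 1 + 1) (by omega)).2)
    rw [k0, k1] at this
    exact this
  have h2 : ∀ t ∈ range (N + 1), c * neg (κ t) (κ (t + 1)) ≤
      4 / 3 * ((m (κ (t + 1)) - m (κ t)) - ((κ (t + 1) : ℝ) - κ t) + eta * ((κ (t + 1) : ℝ) - κ t) + K)
      + (if t = 0 ∨ t = N then 12 * (s : ℝ) else
        144 * (s : ℝ) ^ 2 * (p (κ t) (κ (t + 1)) / (m (κ (t + 1)) - m (κ t)))) := by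
    intro t ht
    rw [mem_range] at ht
    have hs' := hstep t (by omega)
    have hb1 := hbd t (by omega)
    have hb2 := hbd (t + 1) (by omega)
    have hD0 : (0 : ℝ) < (κ (t + 1) : ℝ) - κ t := by
      rw [sub_pos]; exact_mod_cast hs'.1
    have hD3 : (κ (t + 1) : ℝ) - κ t ≤ 3 * s := by
      rw [sub_le_iff_le_add]
      have : κ (t + 1) ≤ 3 * s + κ t := by omega
      exact_mod_cast this
    apply one_step c eta K s ((κ (t + 1) : ℝ) - κ t) (m (κ (t + 1)) - m (κ t))
      (p (κ t) (κ (t + 1))) (neg (κ t) (κ (t + 1))) (t = 0 ∨ t = N)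
      (hA3 _ _ hb1.1 hs'.1 hb2.2) _ (hp0 _ _) (hp1 _ _) hD0 hD3 _ _ hK0
    · rw [sub_pos]; exact hm _ _ hb1.1 hs'.1 hb2.2
    · have := hLD _ _ hb1.1 hs'.1 hb2.2
      linarith
    · positivity
  have h3 : c * (e * Q) ≤ ∑ t ∈ range (N + 1), c * neg (κ t) (κ (t + 1)) := by
    rw [← mul_sum]
    exact mul_le_mul_of_nonneg_left (hneg.trans h1) hc.le
  have h4 := h3.trans (sum_le_sum h2)
  rw [sum_add_distrib, ← mul_sum] at h4
  -- telescoping
  have h5 : ∑ t ∈ range (N + 1), ((m (κ (t + 1)) - m (κ t)) - ((κ (t + 1) : ℝ) - κ t)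
      + eta * ((κ (t + 1) : ℝ) - κ t) + K)
      = (m j - m i) - ((j : ℝ) - i) + eta * ((j : ℝ) - i) + (N + 1) * K := by
    rw [sum_add_distrib, sum_add_distrib, sum_sub_distrib, ← mul_sum,
      sum_range_sub (fun t => m (κ t)), sum_range_sub (fun t => (κ t : ℝ)), k0, k1, sum_const,
      card_range, nsmul_eq_mul]
    push_cast
    ring
  rw [h5] at h4
  -- the ends
  have h6 : ∑ t ∈ range (N + 1), (if t = 0 ∨ t = N then 12 * (s : ℝ) else
        144 * (s : ℝ) ^ 2 * (p (κ t) (κ (t + 1)) / (m (κ (t + 1)) - m (κ t))))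
      ≤ 24 * s + 144 * (s : ℝ) ^ 2 * ∑ t ∈ Ico 1 N,
        (p (κ t) (κ (t + 1)) / (m (κ (t + 1)) - m (κ t))) := by
    have hs0 : (0 : ℝ) ≤ s := Nat.cast_nonneg _
    rcases Nat.eq_zero_or_pos N with hN | hN
    · subst hN
      simp
      linarith
    · obtain ⟨M, rfl⟩ : ∃ M, N = M + 1 := ⟨N - 1, by omega⟩
      rw [sum_range_succ, if_pos (Or.inr rfl), sum_range_succ', if_pos (Or.inl rfl), mul_sum,
        sum_Ico_eq_sum_range]
      have : ∑ t ∈ range M, (if t + 1 = 0 ∨ t + 1 = M + 1 then 12 * (s : ℝ) else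
        144 * (s : ℝ) ^ 2 * (p (κ (t + 1)) (κ (t + 1 + 1)) / (m (κ (t + 1 + 1)) - m (κ (t + 1))))) =
        ∑ t ∈ range (M + 1 - 1), 144 * (s : ℝ) ^ 2 *
          (p (κ (1 + t)) (κ (1 + t + 1)) / (m (κ (1 + t + 1)) - m (κ (1 + t)))) := by
        rw [show M + 1 - 1 = M by omega]
        apply sum_congr rfl
        intro t ht
        rw [mem_range] at ht
        rw [if_neg (by omega), add_comm 1 t]
      rw [this]
      linarith
  -- numbers
  have h7 : (N : ℝ) * K ≤ eta * (A * Q) / 2 := by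
    have a1 : (N : ℝ) * K ≤ N * (eta * s) := mul_le_mul_of_nonneg_left hs1 (Nat.cast_nonneg _)
    have a2 : 2 * (N : ℝ) * s ≤ (j : ℝ) - i := by
      have : (i : ℝ) + 2 * N * s ≤ j := by exact_mod_cast hN1
      linarith
    have a3 : eta * (2 * (N : ℝ) * s) ≤ eta * (A * Q) :=
      mul_le_mul_of_nonneg_left (a2.trans hjA) heta
    nlinarith
  have h8 : eta * ((j : ℝ) - i) ≤ eta * (A * Q) := mul_le_mul_of_nonneg_left hjA heta
  have h9 : (28 * eps + 2 * eta * A) * Q ≤ c * e / 2 * Q := mul_le_mul_of_nonneg_right h28 hQ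
  nlinarith

/-- ONE SCALE -/
theorem one_scale_abs (p neg : ℕ → ℕ → ℝ) (m : ℕ → ℝ) (c A Q e eps eta K : ℝ) (i j s : ℕ)
    (hm : ∀ k l, i ≤ k → k < l → l ≤ j → m k < m l)
    (htri : ∀ k l r, i ≤ k → k < l → l < r → r ≤ j → neg k r ≤ neg k l + neg l r)
    (hA3 : ∀ k l, i ≤ k → k < l → l ≤ j → c * neg k l ≤ p k l * (m l - m k))
    (hp0 : ∀ k l, 0 ≤ p k l) (hp1 : ∀ k l, p k l ≤ 1)
    (hLD : ∀ k l : ℕ, i ≤ k → k < l → l ≤ j →
      -eta * ((l : ℝ) - k) - K ≤ (m l - l) - (m k - k))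
    (hc : 0 < c) (heta : 0 ≤ eta) (hK0 : 0 ≤ K) (hij : i < j)
    (hjA : (j : ℝ) - i ≤ A * Q) (hneg : e * Q ≤ neg i j)
    (hu : (m j - j) - (m i - i) ≤ eps * Q) (hQ : 0 ≤ Q)
    (h28 : 28 * eps + 2 * eta * A ≤ c * e / 2) (hs0 : 0 < s) (hs1 : K ≤ eta * s)
    (hs2 : (s : ℝ) ≤ eps * Q) (hK : K ≤ eps * Q) :
    c * e * Q / 288 ≤ ∑ q ∈ scalePairs i j s, p q.1 q.2 / (m q.2 - m q.1) := by
  set N : ℕ := (j - i) / (2 * s) with hN
  have hdm := Nat.div_add_mod (j - i) (2 * s)
  have hmod := Nat.mod_lt (j - i) (show 0 < 2 * s by omega)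
  rw [← hN] at hdm
  have e1 : 2 * N * s = 2 * s * N := by ring
  have e2 : 2 * (N + 1) * s = 2 * s * N + 2 * s := by ring
  have hN1 : i + 2 * N * s ≤ j := by omega
  have hN2 : j < i + 2 * (N + 1) * s := by omega
  have hsR : (0 : ℝ) < s := by exact_mod_cast hs0
  set G : ℕ → ℕ → ℝ := fun k l => p k l / (m l - m k) with hG
  have hchain : ∀ q ∈ (range s ×ˢ range s), c * e * Q / 2 ≤ 144 * (s : ℝ) ^ 2 * ∑ t ∈ Ico 1 N,
      G (node i j s N q.1 q.2 t) (node i j s N q.1 q.2 (t + 1)) := by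
    intro q hq
    rw [mem_product, mem_range, mem_range] at hq
    exact one_chain p neg m c A Q e eps eta K i j s N q.1 q.2 hm htri hA3 hp0 hp1 hLD hc heta hK0 hij
      hjA hneg hu hQ h28 hs1 hs2 hK hN1 hN2 hq.1 hq.2
  have h1 := sum_le_sum hchain
  rw [sum_const, card_product, card_range, nsmul_eq_mul, ← mul_sum] at h1
  -- the double sum over chains
  have h2 : ∑ q ∈ (range s ×ˢ range s), ∑ t ∈ Ico 1 N,
      G (node i j s N q.1 q.2 t) (node i j s N q.1 q.2 (t + 1)) ≤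
      ∑ q ∈ scalePairs i j s, G q.1 q.2 := by
    rw [sum_comm, ← sum_product']
    have hinj : Set.InjOn (fun q : ℕ × ℕ × ℕ =>
        (node i j s N q.2.1 q.2.2 q.1, node i j s N q.2.1 q.2.2 (q.1 + 1)))
        ((Ico 1 N) ×ˢ (range s ×ˢ range s) : Finset (ℕ × ℕ × ℕ)) := by
      intro q hq q' hq' h
      rw [mem_coe, mem_product, mem_product, mem_Ico, mem_range, mem_range] at hq hq'
      simp only [Prod.mk.injEq] at h
      exact node_inj i j s N q q' hq.2.1 hq.2.2 hq'.2.1 hq'.2.2 hq.1.1 hq.1.2 hq'.1.1 hq'.1.2 h.1 h.2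
    calc ∑ q ∈ (Ico 1 N) ×ˢ (range s ×ˢ range s),
          G (node i j s N q.2.1 q.2.2 q.1) (node i j s N q.2.1 q.2.2 (q.1 + 1))
        = ∑ r ∈ ((Ico 1 N) ×ˢ (range s ×ˢ range s)).image (fun q : ℕ × ℕ × ℕ =>
          (node i j s N q.2.1 q.2.2 q.1, node i j s N q.2.1 q.2.2 (q.1 + 1))), G r.1 r.2 := by
          rw [sum_image hinj]
      _ ≤ ∑ q ∈ scalePairs i j s, G q.1 q.2 := by
          apply sum_le_sum_of_subset_of_nonneg
          · intro r hr
            rw [mem_image] at hr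
            obtain ⟨q, hq, rfl⟩ := hr
            rw [mem_product, mem_product, mem_Ico, mem_range, mem_range] at hq
            have b1 := node_bounds i j s N q.2.1 q.2.2 q.1 hq.2.1 hq.2.2 hN1 hij (by omega)
            have b2 := node_bounds i j s N q.2.1 q.2.2 (q.1 + 1) hq.2.1 hq.2.2 hN1 hij (by omega)
            have b3 := node_mid_step i j s N q.2.1 q.2.2 q.1 hq.2.1 hq.2.2 hq.1.1 hq.1.2
            unfold scalePairs
            rw [mem_filter, mem_product, mem_Icc, mem_Icc]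
            exact ⟨⟨b1, b2⟩, b3⟩
          · intro r hr _
            unfold scalePairs at hr
            rw [mem_filter, mem_product, mem_Icc, mem_Icc] at hr
            apply div_nonneg (hp0 _ _)
            have := hm r.1 r.2 hr.1.1.1 (by omega) hr.1.2.2
            linarith
  have h3 : 144 * (s : ℝ) ^ 2 * ∑ q ∈ (range s ×ˢ range s), ∑ t ∈ Ico 1 N,
      G (node i j s N q.1 q.2 t) (node i j s N q.1 q.2 (t + 1)) ≤
      144 * (s : ℝ) ^ 2 * ∑ q ∈ scalePairs i j s, G q.1 q.2 :=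
    mul_le_mul_of_nonneg_left h2 (by positivity)
  have h4 := h1.trans h3
  push_cast at h4
  have h5 : (s : ℝ) ^ 2 * (c * e * Q / 288) ≤
      (s : ℝ) ^ 2 * ∑ q ∈ scalePairs i j s, G q.1 q.2 := by nlinarith
  exact le_of_mul_le_mul_left h5 (by positivity)

end KS.Abs
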