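import Mathlib
import Pool.Agent.Lib_MP_33fb9b_ks.OneScaleAbs

set_option autoImplicit false

/-!
# Many scales (abstract form)
-/

namespace KS.Abs

open Finset

/-- all pairs `k < l` inside `[i, j]` -/
def allPairs (i j : ℕ) : Finset (ℕ × ℕ) :=
  ((Icc i j) ×ˢ (Icc i j)).filter fun q => q.1 < q.2

theorem sum_allPairs (F : ℕ → ℕ → ℝ) (i j : ℕ) :
    ∑ q ∈ allPairs i j, F q.1 q.2 = ∑ k ∈ Icc i j, ∑ l ∈ Ioc k j, F k l := by
  unfold allPairs
  rw [sum_filter, sum_product]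
  apply sum_congr rfl
  intro k hk
  rw [mem_Icc] at hk
  rw [← sum_filter]
  apply sum_congr
  · ext l
    rw [mem_filter, mem_Icc, mem_Ioc]
    omega
  · intro l _; rfl

/-- scales growing by a factor `3` use disjoint sets of pairs -/
theorem sum_scales_le (F : ℕ → ℕ → ℝ) (i j s0 M : ℕ)
    (hF : ∀ k l, i ≤ k → k < l → l ≤ j → 0 ≤ F k l) :
    ∑ r ∈ range M, ∑ q ∈ scalePairs i j (s0 * 3 ^ r), F q.1 q.2 ≤
      ∑ q ∈ allPairs i j, F q.1 q.2 := by
  have hdis : ∀ r ∈ range M, ∀ r' ∈ range M, r ≠ r' →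
      Disjoint (scalePairs i j (s0 * 3 ^ r)) (scalePairs i j (s0 * 3 ^ r')) := by
    have key : ∀ r r' : ℕ, r < r' →
        Disjoint (scalePairs i j (s0 * 3 ^ r)) (scalePairs i j (s0 * 3 ^ r')) := by
      intro r r' h
      rw [disjoint_left]
      intro q hq hq'
      unfold scalePairs at hq hq'
      rw [mem_filter] at hq hq'
      have h1 : s0 * 3 ^ (r + 1) ≤ s0 * 3 ^ r' :=
        Nat.mul_le_mul_left _ (Nat.pow_le_pow_right (by norm_num) h)
      have h2 : s0 * 3 ^ (r + 1) = 3 * (s0 * 3 ^ r) := by rw [pow_succ]; ring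
      omega
    intro r _ r' _ hne
    rcases lt_or_gt_of_ne hne with h | h
    · exact key r r' h
    · exact (key r' r h).symm
  rw [← sum_biUnion hdis]
  apply sum_le_sum_of_subset_of_nonneg
  · intro q hq
    rw [mem_biUnion] at hq
    obtain ⟨r, _, hq⟩ := hq
    unfold scalePairs at hq
    unfold allPairs
    rw [mem_filter] at hq ⊢
    exact ⟨hq.1, by omega⟩
  · intro q hq _
    unfold allPairs at hq
    rw [mem_filter, mem_product, mem_Icc, mem_Icc] at hq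
    exact hF q.1 q.2 hq.1.1.1 hq.2 hq.1.2.2

/-- MULTI SCALE: the hypotheses of ONE SCALE bound `Q` -/
theorem multi_scale_abs (c A e eps eta K : ℝ) (hc : 0 < c) (hA : 0 < A) (he : 0 < e)
    (heps : 0 < eps) (heta : 0 < eta) (hK0 : 0 ≤ K) (h28 : 28 * eps + 2 * eta * A ≤ c * e / 2) :
    ∃ Qs : ℝ, 0 < Qs ∧ ∀ (p neg : ℕ → ℕ → ℝ) (m : ℕ → ℝ) (Q : ℝ) (i j : ℕ),
    (∀ k l, i ≤ k → k < l → l ≤ j → m k < m l) →
    (∀ k l r, i ≤ k → k < l → l < r → r ≤ j → neg k r ≤ neg k l + neg l r) →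
    (∀ k l, i ≤ k → k < l → l ≤ j → c * neg k l ≤ p k l * (m l - m k)) →
    (∀ k l, 0 ≤ p k l) → (∀ k l, p k l ≤ 1) →
    (∀ k l : ℕ, i ≤ k → k < l → l ≤ j → -eta * ((l : ℝ) - k) - K ≤ (m l - l) - (m k - k)) →
    (∀ k, i ≤ k → k ≤ j → ∑ l ∈ Ioc k j, p k l / (m l - m k) ≤ 1 / c) →
    i < j → (j : ℝ) - i ≤ A * Q → e * Q ≤ neg i j → (m j - j) - (m i - i) ≤ eps * Q → Q ≤ Qs := by
  obtain ⟨s0, hs0⟩ := exists_nat_gt (K / eta)
  obtain ⟨M, hM⟩ := exists_nat_gt (576 * A / (c ^ 2 * e))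
  have hKs : K < eta * s0 := by
    rw [div_lt_iff₀ heta] at hs0
    linarith
  have hs0pos : 0 < s0 := by
    rcases Nat.eq_zero_or_pos s0 with h | h
    · rw [h] at hKs; norm_num at hKs; linarith
    · exact h
  refine ⟨1 / A + K / eps + s0 * 3 ^ M / eps, by positivity, ?_⟩
  intro p neg m Q i j hm htri hA3 hp0 hp1 hLD hen hij hjA hneg hu
  by_contra hcon
  push Not at hcon
  have q1 : 0 ≤ 1 / A := by positivity
  have q2 : 0 ≤ K / eps := by positivity
  have q3 : 0 ≤ (s0 : ℝ) * 3 ^ M / eps := by positivity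
  have hQ1 : 1 / A ≤ Q := by linarith
  have hQ2 : K / eps ≤ Q := by linarith
  have hQ3 : (s0 : ℝ) * 3 ^ M / eps ≤ Q := by linarith
  have hQ : 0 ≤ Q := by linarith
  rw [div_le_iff₀ hA] at hQ1
  rw [div_le_iff₀ heps] at hQ2 hQ3
  have hF : ∀ k l, i ≤ k → k < l → l ≤ j → 0 ≤ p k l / (m l - m k) := by
    intro k l h1 h2 h3
    apply div_nonneg (hp0 _ _)
    have := hm k l h1 h2 h3
    linarith
  have h1 : ∀ r ∈ range M, c * e * Q / 288 ≤
      ∑ q ∈ scalePairs i j (s0 * 3 ^ r), p q.1 q.2 / (m q.2 - m q.1) := by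
    intro r hr
    rw [mem_range] at hr
    have hpow : (1 : ℝ) ≤ 3 ^ r := one_le_pow₀ (by norm_num)
    have hpow2 : (3 : ℝ) ^ r ≤ 3 ^ M := pow_le_pow_right₀ (by norm_num) hr.le
    have hs0R : (0 : ℝ) ≤ s0 := Nat.cast_nonneg _
    apply one_scale_abs p neg m c A Q e eps eta K i j _ hm htri hA3 hp0 hp1 hLD hc heta.le hK0 hij
      hjA hneg hu hQ h28
    · positivity
    · push_cast
      have : (s0 : ℝ) ≤ s0 * 3 ^ r := by nlinarith
      have := mul_le_mul_of_nonneg_left this heta.le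
      linarith
    · push_cast
      have : (s0 : ℝ) * 3 ^ r ≤ s0 * 3 ^ M := mul_le_mul_of_nonneg_left hpow2 hs0R
      linarith
    · linarith
  have h2 := sum_le_sum h1
  rw [sum_const, card_range, nsmul_eq_mul] at h2
  have h3 := h2.trans (sum_scales_le (fun k l => p k l / (m l - m k)) i j s0 M hF)
  rw [sum_allPairs (fun k l => p k l / (m l - m k))] at h3
  have h4 : ∑ k ∈ Icc i j, ∑ l ∈ Ioc k j, p k l / (m l - m k) ≤ ((j : ℝ) - i + 1) * (1 / c) := by
    have : ∑ k ∈ Icc i j, ∑ l ∈ Ioc k j, p k l / (m l - m k) ≤ ∑ k ∈ Icc i j, (1 / c) := by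
      apply sum_le_sum
      intro k hk
      rw [mem_Icc] at hk
      exact hen k hk.1 hk.2
    rw [sum_const, Nat.card_Icc, nsmul_eq_mul, Nat.cast_sub (by omega)] at this
    push_cast at this
    linarith
  have h5 : (M : ℝ) * (c * e * Q / 288) ≤ 2 * (A * Q) * (1 / c) := by
    refine h3.trans (h4.trans ?_)
    apply mul_le_mul_of_nonneg_right _ (by positivity)
    linarith
  -- contradiction
  have hQpos : 0 < Q := by
    rcases hQ.lt_or_eq with h | h
    · exact h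
    · rw [← h] at hQ1; linarith
  rw [div_lt_iff₀ (by positivity)] at hM
  have h6 : (M : ℝ) * (c * e * Q / 288) * c ≤ 2 * (A * Q) := by
    have := mul_le_mul_of_nonneg_right h5 hc.le
    rwa [mul_assoc (2 * (A * Q)), one_div, inv_mul_cancel₀ hc.ne', mul_one] at this
  have h7 : 576 * A * Q < M * (c ^ 2 * e) * Q := mul_lt_mul_of_pos_right hM hQpos
  nlinarith

end KS.Abs
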