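import Pool.Agent.Lib_MP_33fb9b_ks.Basic

set_option autoImplicit false

/-!
# S7a: energy along a path
-/

namespace Pool.Agent.Thin.RP

open Finset

variable {n : ℕ} (X : RP n)

/-- along a strictly increasing path `a 0 < a 1 < ⋯ < a M`: the steps with `g > 4 D` contribute at
most `(4/3)(u_end - u_start + η (length) + K M)` to `∑ p g`, so `c · neg` is at most this plus the sum
of `p g` over the steps with `g ≤ 4 D`. -/
theorem path_bound {c C η K : ℝ} (hX : X.Good c C) (hLD : X.LDp η K)
    (hη : 0 ≤ η) (hK : 0 ≤ K) (a : ℕ → ℕ) (M : ℕ)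
    (ha : ∀ r, r < M → a r < a (r + 1)) (hM : a M < n) :
    c * X.neg (a 0) (a M) ≤
      (4 / 3) * (max (X.u (a M) - X.u (a 0)) 0 + η * ((a M : ℝ) - a 0) + K * M) +
      ∑ r ∈ (range M).filter (fun r : ℕ =>
          X.m (a (r + 1)) - X.m (a r) ≤ 4 * ((a (r + 1) : ℝ) - a r)),
        X.p (a r) (a (r + 1)) * (X.m (a (r + 1)) - X.m (a r)) := by
  have hlt : ∀ k, k ≤ M → a k ≤ a M := by
    intro k hk
    have : ∀ d, k + d ≤ M → a k ≤ a (k + d) := by
      intro d
      induction d with
      | zero => intro _; exact le_refl _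
      | succ d ih =>
        intro h
        exact le_trans (ih (by omega)) (le_of_lt (ha (k + d) (by omega)))
    have h := this (M - k) (by omega)
    rwa [show k + (M - k) = M by omega] at h
  -- the sum over the steps
  have key : ∀ N, N ≤ M → c * X.neg (a 0) (a N) ≤
      (4 / 3) * ((X.u (a N) - X.u (a 0)) + η * ((a N : ℝ) - a 0) + K * N) +
      ∑ r ∈ (range N).filter (fun r : ℕ =>
          X.m (a (r + 1)) - X.m (a r) ≤ 4 * ((a (r + 1) : ℝ) - a r)),
        X.p (a r) (a (r + 1)) * (X.m (a (r + 1)) - X.m (a r)) ∨ c < 0 := by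
    rcases lt_or_ge c 0 with hc | hc
    · intro N _; exact Or.inr hc
    intro N
    induction N with
    | zero => intro _; left; simp [X.neg_self]
    | succ N ih =>
      intro hN
      left
      rcases ih (by omega) with ih' | h
      swap
      · exact absurd h (not_lt.mpr hc)
      have h1 := ha N (by omega)
      have hn : a (N + 1) < n := lt_of_le_of_lt (hlt (N + 1) hN) hM
      have h3 := hX.a3 _ _ h1 hn
      have hL := hLD _ _ h1 hn
      have hg := hX.mono _ _ h1 hn
      have htri := X.neg_triangle (a 0) (a N) (a (N + 1))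
      have hp1 := X.p_le_one (a N) (a (N + 1))
      have hp0 := X.p_nonneg (a N) (a (N + 1))
      have hD : (a N : ℝ) < a (N + 1) := by exact_mod_cast h1
      have htri' : c * X.neg (a 0) (a (N + 1)) ≤
          c * X.neg (a 0) (a N) + c * X.neg (a N) (a (N + 1)) := by
        rw [← mul_add]; exact mul_le_mul_of_nonneg_left htri hc
      have hu : X.u (a (N + 1)) - X.u (a N) = (X.m (a (N + 1)) - X.m (a N)) -
          ((a (N + 1) : ℝ) - a N) := by unfold u; ring
      have hηD : 0 ≤ η * ((a (N + 1) : ℝ) - a N) := mul_nonneg hη (by linarith)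
      rw [range_add_one, filter_insert]
      by_cases hgood : X.m (a (N + 1)) - X.m (a N) ≤ 4 * ((a (N + 1) : ℝ) - a N)
      · rw [if_pos hgood, sum_insert (by simp)]
        push_cast
        nlinarith
      · rw [if_neg hgood]
        push_cast
        push Not at hgood
        have hpg : X.p (a N) (a (N + 1)) * (X.m (a (N + 1)) - X.m (a N)) ≤
            X.m (a (N + 1)) - X.m (a N) := by nlinarith
        nlinarith
  rcases key M le_rfl with h | h
  · refine le_trans h ?_
    have := le_max_left (X.u (a M) - X.u (a 0)) 0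
    linarith
  · have h1 : c * X.neg (a 0) (a M) ≤ 0 := by
      have := X.neg_nonneg (a 0) (a M)
      nlinarith
    refine le_trans h1 ?_
    have h2 : 0 ≤ max (X.u (a M) - X.u (a 0)) 0 := le_max_right _ _
    have h3 : 0 ≤ η * ((a M : ℝ) - a 0) := by
      refine mul_nonneg hη ?_
      have : (a 0 : ℝ) ≤ a M := by exact_mod_cast hlt 0 (Nat.zero_le _)
      linarith
    have h4 : 0 ≤ K * M := mul_nonneg hK (Nat.cast_nonneg _)
    have h5 : 0 ≤ ∑ r ∈ (range M).filter (fun r : ℕ =>
          X.m (a (r + 1)) - X.m (a r) ≤ 4 * ((a (r + 1) : ℝ) - a r)),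
        X.p (a r) (a (r + 1)) * (X.m (a (r + 1)) - X.m (a r)) := by
      refine sum_nonneg fun r hr => ?_
      rw [mem_filter, mem_range] at hr
      have h6 := hX.mono _ _ (ha r hr.1) (lt_of_le_of_lt (hlt (r + 1) hr.1) hM)
      exact mul_nonneg (X.p_nonneg _ _) (by linarith)
    linarith

end Pool.Agent.Thin.RP
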