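import Pool.Agent.Lib_MP_33fb9b_ks.Word

set_option autoImplicit false

/-!
# B4: the ratio inequality (double counting)
-/

namespace Pool.Agent.Thin

open Finset Pool.Agent.BFT Wd

variable {P : Type} [Fintype P] [PartialOrder P]

/-- (B.4); natural subtraction is harmless (if `a ≥ s` or `b ≥ s` then both sides vanish or the
left one does) -/
theorem ratio {D : Finset P} (hD : IsLowerSet (D : Set P)) {k s : ℕ}
    (hk : k + 2 * s ≤ Fintype.card P) (al a b : ℕ) :
    (s - a) * (b + 1) * zz D k s al a (b + 1) ≤ (a + 1) * (s - b) * zz D k s al (a + 1) b := by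
  classical
  have hks : k + s ≤ Fintype.card P := by omega
  -- pairs
  have hA : (s - a) * (b + 1) * zz D k s al a (b + 1) =
      ((Finset.univ.filter (fun σ : BFT.LE P => cnt σ D k = al ∧ cnt σ D (k + s) = al + a ∧
        cnt σ D (k + 2 * s) = al + a + (b + 1))).sigma
        (fun σ => (win (Fintype.card P) k (k + s) \ posS (D : Set P) σ) ×ˢ
          (win (Fintype.card P) (k + s) (k + 2 * s) ∩ posS (D : Set P) σ))).card := by
    rw [Finset.card_sigma, Finset.sum_congr rfl (g := fun _ => (s - a) * (b + 1)), Finset.sum_const,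
      smul_eq_mul, mul_comm]
    · rfl
    · intro σ hσ
      obtain ⟨_, h1, h2, h3⟩ := Finset.mem_filter.mp hσ
      rw [cnt_eq_below] at h1 h2 h3
      rw [Finset.card_product, card_win_sdiff _ (by omega) hks]
      have g1 := below_win (posS (D : Set P) σ) (show k ≤ k + s by omega)
      have g2 := below_win (posS (D : Set P) σ) (show k + s ≤ k + 2 * s by omega)
      have e1 : (win (Fintype.card P) k (k + s) ∩ posS (D : Set P) σ).card = a := by omega
      have e2 : (win (Fintype.card P) (k + s) (k + 2 * s) ∩ posS (D : Set P) σ).card = b + 1 := by omega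
      rw [e1, e2, Nat.add_sub_cancel_left]
  have hB : (a + 1) * (s - b) * zz D k s al (a + 1) b =
      ((Finset.univ.filter (fun σ : BFT.LE P => cnt σ D k = al ∧ cnt σ D (k + s) = al + (a + 1) ∧
        cnt σ D (k + 2 * s) = al + (a + 1) + b)).sigma
        (fun σ => (win (Fintype.card P) k (k + s) ∩ posS (D : Set P) σ) ×ˢ
          (win (Fintype.card P) (k + s) (k + 2 * s) \ posS (D : Set P) σ))).card := by
    rw [Finset.card_sigma, Finset.sum_congr rfl (g := fun _ => (a + 1) * (s - b)), Finset.sum_const,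
      smul_eq_mul, mul_comm]
    · rfl
    · intro σ hσ
      obtain ⟨_, h1, h2, h3⟩ := Finset.mem_filter.mp hσ
      rw [cnt_eq_below] at h1 h2 h3
      rw [Finset.card_product, card_win_sdiff _ (by omega) hk]
      have g1 := below_win (posS (D : Set P) σ) (show k ≤ k + s by omega)
      have g2 := below_win (posS (D : Set P) σ) (show k + s ≤ k + 2 * s by omega)
      have e1 : (win (Fintype.card P) k (k + s) ∩ posS (D : Set P) σ).card = a + 1 := by omega
      have e2 : (win (Fintype.card P) (k + s) (k + 2 * s) ∩ posS (D : Set P) σ).card = b := by omega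
      rw [e1, e2]
      congr 2
      omega
  rw [hA, hB]
  apply Finset.card_le_card_of_injOn
    (fun x => (⟨sw (D : Set P) hD x.1 x.2.1 x.2.2, x.2⟩ :
      (_ : BFT.LE P) × (Fin (Fintype.card P) × Fin (Fintype.card P))))
  · rintro ⟨σ, t1, t2⟩ hx
    rw [Finset.mem_coe, Finset.mem_sigma, Finset.mem_filter, Finset.mem_product,
      Finset.mem_sdiff, Finset.mem_inter] at hx
    obtain ⟨⟨-, h1, h2, h3⟩, ⟨h4, h5⟩, h6, h7⟩ := hx
    rw [mem_win] at h4 h6
    dsimp only at h1 h2 h3 h4 h5 h6 h7
    have h8 : (t1 : ℕ) < t2 := by omega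
    have h9 := posS_sw (D : Set P) hD σ t1 t2 h5 h7 h8
    rw [cnt_eq_below] at h1 h2 h3
    have b1 := sw_below (posS (D : Set P) σ) t1 t2 h5 h7 k
    have b2 := sw_below (posS (D : Set P) σ) t1 t2 h5 h7 (k + s)
    have b3 := sw_below (posS (D : Set P) σ) t1 t2 h5 h7 (k + 2 * s)
    rw [if_neg (by omega), if_neg (by omega)] at b1
    rw [if_neg (by omega), if_pos (by omega)] at b2
    rw [if_pos (by omega), if_pos (by omega)] at b3
    rw [Finset.mem_coe, Finset.mem_sigma, Finset.mem_filter, Finset.mem_product,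
      Finset.mem_sdiff, Finset.mem_inter]
    dsimp only
    rw [cnt_eq_below, cnt_eq_below, cnt_eq_below, h9]
    refine ⟨⟨Finset.mem_univ _, by omega, by omega, by omega⟩, ⟨?_, Finset.mem_insert_self _ _⟩, ?_, ?_⟩
    · rw [mem_win]; exact h4
    · rw [mem_win]; exact h6
    · rw [Finset.mem_insert, not_or]
      exact ⟨fun h => by rw [h] at h8; exact absurd h8 (lt_irrefl _), Finset.notMem_erase _ _⟩
  · rintro ⟨σ, t1, t2⟩ hx ⟨τ, t1', t2'⟩ hy hxy
    rw [Finset.mem_coe, Finset.mem_sigma, Finset.mem_filter, Finset.mem_product,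
      Finset.mem_sdiff, Finset.mem_inter] at hx hy
    obtain ⟨-, ⟨h4, h5⟩, h6, h7⟩ := hx
    obtain ⟨-, ⟨h4', h5'⟩, h6', h7'⟩ := hy
    simp only [Sigma.mk.injEq, heq_eq_eq, Prod.mk.injEq] at hxy
    obtain ⟨g1, g2, g3⟩ := hxy
    subst g2 g3
    rw [mem_win] at h4 h6
    dsimp only at h4 h5 h6 h7 h4' h5' h6' h7' g1
    have h8 : (t1 : ℕ) < t2 := by omega
    have := sw_inj (D : Set P) hD σ τ t1 t2 h5 h7 h8 h5' h7' g1
    rw [this]

/-- at most `s` elements in the second window -/
theorem zz_eq_zero {D : Finset P} {k1 s α a b : ℕ} (hb : s < b) : zz D k1 s α a b = 0 := by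
  unfold zz
  rw [Finset.card_eq_zero, Finset.filter_eq_empty_iff]
  intro σ _ ⟨h1, h2, h3⟩
  rw [cnt_eq_below] at h1 h2 h3
  have g2 := below_win (posS (D : Set P) σ) (show k1 + s ≤ k1 + 2 * s by omega)
  have g3 : (win (Fintype.card P) (k1 + s) (k1 + 2 * s) ∩ posS (D : Set P) σ).card ≤ s := by
    refine (Finset.card_le_card Finset.inter_subset_left).trans ?_
    calc (win (Fintype.card P) (k1 + s) (k1 + 2 * s)).card
        = ((win (Fintype.card P) (k1 + s) (k1 + 2 * s)).map Fin.valEmbedding).card := by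
          rw [Finset.card_map]
      _ ≤ (Finset.Ico (k1 + s) (k1 + 2 * s)).card := by
          apply Finset.card_le_card
          intro q hq
          obtain ⟨p, hp, rfl⟩ := Finset.mem_map.mp hq
          rw [mem_win] at hp
          exact Finset.mem_Ico.mpr hp
      _ = s := by rw [Nat.card_Ico]; omega
  omega

end Pool.Agent.Thin
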