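import Pool.Agent.Lib_MP_33fb9b_ks.Path
import Pool.Agent.Lib_MP_33fb9b_ks.OneScaleG

set_option autoImplicit false

/-!
# S7b: one scale (A.5)
-/

namespace Pool.Agent.Thin.RP

open Finset

variable {n : ℕ} (X : RP n)

/-- (A.5) ONE SCALE: a constant amount of energy at index distance between `s` and `3 s` -/
theorem one_scale {c C η K : ℝ} (hX : X.Good c C) (hc : 0 < c) (hc1 : c ≤ 1)
    (hLD : X.LDp η K) (hη : 0 < η) (hK : 0 ≤ K)
    {Q A e ε : ℝ} (hQ : 0 < Q) (hA : 0 < A) (he : 0 < e) (hε : 0 < ε)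
    (hpar : 28 * ε + 2 * η * A ≤ c * e / 2)
    {i j s : ℕ} (hij : i < j) (hj : j < n) (hs : 1 ≤ s) (hAQ : (j : ℝ) - i ≤ A * Q)
    (hneg : e * Q ≤ X.neg i j) (hu : X.u j - X.u i ≤ ε * Q)
    (hKs : K ≤ η * s) (hsQ : (s : ℝ) ≤ ε * Q) (hKQ : K ≤ ε * Q) :
    c * e / 288 * Q ≤ ∑ k ∈ Icc i j, ∑ l ∈ (Icc i j).filter (fun l => k + s < l ∧ l < k + 3 * s),
      X.e k l := by
  have h := KSE.one_scale (n := n) (m := X.m) (p := X.p) (neg := X.neg) (c := c) (e := e)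
    (ε := ε) (η := η) (A := A) (K := K) (Q := Q) X.p_nonneg X.p_le_one hX.mono hX.a3
    (fun a b d _ _ _ => X.neg_triangle a b d) hLD hc.le hη.le hK hij hj hs hAQ hneg hu hpar hKs
    hsQ hKQ hQ.le
  have e1 : c * e / 288 * Q = c * e * Q / 288 := by ring
  rw [e1]
  refine le_trans h (le_of_eq ?_)
  rw [sum_filter, sum_product]
  refine sum_congr rfl fun k hk => ?_
  rw [sum_filter]
  refine sum_congr rfl fun l hl => ?_
  rw [mem_Icc] at hk hl
  by_cases hc : k + s < l ∧ l < k + 3 * s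
  · rw [if_pos hc, if_pos hc]
    exact (X.e_of_lt hX (by omega) (by omega)).symm
  · rw [if_neg hc, if_neg hc]

end Pool.Agent.Thin.RP
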