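import Pool.Agent.Lib_MP_33fb9b_ks.Cut

set_option autoImplicit false

/-!
# B2: every element has an element above it at bounded index distance (and dually)
-/

namespace Pool.Agent.Thin

open Finset Pool.Agent.BFT

section
variable {P : Type} [Fintype P] [PartialOrder P]

/-- a linear extension from its places -/
private theorem UpDown_mk (p : P → ℕ) (hlt : ∀ v, p v < Fintype.card P)
    (hinj : Function.Injective p) (hmono : ∀ u v : P, u < v → p u < p v) :
    ∃ σ : BFT.LE P, ∀ v, pos σ v = p v := by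
  have hb : Function.Bijective (fun v => (⟨p v, hlt v⟩ : Fin (Fintype.card P))) := by
    rw [Fintype.bijective_iff_injective_and_card]
    refine ⟨fun a b hab => hinj ?_, (Fintype.card_fin _).symm⟩
    simpa using hab
  refine ⟨⟨Equiv.ofBijective _ hb, ?_⟩, fun v => rfl⟩
  intro a b hab
  rcases eq_or_lt_of_le hab with h | h
  · rw [h]
  · exact (Fin.mk_lt_mk.mpr (hmono a b h)).le

/-- Markov -/
private theorem UpDown_markov {Q : BFT.LE P → Prop} {f : BFT.LE P → ℝ} {t : ℝ} (ht : 0 < t)
    (hf : ∀ σ, 0 ≤ f σ) (hQ : ∀ σ, Q σ → t ≤ f σ) : Pr Q ≤ Ex f / t := by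
  rw [le_div_iff₀ ht, mul_comm]
  unfold Pr
  rw [← Ex_mul]
  apply Ex_mono
  intro σ
  by_cases h : Q σ
  · rw [ind_true h, mul_one]; exact hQ σ h
  · rw [ind_false h, mul_zero]; exact hf σ

/-- the places after `u` has been moved up by `d` places -/
private def UpDown_shift (σ : BFT.LE P) (u : P) (d : ℕ) [DecidableEq P] (v : P) : ℕ :=
  if v = u then pos σ u + d
  else if pos σ u < pos σ v ∧ pos σ v ≤ pos σ u + d then pos σ v - 1 else pos σ v

open Classical in
private theorem UpDown_shift_exists (u : P) (d : ℕ) (σ : BFT.LE P)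
    (h1 : pos σ u + d < Fintype.card P)
    (h2 : ∀ v, u < v → pos σ u + d < pos σ v) :
    ∃ τ : BFT.LE P, ∀ v, pos τ v = UpDown_shift σ u d v := by
  apply UpDown_mk
  · intro v
    unfold UpDown_shift
    have := pos_lt_card σ v
    split_ifs <;> omega
  · intro v w hvw
    unfold UpDown_shift at hvw
    by_cases hv : v = u
    · by_cases hw : w = u
      · rw [hv, hw]
      · exfalso
        have := pos_ne (σ := σ) hw
        rw [if_pos hv, if_neg hw] at hvw
        split_ifs at hvw <;> omega
    · by_cases hw : w = u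
      · exfalso
        have := pos_ne (σ := σ) hv
        rw [if_neg hv, if_pos hw] at hvw
        split_ifs at hvw <;> omega
      · have h3 := pos_ne (σ := σ) hv
        have h4 := pos_ne (σ := σ) hw
        rw [if_neg hv, if_neg hw] at hvw
        apply pos_inj (σ := σ)
        split_ifs at hvw <;> omega
  · intro v w hvw
    unfold UpDown_shift
    have h5 := pos_lt_of_lt σ hvw
    by_cases hv : v = u
    · have hw : w ≠ u := by rintro rfl; exact absurd hv hvw.ne
      rw [if_pos hv, if_neg hw]
      have h6 := h2 w (hv ▸ hvw)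
      split_ifs <;> omega
    · by_cases hw : w = u
      · rw [if_neg hv, if_pos hw]
        rw [hw] at h5
        split_ifs <;> omega
      · have h3 := pos_ne (σ := σ) hv
        have h4 := pos_ne (σ := σ) hw
        rw [if_neg hv, if_neg hw]
        split_ifs <;> omega

open Classical in
private theorem UpDown_shift_inj (u : P) (d : ℕ) (σ τ : BFT.LE P)
    (h : ∀ v, UpDown_shift σ u d v = UpDown_shift τ u d v) : σ = τ := by
  have hu : pos σ u = pos τ u := by
    have := h u
    unfold UpDown_shift at this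
    rw [if_pos rfl, if_pos rfl] at this
    omega
  apply LE_ext
  intro v
  by_cases hv : v = u
  · rw [hv, hu]
  · have h3 := pos_ne (σ := σ) hv
    have h4 := pos_ne (σ := τ) hv
    have h5 := h v
    unfold UpDown_shift at h5
    rw [if_neg hv, if_neg hv] at h5
    split_ifs at h5 <;> omega

/-- moving `u` up by `d` places -/
private theorem UpDown_move (u : P) (d : ℕ) {Q R : BFT.LE P → Prop}
    (h1 : ∀ σ, Q σ → pos σ u + d < Fintype.card P)
    (h2 : ∀ σ, Q σ → ∀ v, u < v → pos σ u + d < pos σ v)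
    (h3 : ∀ σ τ, Q σ → pos τ u = pos σ u + d → R τ) : Pr Q ≤ Pr R := by
  classical
  have hex : ∀ σ, ∃ τ : BFT.LE P, Q σ → ∀ v, pos τ v = UpDown_shift σ u d v := by
    intro σ
    by_cases hQ : Q σ
    · obtain ⟨τ, hτ⟩ := UpDown_shift_exists u d σ (h1 σ hQ) (h2 σ hQ)
      exact ⟨τ, fun _ => hτ⟩
    · exact ⟨σ, fun h => absurd h hQ⟩
  choose f hf using hex
  apply Pr_le_of_inj f
  · intro σ hQ
    apply h3 σ (f σ) hQ
    rw [hf σ hQ u]
    unfold UpDown_shift
    rw [if_pos rfl]
  · intro σ τ hσ hτ hfe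
    apply UpDown_shift_inj u d σ τ
    intro v
    rw [← hf σ hσ v, ← hf τ hτ v, hfe]

variable {idx : P → ℕ} {K2 C3 : ℝ}

/-- the number of elements of index below `k` -/
private theorem UpDown_card_idx (hL : Loc P idx K2 C3) (k : ℕ) (hk : k ≤ Fintype.card P) :
    (univ.filter (fun v : P => idx v < k)).card = k := by
  classical
  have h1 : univ.image idx = range (Fintype.card P) := by
    apply eq_of_subset_of_card_le
    · intro x hx
      obtain ⟨v, -, rfl⟩ := mem_image.mp hx
      exact mem_range.mpr (hL.lt_card v)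
    · rw [card_range, card_image_of_injective _ hL.inj, card_univ]
  have h2 : (univ.filter (fun v : P => idx v < k)).image idx = range k := by
    ext x
    rw [mem_image, mem_range]
    constructor
    · rintro ⟨v, hv, rfl⟩
      exact (mem_filter.mp hv).2
    · intro hx
      have : x ∈ univ.image idx := by rw [h1]; exact mem_range.mpr (by omega)
      obtain ⟨v, -, hv⟩ := mem_image.mp this
      exact ⟨v, mem_filter.mpr ⟨mem_univ _, by omega⟩, hv⟩
  have h3 := card_image_of_injective (univ.filter (fun v : P => idx v < k)) hL.inj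
  rw [h2, card_range] at h3
  exact h3.symm

/-- the number of elements at places below `k` -/
private theorem UpDown_card_pos (σ : BFT.LE P) (k : ℕ) :
    (univ.filter (fun v : P => pos σ v < k)).card ≤ k := by
  classical
  have h3 := card_image_of_injective (univ.filter (fun v : P => pos σ v < k))
    (f := pos σ) (fun a b h => pos_inj h)
  rw [← h3]
  calc ((univ.filter (fun v : P => pos σ v < k)).image (pos σ)).card ≤ (range k).card := by
        apply card_le_card
        intro x hx
        obtain ⟨v, hv, rfl⟩ := mem_image.mp hx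
        exact mem_range.mpr (mem_filter.mp hv).2
    _ = k := card_range k

/-- an element of large index at a low place is in many inversions -/
private theorem UpDown_invs (hL : Loc P idx K2 C3) (σ : BFT.LE P) (v : P) (k m : ℕ)
    (hk : k ≤ idx v) (hm : pos σ v + m ≤ k) : m ≤ invs idx σ k := by
  classical
  set A := univ.filter (fun w : P => idx w < k) with hA
  set B := univ.filter (fun w : P => pos σ w < pos σ v) with hB
  have hAc : A.card = k := UpDown_card_idx hL k (by have := hL.lt_card v; omega)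
  have hBc : B.card ≤ pos σ v := UpDown_card_pos σ _
  have h1 : m ≤ (A \ B).card := by
    have := le_card_sdiff B A
    omega
  refine h1.trans ?_
  unfold invs
  apply card_le_card_of_injOn (fun w => (w, v))
  · intro w hw
    have hw' := mem_sdiff.mp (mem_coe.mp hw)
    have hw1 : idx w < k := (mem_filter.mp hw'.1).2
    have hw2 : ¬ pos σ w < pos σ v := fun hc => hw'.2 (mem_filter.mpr ⟨mem_univ _, hc⟩)
    have hne : w ≠ v := by rintro rfl; omega
    have := pos_ne (σ := σ) hne
    simp only [coe_filter, mem_univ, true_and, Set.mem_ofPred_eq]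
    exact ⟨hw1, hk, by omega⟩
  · intro a _ b _ hab
    simpa using hab

end

/-- the quantitative form -/
private theorem UpDown_main (P : Type) [Fintype P] [PartialOrder P] (idx : P → ℕ) (K2 C3 : ℝ)
    (hL : Loc P idx K2 C3) (e : ℕ) (he : 2 * K2 + C3 < e) (u : P)
    (hu : idx u + 8 * e < Fintype.card P) : ∃ v, u < v ∧ idx v ≤ idx u + 8 * e := by
  by_contra hno
  push Not at hno
  have he0 : (0 : ℝ) < e := by have := hL.hK2; have := hL.hC3; linarith
  have hfar : ∀ σ : BFT.LE P, 0 ≤ |(pos σ u : ℝ) - idx u| := fun σ => abs_nonneg _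
  have h1 : Pr (fun σ : BFT.LE P => ¬ (idx u ≤ pos σ u + e ∧ pos σ u ≤ idx u + e)) ≤ K2 / e := by
    refine (UpDown_markov he0 hfar ?_).trans (div_le_div_of_nonneg_right (hL.mean u) he0.le)
    intro σ hσ
    rw [not_and_or, not_le, not_le] at hσ
    rcases hσ with h | h
    · have : ((pos σ u : ℝ) + e) < idx u := by exact_mod_cast h
      rw [abs_sub_comm]
      exact le_trans (by linarith) (le_abs_self _)
    · have : ((idx u : ℝ) + e) < pos σ u := by exact_mod_cast h
      exact le_trans (by linarith) (le_abs_self _)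
  have h2 : Pr (fun σ : BFT.LE P => (idx u ≤ pos σ u + e ∧ pos σ u ≤ idx u + e) ∧
      ∀ v, u < v → pos σ u + 2 * e < pos σ v) ≤ K2 / e := by
    have h3 : Pr (fun σ : BFT.LE P => idx u + e ≤ pos σ u) ≤ K2 / e := by
      refine (UpDown_markov he0 hfar ?_).trans (div_le_div_of_nonneg_right (hL.mean u) he0.le)
      intro σ h
      have : ((idx u : ℝ) + e) ≤ pos σ u := by exact_mod_cast h
      exact le_trans (by linarith) (le_abs_self _)
    refine le_trans (UpDown_move u (2 * e) ?_ ?_ ?_) h3
    · rintro σ ⟨⟨_, h⟩, _⟩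
      omega
    · rintro σ ⟨_, h⟩
      exact h
    · rintro σ τ ⟨⟨h, _⟩, _⟩ h'
      omega
  have h4 : Pr (fun σ : BFT.LE P => 2 * e ≤ invs idx σ (idx u + 5 * e)) ≤ C3 / e := by
    have h5 : (0 : ℝ) < 2 * e := by linarith
    refine (UpDown_markov (f := fun σ => (invs idx σ (idx u + 5 * e) : ℝ)) h5
      (fun σ => Nat.cast_nonneg _) ?_).trans ?_
    · intro σ h
      exact_mod_cast h
    · refine (div_le_div_of_nonneg_right (Ex_invs_le hL _) h5.le).trans (le_of_eq ?_)
      rw [mul_div_mul_left _ _ (two_ne_zero)]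
  have h6 : (1 : ℝ) ≤ Pr (fun σ : BFT.LE P => ¬ (idx u ≤ pos σ u + e ∧ pos σ u ≤ idx u + e)) +
      Pr (fun σ : BFT.LE P => (idx u ≤ pos σ u + e ∧ pos σ u ≤ idx u + e) ∧
        ∀ v, u < v → pos σ u + 2 * e < pos σ v) +
      Pr (fun σ : BFT.LE P => 2 * e ≤ invs idx σ (idx u + 5 * e)) := by
    unfold Pr
    rw [← Ex_add, ← Ex_add]
    have h7 := Ex_mono (P := P) (f := fun _ => (1 : ℝ)) (g := fun σ =>
      ind (¬ (idx u ≤ pos σ u + e ∧ pos σ u ≤ idx u + e)) +
      ind ((idx u ≤ pos σ u + e ∧ pos σ u ≤ idx u + e) ∧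
        ∀ v, u < v → pos σ u + 2 * e < pos σ v) +
      ind (2 * e ≤ invs idx σ (idx u + 5 * e))) ?_
    · rwa [Ex_const] at h7
    · intro σ
      by_cases hA : idx u ≤ pos σ u + e ∧ pos σ u ≤ idx u + e
      · by_cases hB : ∀ v, u < v → pos σ u + 2 * e < pos σ v
        · have e1 := ind_true (q := (idx u ≤ pos σ u + e ∧ pos σ u ≤ idx u + e) ∧
            ∀ v, u < v → pos σ u + 2 * e < pos σ v) ⟨hA, hB⟩
          have e2 := ind_nonneg (¬ (idx u ≤ pos σ u + e ∧ pos σ u ≤ idx u + e))
          have e3 := ind_nonneg (2 * e ≤ invs idx σ (idx u + 5 * e))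
          linarith
        · push Not at hB
          obtain ⟨v, hv1, hv2⟩ := hB
          have hv3 := hno v hv1
          have hC : 2 * e ≤ invs idx σ (idx u + 5 * e) :=
            UpDown_invs hL σ v _ _ (by omega) (by omega)
          have e1 := ind_true (q := 2 * e ≤ invs idx σ (idx u + 5 * e)) hC
          have e2 := ind_nonneg (¬ (idx u ≤ pos σ u + e ∧ pos σ u ≤ idx u + e))
          have e3 := ind_nonneg ((idx u ≤ pos σ u + e ∧ pos σ u ≤ idx u + e) ∧
            ∀ v, u < v → pos σ u + 2 * e < pos σ v)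
          linarith
      · have e1 := ind_true (q := ¬ (idx u ≤ pos σ u + e ∧ pos σ u ≤ idx u + e)) hA
        have e2 := ind_nonneg ((idx u ≤ pos σ u + e ∧ pos σ u ≤ idx u + e) ∧
            ∀ v, u < v → pos σ u + 2 * e < pos σ v)
        have e3 := ind_nonneg (2 * e ≤ invs idx σ (idx u + 5 * e))
        linarith
  have h8 : K2 / e + K2 / e + C3 / e < 1 := by
    rw [← add_div, ← add_div, div_lt_one he0]
    linarith
  linarith

/-- (B.2) UP -/
theorem exists_up (K2 C3 : ℝ) : ∃ K4 : ℕ, 1 ≤ K4 ∧
    ∀ (P : Type) [Fintype P] [PartialOrder P] (idx : P → ℕ), Loc P idx K2 C3 →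
      ∀ u : P, idx u + K4 < Fintype.card P → ∃ v, u < v ∧ idx v ≤ idx u + K4 := by
  obtain ⟨e, he⟩ := exists_nat_gt (2 * K2 + C3)
  refine ⟨8 * (e + 1), by omega, ?_⟩
  intro P _ _ idx hL u hu
  exact UpDown_main P idx K2 C3 hL (e + 1) (by push_cast; linarith) u hu

/-! ### the order dual -/

section
variable {P : Type} [Fintype P] [PartialOrder P]

private theorem UpDown_dual_exists (σ : BFT.LE P) :
    ∃ τ : BFT.LE Pᵒᵈ, ∀ v : P, pos τ (OrderDual.toDual v) = Fintype.card P - 1 - pos σ v := by
  have hc : Fintype.card Pᵒᵈ = Fintype.card P := rfl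
  obtain ⟨τ, hτ⟩ := UpDown_mk (P := Pᵒᵈ)
    (fun v => Fintype.card P - 1 - pos σ (OrderDual.ofDual v)) (by
      intro v
      have := pos_lt_card σ (OrderDual.ofDual v)
      rw [hc]
      omega) (by
      intro v w h
      have h1 := pos_lt_card σ (OrderDual.ofDual v)
      have h2 := pos_lt_card σ (OrderDual.ofDual w)
      have h3 : pos σ (OrderDual.ofDual v) = pos σ (OrderDual.ofDual w) := by
        simp only at h
        omega
      exact OrderDual.ofDual.injective (pos_inj h3)) (by
      intro v w h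
      have h1 := pos_lt_card σ (OrderDual.ofDual v)
      have h2 := pos_lt_card σ (OrderDual.ofDual w)
      have h3 := pos_lt_of_lt σ (OrderDual.ofDual_lt_ofDual.mpr h)
      omega)
  exact ⟨τ, fun v => hτ _⟩

private noncomputable def UpDown_dual (σ : BFT.LE P) : BFT.LE Pᵒᵈ :=
  (UpDown_dual_exists σ).choose

private theorem UpDown_dual_spec (σ : BFT.LE P) (v : P) :
    pos (UpDown_dual σ) (OrderDual.toDual v) = Fintype.card P - 1 - pos σ v :=
  (UpDown_dual_exists σ).choose_spec v

private theorem UpDown_dual_inj : Function.Injective (UpDown_dual (P := P)) := by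
  intro σ τ h
  apply LE_ext
  intro v
  have h1 := UpDown_dual_spec σ v
  have h2 := UpDown_dual_spec τ v
  have h3 := pos_lt_card σ v
  have h4 := pos_lt_card τ v
  rw [h] at h1
  omega

private theorem UpDown_dual_bij : Function.Bijective (UpDown_dual (P := P)) := by
  rw [Fintype.bijective_iff_injective_and_card]
  refine ⟨UpDown_dual_inj, le_antisymm (Fintype.card_le_of_injective _ UpDown_dual_inj) ?_⟩
  have h1 := Fintype.card_le_of_injective _ (UpDown_dual_inj (P := Pᵒᵈ))
  exact h1

private theorem UpDown_Ex_dual (f : BFT.LE Pᵒᵈ → ℝ) :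
    Ex f = Ex (fun σ : BFT.LE P => f (UpDown_dual σ)) := by
  unfold Ex
  rw [Fintype.card_of_bijective (UpDown_dual_bij (P := P)),
    ← Equiv.sum_comp (Equiv.ofBijective _ (UpDown_dual_bij (P := P)))]
  rfl

private theorem UpDown_Loc_dual {idx : P → ℕ} {K2 C3 : ℝ} (hL : Loc P idx K2 C3) :
    Loc Pᵒᵈ (fun v => Fintype.card P - 1 - idx (OrderDual.ofDual v)) K2 C3 := by
  have hc : Fintype.card Pᵒᵈ = Fintype.card P := rfl
  refine ⟨?_, ?_, ?_, ?_, ?_, hL.hK2, hL.hC3⟩
  · intro v
    have := hL.lt_card (OrderDual.ofDual v)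
    rw [hc]
    omega
  · intro v w h
    have h1 := hL.lt_card (OrderDual.ofDual v)
    have h2 := hL.lt_card (OrderDual.ofDual w)
    have h3 : idx (OrderDual.ofDual v) = idx (OrderDual.ofDual w) := by
      simp only at h
      omega
    exact OrderDual.ofDual.injective (hL.inj h3)
  · intro v w h
    have h1 := hL.lt_card (OrderDual.ofDual v)
    have h2 := hL.lt_card (OrderDual.ofDual w)
    have h3 := hL.mono _ _ (OrderDual.ofDual_lt_ofDual.mpr h)
    omega
  · intro u
    rw [UpDown_Ex_dual]
    refine le_trans (le_of_eq (Ex_congr ?_)) (hL.mean (OrderDual.ofDual u))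
    intro σ
    have h1 := UpDown_dual_spec σ (OrderDual.ofDual u)
    rw [OrderDual.toDual_ofDual] at h1
    have h2 := pos_lt_card σ (OrderDual.ofDual u)
    have h3 := hL.lt_card (OrderDual.ofDual u)
    rw [h1, abs_sub_comm]
    congr 1
    have h4 : ((Fintype.card P - 1 - idx (OrderDual.ofDual u) : ℕ) : ℝ) =
        (Fintype.card P : ℝ) - 1 - idx (OrderDual.ofDual u) := by
      rw [Nat.cast_sub (by omega), Nat.cast_sub (by omega)]; simp
    have h5 : ((Fintype.card P - 1 - pos σ (OrderDual.ofDual u) : ℕ) : ℝ) =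
        (Fintype.card P : ℝ) - 1 - pos σ (OrderDual.ofDual u) := by
      rw [Nat.cast_sub (by omega), Nat.cast_sub (by omega)]; simp
    rw [h4, h5]
    ring
  · intro u v huv
    have h3 := hL.lt_card (OrderDual.ofDual u)
    have h4 := hL.lt_card (OrderDual.ofDual v)
    have h6 : idx (OrderDual.ofDual v) < idx (OrderDual.ofDual u) := by omega
    have h7 : BFT.lt v u = BFT.lt (OrderDual.ofDual u) (OrderDual.ofDual v) := by
      unfold BFT.lt Pr
      rw [UpDown_Ex_dual]
      apply Ex_congr
      intro σ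
      congr 1
      have h1 := UpDown_dual_spec σ (OrderDual.ofDual u)
      have h2 := UpDown_dual_spec σ (OrderDual.ofDual v)
      rw [OrderDual.toDual_ofDual] at h1 h2
      have h8 := pos_lt_card σ (OrderDual.ofDual u)
      have h9 := pos_lt_card σ (OrderDual.ofDual v)
      apply propext
      show pos (UpDown_dual σ) v < pos (UpDown_dual σ) u ↔
        pos σ (OrderDual.ofDual u) < pos σ (OrderDual.ofDual v)
      rw [h1, h2]
      omega
    have h8 : ((Fintype.card P - 1 - idx (OrderDual.ofDual u) : ℕ) : ℝ) =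
        (Fintype.card P : ℝ) - 1 - idx (OrderDual.ofDual u) := by
      rw [Nat.cast_sub (by omega), Nat.cast_sub (by omega)]; simp
    have h9 : ((Fintype.card P - 1 - idx (OrderDual.ofDual v) : ℕ) : ℝ) =
        (Fintype.card P : ℝ) - 1 - idx (OrderDual.ofDual v) := by
      rw [Nat.cast_sub (by omega), Nat.cast_sub (by omega)]; simp
    rw [h7, h8, h9]
    have h10 := hL.tail _ _ h6
    have h11 : (Fintype.card P : ℝ) - 1 - idx (OrderDual.ofDual v) -
        ((Fintype.card P : ℝ) - 1 - idx (OrderDual.ofDual u)) =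
        (idx (OrderDual.ofDual u) : ℝ) - idx (OrderDual.ofDual v) := by ring
    rw [h11]
    exact h10

end

/-- (B.2) DOWN -/
theorem exists_down (K2 C3 : ℝ) : ∃ K4 : ℕ, 1 ≤ K4 ∧
    ∀ (P : Type) [Fintype P] [PartialOrder P] (idx : P → ℕ), Loc P idx K2 C3 →
      ∀ u : P, K4 ≤ idx u → ∃ v, v < u ∧ idx u ≤ idx v + K4 := by
  obtain ⟨K4, hK4, h⟩ := exists_up K2 C3
  refine ⟨K4, hK4, ?_⟩
  intro P _ _ idx hL u hu
  have hc : Fintype.card Pᵒᵈ = Fintype.card P := rfl
  have h1 := hL.lt_card u
  obtain ⟨v, hv1, hv2⟩ := h Pᵒᵈ _ (UpDown_Loc_dual hL) (OrderDual.toDual u) (by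
    rw [hc, OrderDual.ofDual_toDual]
    omega)
  rw [OrderDual.ofDual_toDual] at hv2
  have h2 := hL.lt_card (OrderDual.ofDual v)
  exact ⟨OrderDual.ofDual v, hv1, by omega⟩

end Pool.Agent.Thin
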