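import Pool.Agent.Lib_MP_33fb9b_ks.LocDefs

set_option autoImplicit false

/-!
# B3: moving the places of a down-set down increases the number of linear extensions
-/

namespace Pool.Agent.Thin.Wd

open Pool.Agent.BFT Pool.Agent.Thin

section shift

variable {n : ℕ}

/-- number of elements of `S` below `t` -/
def below (S : Finset (Fin n)) (t : ℕ) : ℕ := (S.filter (fun p : Fin n => (p : ℕ) < t)).card

theorem below_mono (S : Finset (Fin n)) {t t' : ℕ} (h : t ≤ t') : below S t ≤ below S t' := by
  unfold below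
  apply Finset.card_le_card
  intro p hp
  rw [Finset.mem_filter] at hp ⊢
  exact ⟨hp.1, lt_of_lt_of_le hp.2 h⟩

theorem below_succ (S : Finset (Fin n)) (p : Fin n) (hp : p ∈ S) :
    below S ((p : ℕ) + 1) = below S (p : ℕ) + 1 := by
  unfold below
  have : S.filter (fun q : Fin n => (q : ℕ) < (p : ℕ) + 1) =
      insert p (S.filter (fun q : Fin n => (q : ℕ) < (p : ℕ))) := by
    ext q
    simp only [Finset.mem_filter, Finset.mem_insert]
    constructor
    · rintro ⟨h1, h2⟩
      rcases Nat.lt_succ_iff_lt_or_eq.mp h2 with h3 | h3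
      · exact Or.inr ⟨h1, h3⟩
      · exact Or.inl (Fin.ext h3)
    · rintro (h | ⟨h1, h2⟩)
      · subst h; exact ⟨hp, Nat.lt_succ_self _⟩
      · exact ⟨h1, Nat.lt_succ_of_lt h2⟩
  rw [this, Finset.card_insert_of_notMem]
  simp

theorem below_compl (S : Finset (Fin n)) (t : ℕ) (ht : t ≤ n) : below S t + below Sᶜ t = t := by
  unfold below
  rw [← Finset.card_union_of_disjoint, ← Finset.filter_union, Finset.union_compl]
  · have : (Finset.univ.filter (fun p : Fin n => (p : ℕ) < t)) =
        (Finset.univ : Finset (Fin t)).map (Fin.castLEEmb ht) := by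
      ext p
      simp only [Finset.mem_filter, Finset.mem_univ, true_and, Finset.mem_map]
      constructor
      · intro h
        exact ⟨⟨p, h⟩, Fin.ext rfl⟩
      · rintro ⟨q, rfl⟩
        exact q.2
    rw [this, Finset.card_map, Finset.card_univ, Fintype.card_fin]
  · exact Finset.disjoint_filter_filter disjoint_compl_right

theorem below_insert (S : Finset (Fin n)) (p : Fin n) (hp : p ∉ S) (t : ℕ) :
    below (insert p S) t = below S t + if (p : ℕ) < t then 1 else 0 := by
  unfold below
  rw [Finset.filter_insert]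
  split_ifs with h
  · rw [Finset.card_insert_of_notMem]
    intro h2
    exact hp (Finset.mem_filter.mp h2).1
  · rfl

theorem below_erase (S : Finset (Fin n)) (p : Fin n) (hp : p ∈ S) (t : ℕ) :
    below S t = below (S.erase p) t + if (p : ℕ) < t then 1 else 0 := by
  have := below_insert (S.erase p) p (Finset.notMem_erase p S) t
  rwa [Finset.insert_erase hp] at this

/-- the increasing bijection between two finite sets of the same size -/
noncomputable def isoF (S S' : Finset (Fin n)) (h : S'.card = S.card) : S ≃o S' :=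
  (S.orderIsoOfFin rfl).symm.trans (S'.orderIsoOfFin h)

theorem below_iso (S S' : Finset (Fin n)) (h : S'.card = S.card) (p : S) :
    below S' ((isoF S S' h p : Fin n) : ℕ) = below S ((p : Fin n) : ℕ) := by
  unfold below
  symm
  apply Finset.card_bij (fun (x : Fin n) hx => ((isoF S S' h ⟨x, (Finset.mem_filter.mp hx).1⟩ : S') : Fin n))
  · intro x hx
    rw [Finset.mem_filter] at hx ⊢
    refine ⟨Subtype.property _, ?_⟩
    have h1 : (⟨x, hx.1⟩ : S) < p := hx.2
    exact (isoF S S' h).lt_iff_lt.mpr h1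
  · intro x hx y hy hxy
    have h1 := (isoF S S' h).injective (Subtype.ext hxy)
    exact congrArg (fun z : S => (z : Fin n)) h1
  · intro y hy
    rw [Finset.mem_filter] at hy
    refine ⟨((isoF S S' h).symm ⟨y, hy.1⟩ : S), ?_, ?_⟩
    · rw [Finset.mem_filter]
      refine ⟨Subtype.property _, ?_⟩
      have h1 : (isoF S S' h).symm ⟨y, hy.1⟩ < p := by
        rw [← (isoF S S' h).lt_iff_lt, OrderIso.apply_symm_apply]
        exact hy.2
      exact h1
    · simp

theorem iso_le (S S' : Finset (Fin n)) (h : S'.card = S.card)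
    (hd : ∀ t, below S t ≤ below S' t) (p : S) :
    ((isoF S S' h p : Fin n) : ℕ) ≤ ((p : Fin n) : ℕ) := by
  by_contra hc
  push Not at hc
  have h1 := below_iso S S' h p
  have h2 := below_succ S (p : Fin n) p.2
  have h3 := hd (((p : Fin n) : ℕ) + 1)
  have h4 : below S' (((p : Fin n) : ℕ) + 1) ≤ below S' ((isoF S S' h p : Fin n) : ℕ) :=
    below_mono S' hc
  omega

theorem le_iso (S S' : Finset (Fin n)) (h : S'.card = S.card)
    (hd : ∀ t, below S' t ≤ below S t) (p : S) :
    ((p : Fin n) : ℕ) ≤ ((isoF S S' h p : Fin n) : ℕ) := by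
  by_contra hc
  push Not at hc
  have h1 := below_iso S S' h p
  have h2 := below_succ S' (isoF S S' h p : Fin n) (Subtype.property _)
  have h3 := hd (((isoF S S' h p : Fin n) : ℕ) + 1)
  have h4 : below S (((isoF S S' h p : Fin n) : ℕ) + 1) ≤ below S ((p : Fin n) : ℕ) :=
    below_mono S hc
  omega

theorem card_compl_eq (S S' : Finset (Fin n)) (h : S'.card = S.card) : S'ᶜ.card = Sᶜ.card := by
  rw [Finset.card_compl, Finset.card_compl, h]

/-- the permutation that moves `S` to `S'` and the complement to the complement, increasingly -/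
noncomputable def mvF (S S' : Finset (Fin n)) (h : S'.card = S.card) (p : Fin n) : Fin n :=
  if hp : p ∈ S then (isoF S S' h ⟨p, hp⟩ : S')
  else (isoF Sᶜ S'ᶜ (card_compl_eq S S' h) ⟨p, Finset.mem_compl.mpr hp⟩ : (S'ᶜ : Finset (Fin n)))

theorem mvF_mem (S S' : Finset (Fin n)) (h : S'.card = S.card) (p : Fin n) :
    mvF S S' h p ∈ S' ↔ p ∈ S := by
  unfold mvF
  by_cases hp : p ∈ S
  · rw [dif_pos hp]
    exact ⟨fun _ => hp, fun _ => Subtype.property _⟩
  · rw [dif_neg hp]
    refine ⟨fun h1 => ?_, fun h1 => absurd h1 hp⟩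
    exact absurd h1 (Finset.mem_compl.mp (Subtype.property _))

theorem mvF_inj (S S' : Finset (Fin n)) (h : S'.card = S.card) :
    Function.Injective (mvF S S' h) := by
  intro p q hpq
  by_cases hp : p ∈ S
  · have hq : q ∈ S := by
      rw [← mvF_mem S S' h, ← hpq, mvF_mem]; exact hp
    unfold mvF at hpq
    rw [dif_pos hp, dif_pos hq] at hpq
    have h1 := (isoF S S' h).injective (Subtype.ext hpq)
    exact congrArg (fun z : S => (z : Fin n)) h1
  · have hq : q ∉ S := by
      rw [← mvF_mem S S' h, ← hpq, mvF_mem]; exact hp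
    unfold mvF at hpq
    rw [dif_neg hp, dif_neg hq] at hpq
    have h1 := (isoF Sᶜ S'ᶜ (card_compl_eq S S' h)).injective (Subtype.ext hpq)
    exact congrArg (fun z : (Sᶜ : Finset (Fin n)) => (z : Fin n)) h1

/-- `mvF` as a permutation -/
noncomputable def mv (S S' : Finset (Fin n)) (h : S'.card = S.card) : Fin n ≃ Fin n :=
  Equiv.ofBijective (mvF S S' h) (Finite.injective_iff_bijective.mp (mvF_inj S S' h))

theorem mv_mem (S S' : Finset (Fin n)) (h : S'.card = S.card) (p : Fin n) :
    mv S S' h p ∈ S' ↔ p ∈ S := mvF_mem S S' h p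

theorem mv_lt_in (S S' : Finset (Fin n)) (h : S'.card = S.card) {p q : Fin n} (hp : p ∈ S)
    (hq : q ∈ S) (hpq : p < q) : mv S S' h p < mv S S' h q := by
  show mvF S S' h p < mvF S S' h q
  unfold mvF
  rw [dif_pos hp, dif_pos hq]
  exact (isoF S S' h).lt_iff_lt.mpr (show (⟨p, hp⟩ : S) < ⟨q, hq⟩ from hpq)

theorem mv_lt_out (S S' : Finset (Fin n)) (h : S'.card = S.card) {p q : Fin n} (hp : p ∉ S)
    (hq : q ∉ S) (hpq : p < q) : mv S S' h p < mv S S' h q := by
  show mvF S S' h p < mvF S S' h q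
  unfold mvF
  rw [dif_neg hp, dif_neg hq]
  exact (isoF Sᶜ S'ᶜ (card_compl_eq S S' h)).lt_iff_lt.mpr
    (show (⟨p, Finset.mem_compl.mpr hp⟩ : (Sᶜ : Finset (Fin n))) < ⟨q, Finset.mem_compl.mpr hq⟩ from hpq)

theorem mv_le_in (S S' : Finset (Fin n)) (h : S'.card = S.card)
    (hd : ∀ t, below S t ≤ below S' t) {p : Fin n} (hp : p ∈ S) : mv S S' h p ≤ p := by
  show mvF S S' h p ≤ p
  unfold mvF
  rw [dif_pos hp]
  exact iso_le S S' h hd ⟨p, hp⟩

theorem le_mv_out (S S' : Finset (Fin n)) (h : S'.card = S.card)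
    (hd : ∀ t, below S t ≤ below S' t) {p : Fin n} (hp : p ∉ S) : p ≤ mv S S' h p := by
  show p ≤ mvF S S' h p
  unfold mvF
  rw [dif_neg hp]
  refine le_iso Sᶜ S'ᶜ (card_compl_eq S S' h) ?_ ⟨p, Finset.mem_compl.mpr hp⟩
  intro t
  rcases le_total t n with ht | ht
  · have h1 := below_compl S t ht
    have h2 := below_compl S' t ht
    have h3 := hd t
    omega
  · have h1 : ∀ T : Finset (Fin n), below T t = T.card := by
      intro T
      unfold below
      rw [Finset.filter_true_of_mem]
      intro p _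
      exact lt_of_lt_of_le p.2 ht
    rw [h1, h1, card_compl_eq S S' h]

end shift

section ext

variable {P : Type} [Fintype P] [PartialOrder P]

open Classical in
/-- the set of positions of the elements of `D` -/
noncomputable def posS (D : Set P) (σ : BFT.LE P) : Finset (Fin (Fintype.card P)) :=
  Finset.univ.filter (fun p => σ.1.symm p ∈ D)

theorem mem_posS (D : Set P) (σ : BFT.LE P) (v : P) : σ.1 v ∈ posS D σ ↔ v ∈ D := by
  unfold posS
  simp

theorem cnt_eq_below (D : Finset P) (σ : BFT.LE P) (k : ℕ) :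
    cnt σ D k = below (posS (D : Set P) σ) k := by
  classical
  unfold cnt below
  apply Finset.card_bij (fun v _ => σ.1 v)
  · intro v hv
    rw [Finset.mem_filter] at hv ⊢
    exact ⟨(mem_posS D σ v).mpr hv.1, hv.2⟩
  · intro v _ w _ h
    exact σ.1.injective h
  · intro p hp
    rw [Finset.mem_filter] at hp
    refine ⟨σ.1.symm p, ?_, by simp⟩
    rw [Finset.mem_filter]
    refine ⟨?_, ?_⟩
    · rw [← Finset.mem_coe, ← mem_posS D σ, Equiv.apply_symm_apply]; exact hp.1
    · show ((σ.1 (σ.1.symm p) : Fin (Fintype.card P)) : ℕ) < k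
      rw [Equiv.apply_symm_apply]; exact hp.2

/-- the linear extension obtained by moving the elements of the down-set `D` down to the positions
`S'`, keeping the order inside `D` and outside `D` -/
noncomputable def re (D : Set P) (hD : IsLowerSet D) (σ : BFT.LE P)
    (S' : Finset (Fin (Fintype.card P))) (h : S'.card = (posS D σ).card)
    (hd : ∀ t, below (posS D σ) t ≤ below S' t) : BFT.LE P :=
  ⟨σ.1.trans (mv (posS D σ) S' h), by
    intro v w hvw
    rcases eq_or_lt_of_le hvw with rfl | hvw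
    · exact le_refl _
    have h1 : σ.1 v < σ.1 w := pos_lt_of_lt σ hvw
    show mv (posS D σ) S' h (σ.1 v) ≤ mv (posS D σ) S' h (σ.1 w)
    by_cases hw : w ∈ D
    · have hv : v ∈ D := hD hvw.le hw
      exact (mv_lt_in _ _ h ((mem_posS D σ v).mpr hv) ((mem_posS D σ w).mpr hw) h1).le
    · by_cases hv : v ∈ D
      · have h2 := mv_le_in _ _ h hd ((mem_posS D σ v).mpr hv)
        have h3 := le_mv_out _ _ h hd (fun hc => hw ((mem_posS D σ w).mp hc))
        exact (h2.trans h1.le).trans h3
      · exact (mv_lt_out _ _ h (fun hc => hv ((mem_posS D σ v).mp hc))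
          (fun hc => hw ((mem_posS D σ w).mp hc)) h1).le⟩

theorem posS_re (D : Set P) (hD : IsLowerSet D) (σ : BFT.LE P)
    (S' : Finset (Fin (Fintype.card P))) (h : S'.card = (posS D σ).card)
    (hd : ∀ t, below (posS D σ) t ≤ below S' t) : posS D (re D hD σ S' h hd) = S' := by
  ext p
  have h1 : ∀ v : P, (re D hD σ S' h hd).1 v ∈ S' ↔ v ∈ D := by
    intro v
    show mv (posS D σ) S' h (σ.1 v) ∈ S' ↔ v ∈ D
    rw [mv_mem, mem_posS]
  have h2 := mem_posS D (re D hD σ S' h hd) ((re D hD σ S' h hd).1.symm p)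
  have h3 := h1 ((re D hD σ S' h hd).1.symm p)
  rw [Equiv.apply_symm_apply] at h2 h3
  rw [h2, h3]

theorem re_inj (D : Set P) (hD : IsLowerSet D) (σ τ : BFT.LE P)
    (S' : Finset (Fin (Fintype.card P))) (h : S'.card = (posS D σ).card)
    (hd : ∀ t, below (posS D σ) t ≤ below S' t) (h' : S'.card = (posS D τ).card)
    (hd' : ∀ t, below (posS D τ) t ≤ below S' t) (hS : posS D σ = posS D τ)
    (heq : re D hD σ S' h hd = re D hD τ S' h' hd') : σ = τ := by
  apply LE_ext
  intro v
  have h1 : (re D hD σ S' h hd).1 v = (re D hD τ S' h' hd').1 v := by rw [heq]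
  have h2 : mv (posS D σ) S' h (σ.1 v) = mv (posS D τ) S' h' (τ.1 v) := h1
  have h3 : ∀ (T : Finset (Fin (Fintype.card P))) (hT : S'.card = T.card), posS D σ = T →
      mv (posS D σ) S' h = mv T S' hT := by
    intro T hT h4
    subst h4
    rfl
  rw [← h3 _ h' hS] at h2
  have h4 := (mv (posS D σ) S' h).injective h2
  exact congrArg (fun z : Fin (Fintype.card P) => (z : ℕ)) h4

end ext

section ratio

/-- window of positions -/
def win (n a b : ℕ) : Finset (Fin n) :=
  Finset.univ.filter (fun p : Fin n => a ≤ (p : ℕ) ∧ (p : ℕ) < b)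

theorem mem_win {n a b : ℕ} {p : Fin n} : p ∈ win n a b ↔ a ≤ (p : ℕ) ∧ (p : ℕ) < b := by
  unfold win
  simp

theorem below_win {n : ℕ} (S : Finset (Fin n)) {a b : ℕ} (hab : a ≤ b) :
    below S b = below S a + (win n a b ∩ S).card := by
  unfold below
  rw [← Finset.card_union_of_disjoint]
  · congr 1
    ext p
    simp only [Finset.mem_filter, Finset.mem_union, Finset.mem_inter, mem_win]
    constructor
    · rintro ⟨h1, h2⟩
      rcases lt_or_ge (p : ℕ) a with h3 | h3
      · exact Or.inl ⟨h1, h3⟩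
      · exact Or.inr ⟨⟨h3, h2⟩, h1⟩
    · rintro (⟨h1, h2⟩ | ⟨⟨h1, h2⟩, h3⟩)
      · exact ⟨h1, lt_of_lt_of_le h2 hab⟩
      · exact ⟨h3, h2⟩
  · rw [Finset.disjoint_left]
    intro p hp hp2
    rw [Finset.mem_filter] at hp
    rw [Finset.mem_inter, mem_win] at hp2
    omega

theorem below_univ {n : ℕ} (t : ℕ) (ht : t ≤ n) : below (Finset.univ : Finset (Fin n)) t = t := by
  have h := below_compl (Finset.univ : Finset (Fin n)) t ht
  have h2 : below (Finset.univ : Finset (Fin n))ᶜ t = 0 := by
    unfold below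
    simp
  omega

theorem card_win {n a b : ℕ} (hab : a ≤ b) (hb : b ≤ n) : (win n a b).card = b - a := by
  have h := below_win (Finset.univ : Finset (Fin n)) hab
  rw [below_univ b hb, below_univ a (hab.trans hb), Finset.inter_univ] at h
  omega

theorem card_win_sdiff {n : ℕ} (S : Finset (Fin n)) {a b : ℕ} (hab : a ≤ b) (hb : b ≤ n) :
    (win n a b \ S).card = (b - a) - (win n a b ∩ S).card := by
  have h := Finset.card_sdiff_add_card_inter (win n a b) S
  rw [card_win hab hb] at h
  omega

variable {P : Type} [Fintype P] [PartialOrder P]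

theorem sw_card {n : ℕ} (S : Finset (Fin n)) (t1 t2 : Fin n) (h1 : t1 ∉ S) (h2 : t2 ∈ S) :
    (insert t1 (S.erase t2)).card = S.card := by
  rw [Finset.card_insert_of_notMem (fun h => h1 (Finset.mem_of_mem_erase h)),
    Finset.card_erase_of_mem h2]
  have := Finset.card_pos.mpr ⟨t2, h2⟩
  omega

theorem sw_below {n : ℕ} (S : Finset (Fin n)) (t1 t2 : Fin n) (h1 : t1 ∉ S) (h2 : t2 ∈ S) (t : ℕ) :
    below (insert t1 (S.erase t2)) t + (if (t2 : ℕ) < t then 1 else 0) =
      below S t + (if (t1 : ℕ) < t then 1 else 0) := by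
  rw [below_insert _ _ (fun h => h1 (Finset.mem_of_mem_erase h)), below_erase S t2 h2]
  omega

open Classical in
/-- move one element of `D` from `t2` down to `t1` -/
noncomputable def sw (D : Set P) (hD : IsLowerSet D) (σ : BFT.LE P)
    (t1 t2 : Fin (Fintype.card P)) : BFT.LE P :=
  if h : t1 ∉ posS D σ ∧ t2 ∈ posS D σ ∧ (t1 : ℕ) < t2 then
    re D hD σ (insert t1 ((posS D σ).erase t2)) (sw_card _ _ _ h.1 h.2.1) (by
      intro t
      have h1 := sw_below (posS D σ) t1 t2 h.1 h.2.1 t
      have h2 := h.2.2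
      split_ifs at h1 <;> omega)
  else σ

theorem posS_sw (D : Set P) (hD : IsLowerSet D) (σ : BFT.LE P) (t1 t2 : Fin (Fintype.card P))
    (h1 : t1 ∉ posS D σ) (h2 : t2 ∈ posS D σ) (h3 : (t1 : ℕ) < t2) :
    posS D (sw D hD σ t1 t2) = insert t1 ((posS D σ).erase t2) := by
  unfold sw
  rw [dif_pos ⟨h1, h2, h3⟩, posS_re]

theorem sw_inj (D : Set P) (hD : IsLowerSet D) (σ τ : BFT.LE P) (t1 t2 : Fin (Fintype.card P))
    (h1 : t1 ∉ posS D σ) (h2 : t2 ∈ posS D σ) (h3 : (t1 : ℕ) < t2)
    (h1' : t1 ∉ posS D τ) (h2' : t2 ∈ posS D τ) (heq : sw D hD σ t1 t2 = sw D hD τ t1 t2) :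
    σ = τ := by
  have hS' : insert t1 ((posS D σ).erase t2) = insert t1 ((posS D τ).erase t2) := by
    rw [← posS_sw D hD σ t1 t2 h1 h2 h3, ← posS_sw D hD τ t1 t2 h1' h2' h3, heq]
  have hS : posS D σ = posS D τ := by
    have e1 : (posS D σ).erase t2 = (posS D τ).erase t2 := by
      have g1 := congrArg (fun T => Finset.erase T t1) hS'
      rwa [Finset.erase_insert (fun h => h1 (Finset.mem_of_mem_erase h)),
        Finset.erase_insert (fun h => h1' (Finset.mem_of_mem_erase h))] at g1
    rw [← Finset.insert_erase h2, ← Finset.insert_erase h2', e1]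
  unfold sw at heq
  rw [dif_pos ⟨h1, h2, h3⟩, dif_pos ⟨h1', h2', h3⟩] at heq
  have key : ∀ (T : Finset (Fin (Fintype.card P))) (hT : T.card = (posS D τ).card)
      (hdT : ∀ t, below (posS D τ) t ≤ below T t)
      (hTσ : insert t1 ((posS D σ).erase t2) = T)
      (hc : (insert t1 ((posS D σ).erase t2)).card = (posS D σ).card)
      (hd : ∀ t, below (posS D σ) t ≤ below (insert t1 ((posS D σ).erase t2)) t),
      re D hD σ (insert t1 ((posS D σ).erase t2)) hc hd = re D hD τ T hT hdT → σ = τ := by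
    intro T hT hdT hTσ hc hd he
    subst hTσ
    exact re_inj D hD σ τ _ hc hd hT hdT hS he
  exact key _ _ _ hS' _ _ heq

end ratio

end Pool.Agent.Thin.Wd

namespace Pool.Agent.Thin

open Finset Pool.Agent.BFT

variable {P : Type} [Fintype P] [PartialOrder P]

/-- (B.3) for one swap. The linear extension `σ` is re-embedded (`Wd.sw`): `D` keeps its order, and so
does its complement. -/
theorem words_swap {D : Finset P} (hD : IsLowerSet (D : Set P)) {S : Finset ℕ} {t1 t2 : ℕ}
    (h12 : t1 < t2) (h1 : t1 ∉ S) (h2 : t2 ∈ S) :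
    words D S ≤ words D (insert t1 (S.erase t2)) := by
  classical
  unfold words
  rcases Nat.lt_or_ge t2 (Fintype.card P) with hn | hn
  · have himg : ∀ (σ : BFT.LE P) (p : Fin (Fintype.card P)),
        (p : ℕ) ∈ D.image (pos σ) ↔ p ∈ Wd.posS (D : Set P) σ := by
      intro σ p
      constructor
      · intro h
        obtain ⟨v, hv, hp⟩ := Finset.mem_image.mp h
        have : σ.1 v = p := Fin.ext hp
        rw [← this]
        exact (Wd.mem_posS (D : Set P) σ v).mpr hv
      · intro h
        rw [Finset.mem_image]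
        refine ⟨σ.1.symm p, ?_, ?_⟩
        · rw [← Finset.mem_coe, ← Wd.mem_posS (D : Set P) σ, Equiv.apply_symm_apply]; exact h
        · show ((σ.1 (σ.1.symm p) : Fin (Fintype.card P)) : ℕ) = p
          rw [Equiv.apply_symm_apply]
    have himg2 : ∀ (σ : BFT.LE P) (q : ℕ), q ∈ D.image (pos σ) → q < Fintype.card P := by
      intro σ q hq
      obtain ⟨v, _, hp⟩ := Finset.mem_image.mp hq
      rw [← hp]
      exact pos_lt_card σ v
    have hn1 : t1 < Fintype.card P := h12.trans hn
    apply Finset.card_le_card_of_injOn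
      (fun σ => Wd.sw (D : Set P) hD σ ⟨t1, hn1⟩ ⟨t2, hn⟩)
    · intro σ hσ
      have hS : D.image (pos σ) = S := (Finset.mem_filter.mp hσ).2
      have g1 : (⟨t1, hn1⟩ : Fin (Fintype.card P)) ∉ Wd.posS (D : Set P) σ := by
        rw [← himg σ, hS]; exact h1
      have g2 : (⟨t2, hn⟩ : Fin (Fintype.card P)) ∈ Wd.posS (D : Set P) σ := by
        rw [← himg σ, hS]; exact h2
      have g3 := Wd.posS_sw (D : Set P) hD σ ⟨t1, hn1⟩ ⟨t2, hn⟩ g1 g2 h12
      rw [Finset.mem_coe, Finset.mem_filter]
      refine ⟨Finset.mem_univ _, ?_⟩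
      ext q
      rcases Nat.lt_or_ge q (Fintype.card P) with hq | hq
      · have g4 := himg (Wd.sw (D : Set P) hD σ ⟨t1, hn1⟩ ⟨t2, hn⟩) ⟨q, hq⟩
        have g5 := himg σ ⟨q, hq⟩
        rw [hS] at g5
        rw [g3] at g4
        dsimp only at g4 g5
        rw [g4, Finset.mem_insert, Finset.mem_erase, Finset.mem_insert, Finset.mem_erase, ← g5]
        simp only [Fin.ext_iff, ne_eq]
      · refine iff_of_false (fun hc => absurd (himg2 _ _ hc) (by omega)) ?_
        intro hc
        rw [Finset.mem_insert, Finset.mem_erase] at hc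
        rcases hc with hc | hc
        · omega
        · rw [← hS] at hc
          exact absurd (himg2 _ _ hc.2) (by omega)
    · intro σ hσ τ hτ heq
      have hS : D.image (pos σ) = S := (Finset.mem_filter.mp hσ).2
      have hT : D.image (pos τ) = S := (Finset.mem_filter.mp hτ).2
      exact Wd.sw_inj (D : Set P) hD σ τ ⟨t1, hn1⟩ ⟨t2, hn⟩
        (by rw [← himg σ, hS]; exact h1) (by rw [← himg σ, hS]; exact h2) h12
        (by rw [← himg τ, hT]; exact h1) (by rw [← himg τ, hT]; exact h2) heq
  · have : (univ.filter (fun σ : BFT.LE P => D.image (pos σ) = S)) = ∅ := by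
      rw [Finset.filter_eq_empty_iff]
      intro σ _ hσ
      rw [← hσ] at h2
      obtain ⟨v, _, hp⟩ := Finset.mem_image.mp h2
      have := pos_lt_card σ v
      omega
    rw [this, Finset.card_empty]
    exact Nat.zero_le _

end Pool.Agent.Thin
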